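import Pool.Agent.K4H9.PS.Rad

set_option autoImplicit false

/-!
Counting pairs of integers, and points through three linear forms.
-/

namespace Pool.Agent.K4H9.PS

open Finset Pool.Agent.K4H9.PP

lemma big {a : ℝ} (ha : 0 < a) (C : ℝ) : ∃ B₀ : ℕ, 1 ≤ B₀ ∧ ∀ B : ℕ, B₀ ≤ B → C ≤ (B : ℝ) ^ a := by
  have h1 := tendsto_rpow_atTop ha
  have h2 := h1.eventually_ge_atTop C
  obtain ⟨x, hx⟩ := Filter.eventually_atTop.1 h2
  obtain ⟨n, hn⟩ := exists_nat_ge x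
  exact ⟨max 1 n, le_max_left _ _, fun B hB => hx B (hn.trans (by exact_mod_cast (le_max_right _ _).trans hB))⟩

lemma card_pow_rd (q : ℕ) {ε : ℝ} (hε : 0 < ε) : ∃ C : ℝ, 0 < C ∧ ∀ X : ℕ, 1 ≤ X →
    ∀ α : ℝ, 0 < α → ∀ F : Finset (Fin q → ℕ), (∀ m ∈ F, (∀ l, 1 ≤ m l ∧ m l ≤ X) ∧
      α * (rd (∏ l, m l) : ℝ) ≤ ((∏ l, m l : ℕ) : ℝ)) →
      (F.card : ℝ) ≤ C * (X : ℝ) ^ ε * ((X : ℝ) ^ q / α) := by
  classical
  obtain ⟨C, hC0, hC⟩ := sum_inv_rd q hε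
  refine ⟨C, hC0, fun X hX α hα F hF => ?_⟩
  have hX0 : (0 : ℝ) < X := by exact_mod_cast hX
  have h1 : (F.card : ℝ) ≤ ∑ m ∈ F, ((X : ℝ) ^ q / α) * (1 / (rd (∏ l, m l) : ℝ)) := by
    rw [Finset.card_eq_sum_ones, Nat.cast_sum]
    refine Finset.sum_le_sum fun m hm => ?_
    obtain ⟨h2, h3⟩ := hF m hm
    have hr0 : (0 : ℝ) < (rd (∏ l, m l) : ℝ) := by exact_mod_cast rd_pos _
    have h4 : ((∏ l, m l : ℕ) : ℝ) ≤ (X : ℝ) ^ q := by
      have : ∏ l, m l ≤ X ^ q := by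
        calc ∏ l, m l ≤ ∏ _l : Fin q, X := Finset.prod_le_prod' fun l _ => (h2 l).2
          _ = X ^ q := by simp
      exact_mod_cast this
    rw [mul_one_div, Nat.cast_one, le_div_iff₀ hr0, one_mul, le_div_iff₀ hα]
    linarith
  refine h1.trans ?_
  rw [← Finset.mul_sum]
  have h2 : ∑ m ∈ F, 1 / (rd (∏ l, m l) : ℝ) ≤ C * (X : ℝ) ^ ε := by
    refine le_trans ?_ (hC X hX)
    refine Finset.sum_le_sum_of_subset_of_nonneg ?_ fun _ _ _ => by positivity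
    intro m hm
    rw [Fintype.mem_piFinset]
    intro l
    rw [mem_Icc]
    exact (hF m hm).1 l
  calc (X : ℝ) ^ q / α * ∑ m ∈ F, 1 / (rd (∏ l, m l) : ℝ) ≤ (X : ℝ) ^ q / α * (C * (X : ℝ) ^ ε) := by
        gcongr
    _ = _ := by ring

lemma card_natAbs (Ω : Finset ℤ) : Ω.card ≤ 2 * (Ω.image Int.natAbs).card := by
  classical
  refine Finset.card_le_mul_card_image _ 2 fun n _ => ?_
  have h1 : (Ω.filter fun w => w.natAbs = n) ⊆ {(n : ℤ), -(n : ℤ)} := by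
    intro w hw
    rw [mem_filter] at hw
    rw [mem_insert, mem_singleton]
    exact Int.natAbs_eq_iff.1 hw.2
  exact (Finset.card_le_card h1).trans Finset.card_le_two

lemma card_natAbs2 (S : Finset (ℤ × ℤ)) :
    S.card ≤ 4 * (S.image fun x => (x.1.natAbs, x.2.natAbs)).card := by
  classical
  refine Finset.card_le_mul_card_image _ 4 fun n _ => ?_
  have h1 : (S.filter fun x => (x.1.natAbs, x.2.natAbs) = n) ⊆
      ({(n.1 : ℤ), -(n.1 : ℤ)} : Finset ℤ) ×ˢ ({(n.2 : ℤ), -(n.2 : ℤ)} : Finset ℤ) := by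
    intro w hw
    rw [mem_filter] at hw
    have h2 : w.1.natAbs = n.1 := congrArg Prod.fst hw.2
    have h3 : w.2.natAbs = n.2 := congrArg Prod.snd hw.2
    rw [mem_product, mem_insert, mem_singleton, mem_insert, mem_singleton]
    exact ⟨Int.natAbs_eq_iff.1 h2, Int.natAbs_eq_iff.1 h3⟩
  refine (Finset.card_le_card h1).trans ?_
  rw [Finset.card_product]
  calc _ ≤ 2 * 2 := Nat.mul_le_mul Finset.card_le_two Finset.card_le_two
    _ = 4 := rfl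

lemma card_one {ε : ℝ} (hε : 0 < ε) : ∃ C : ℝ, 0 < C ∧ ∀ X : ℕ, 1 ≤ X → ∀ β : ℝ, 0 < β →
    ∀ Ω : Finset ℤ, (∀ w ∈ Ω, w ≠ 0 ∧ w.natAbs ≤ X ∧ β * (rd w.natAbs : ℝ) ≤ (w.natAbs : ℝ)) →
      (Ω.card : ℝ) ≤ C * (X : ℝ) ^ ε * (X / β) := by
  classical
  obtain ⟨C, hC0, hC⟩ := card_pow_rd 1 hε
  refine ⟨2 * C, by positivity, fun X hX β hβ Ω hΩ => ?_⟩
  set F : Finset (Fin 1 → ℕ) := (Ω.image Int.natAbs).image fun n => fun _ => n with hF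
  have hFc : F.card = (Ω.image Int.natAbs).card :=
    Finset.card_image_of_injective _ fun n n' h => congrFun h 0
  have h1 := hC X hX β hβ F (by
    intro m hm
    rw [hF, mem_image] at hm
    obtain ⟨n, hn, rfl⟩ := hm
    obtain ⟨w, hw, rfl⟩ := mem_image.1 hn
    obtain ⟨h2, h3, h4⟩ := hΩ w hw
    refine ⟨fun _ => ⟨Int.natAbs_pos.2 h2, h3⟩, ?_⟩
    rw [Fin.prod_univ_one]
    exact h4)
  have h2 : (Ω.card : ℝ) ≤ 2 * (F.card : ℝ) := by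
    rw [hFc]
    exact_mod_cast card_natAbs Ω
  rw [pow_one] at h1
  calc (Ω.card : ℝ) ≤ 2 * (F.card : ℝ) := h2
    _ ≤ 2 * (C * (X : ℝ) ^ ε * (X / β)) := by linarith
    _ = _ := by ring

lemma card_two {ε : ℝ} (hε : 0 < ε) : ∃ C : ℝ, 0 < C ∧ ∀ X : ℕ, 1 ≤ X → ∀ α : ℝ, 0 < α →
    ∀ S : Finset (ℤ × ℤ), (∀ x ∈ S, x.1 ≠ 0 ∧ x.2 ≠ 0 ∧ x.1.natAbs ≤ X ∧ x.2.natAbs ≤ X ∧
      α * (rd (x.1.natAbs * x.2.natAbs) : ℝ) ≤ ((x.1.natAbs * x.2.natAbs : ℕ) : ℝ)) →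
      (S.card : ℝ) ≤ C * (X : ℝ) ^ ε * ((X : ℝ) ^ 2 / α) := by
  classical
  obtain ⟨C, hC0, hC⟩ := card_pow_rd 2 hε
  refine ⟨4 * C, by positivity, fun X hX α hα S hS => ?_⟩
  set F : Finset (Fin 2 → ℕ) := (S.image fun x => (x.1.natAbs, x.2.natAbs)).image
    fun n => ![n.1, n.2] with hF
  have hFc : F.card = (S.image fun x => (x.1.natAbs, x.2.natAbs)).card :=
    Finset.card_image_of_injective _ fun n n' h => by
      have h1 := congrFun h 0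
      have h2 := congrFun h 1
      simp only [Matrix.cons_val_zero, Matrix.cons_val_one] at h1 h2
      exact Prod.ext h1 h2
  have h1 := hC X hX α hα F (by
    intro m hm
    rw [hF, mem_image] at hm
    obtain ⟨n, hn, rfl⟩ := hm
    obtain ⟨w, hw, rfl⟩ := mem_image.1 hn
    obtain ⟨h2, h3, h4, h5, h6⟩ := hS w hw
    refine ⟨fun l => ?_, ?_⟩
    · fin_cases l
      · exact ⟨by simpa using (by omega : 1 ≤ w.1.natAbs), h4⟩
      · exact ⟨by simpa using (by omega : 1 ≤ w.2.natAbs), h5⟩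
    · rw [Fin.prod_univ_two]
      exact h6)
  have h2 : (S.card : ℝ) ≤ 4 * (F.card : ℝ) := by
    rw [hFc]
    exact_mod_cast card_natAbs2 S
  calc (S.card : ℝ) ≤ 4 * (F.card : ℝ) := h2
    _ ≤ 4 * (C * (X : ℝ) ^ ε * ((X : ℝ) ^ 2 / α)) := by linarith
    _ = _ := by ring

/-- almost square pairs -/
def AS (Θ₁ : ℕ) (W : ℝ) (u v : ℕ) : Prop := ∃ g a b u' v' : ℕ, Θ₁ * u = g * a ^ 2 * u' ∧
  Θ₁ * v = g * b ^ 2 * v' ∧ ((u' * v' : ℕ) : ℝ) ≤ W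

lemma card_le_floor {F : Finset ℕ} {x : ℝ} (h : ∀ n ∈ F, 1 ≤ n ∧ (n : ℝ) ≤ x) :
    (F.card : ℝ) ≤ x ∨ F = ∅ := by
  classical
  rcases F.eq_empty_or_nonempty with h0 | ⟨n0, hn0⟩
  · exact Or.inr h0
  left
  have hx : 0 ≤ x := by
    obtain ⟨h1, h2⟩ := h n0 hn0
    exact (Nat.cast_nonneg n0).trans h2
  have h1 : F ⊆ Icc 1 ⌊x⌋₊ := by
    intro n hn
    obtain ⟨h2, h3⟩ := h n hn
    rw [mem_Icc]
    exact ⟨h2, Nat.le_floor h3⟩
  have h2 := Finset.card_le_card h1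
  rw [Nat.card_Icc, Nat.add_sub_cancel] at h2
  have h3 : (F.card : ℝ) ≤ (⌊x⌋₊ : ℝ) := by exact_mod_cast h2
  exact h3.trans (Nat.floor_le hx)

lemma card_AS {Θ₁ : ℕ} (hΘ₁ : 1 ≤ Θ₁) {ε : ℝ} (hε : 0 < ε) : ∃ C : ℝ, 0 < C ∧ ∀ X : ℕ, 1 ≤ X →
    ∀ W U V : ℝ, 0 ≤ U → 0 ≤ V → ∀ S : Finset (ℤ × ℤ), (∀ x ∈ S, x.1 ≠ 0 ∧ x.2 ≠ 0 ∧
      x.1.natAbs ≤ X ∧ (x.1.natAbs : ℝ) ≤ U ∧ (x.2.natAbs : ℝ) ≤ V ∧
      AS Θ₁ W x.1.natAbs x.2.natAbs) →
      (S.card : ℝ) ≤ C * (X : ℝ) ^ ε * W ^ 2 * (√U * √V) := by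
  classical
  refine ⟨4 * Θ₁ * (1 + 1 / ε) * (Θ₁ : ℝ) ^ ε, by positivity,
    fun X hX W U V hU hV S hS => ?_⟩
  have hX0 : (0 : ℝ) < X := by exact_mod_cast hX
  have hΘr : (0 : ℝ) < Θ₁ := by exact_mod_cast hΘ₁
  set P := S.image fun x => (x.1.natAbs, x.2.natAbs) with hP
  have hSP : (S.card : ℝ) ≤ 4 * (P.card : ℝ) := by exact_mod_cast card_natAbs2 S
  have hPx : ∀ x ∈ P, 1 ≤ x.1 ∧ 1 ≤ x.2 ∧ x.1 ≤ X ∧ (x.1 : ℝ) ≤ U ∧ (x.2 : ℝ) ≤ V ∧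
      AS Θ₁ W x.1 x.2 := by
    intro x hx
    obtain ⟨w, hw, rfl⟩ := mem_image.1 hx
    obtain ⟨h1, h2, h3, h4, h5, h6⟩ := hS w hw
    exact ⟨by simpa using (by omega : 1 ≤ w.1.natAbs), by simpa using (by omega : 1 ≤ w.2.natAbs),
      h3, h4, h5, h6⟩
  have hAS : ∀ x ∈ P, ∃ g a b u' v' : ℕ, Θ₁ * x.1 = g * a ^ 2 * u' ∧
      Θ₁ * x.2 = g * b ^ 2 * v' ∧ ((u' * v' : ℕ) : ℝ) ≤ W := fun x hx => (hPx x hx).2.2.2.2.2
  choose! γ a b u' v' hA hB hW using hAS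
  have hpos : ∀ x ∈ P, 1 ≤ γ x ∧ 1 ≤ a x ∧ 1 ≤ b x ∧ 1 ≤ u' x ∧ 1 ≤ v' x := by
    intro x hx
    obtain ⟨h1, h2, -⟩ := hPx x hx
    have e1 : γ x * a x ^ 2 * u' x ≠ 0 := by
      rw [← hA x hx]
      positivity
    have e2 : γ x * b x ^ 2 * v' x ≠ 0 := by
      rw [← hB x hx]
      positivity
    refine ⟨Nat.pos_of_ne_zero ?_, Nat.pos_of_ne_zero ?_, Nat.pos_of_ne_zero ?_,
      Nat.pos_of_ne_zero ?_, Nat.pos_of_ne_zero ?_⟩ <;> intro h0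
    · exact e1 (by rw [h0]; ring)
    · exact e1 (by rw [h0]; ring)
    · exact e2 (by rw [h0]; ring)
    · exact e1 (by rw [h0]; ring)
    · exact e2 (by rw [h0]; ring)
  set N : ℕ := ⌊W⌋₊ with hN
  set key : ℕ × ℕ → ℕ × ℕ × ℕ := fun x => (γ x, u' x, v' x) with hkey
  have hmaps : ∀ x ∈ P, key x ∈ Icc 1 (Θ₁ * X) ×ˢ Icc 1 N ×ˢ Icc 1 N := by
    intro x hx
    obtain ⟨h1, h2, h3, h4, h5⟩ := hpos x hx
    obtain ⟨k1, k2, k3, -⟩ := hPx x hx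
    rw [mem_product, mem_product, mem_Icc, mem_Icc, mem_Icc]
    have hu : u' x ≤ u' x * v' x := Nat.le_mul_of_pos_right _ h5
    have hv : v' x ≤ u' x * v' x := Nat.le_mul_of_pos_left _ h4
    have hN' : u' x * v' x ≤ N := Nat.le_floor (hW x hx)
    refine ⟨⟨h1, ?_⟩, ⟨h4, hu.trans hN'⟩, h5, hv.trans hN'⟩
    calc γ x ≤ γ x * (a x ^ 2 * u' x) := Nat.le_mul_of_pos_right _ (by positivity)
      _ = Θ₁ * x.1 := by rw [hA x hx]; ring
      _ ≤ Θ₁ * X := Nat.mul_le_mul_left _ k3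
  have hfib : ∀ k ∈ Icc 1 (Θ₁ * X) ×ˢ Icc 1 N ×ˢ Icc 1 N,
      ((P.filter fun x => key x = k).card : ℝ) ≤ Θ₁ * (√U * √V) * (1 / (k.1 : ℝ)) := by
    rintro ⟨γ0, u0, v0⟩ hk
    rw [mem_product, mem_product, mem_Icc, mem_Icc, mem_Icc] at hk
    obtain ⟨⟨hγ0, -⟩, ⟨hu0, -⟩, hv0, -⟩ := hk
    have hγr : (0 : ℝ) < γ0 := by exact_mod_cast hγ0
    set F := P.filter fun x => key x = (γ0, u0, v0) with hF
    have hFx : ∀ x ∈ F, x ∈ P ∧ γ x = γ0 ∧ u' x = u0 ∧ v' x = v0 := by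
      intro x hx
      rw [hF, mem_filter] at hx
      obtain ⟨h1, h2⟩ := hx
      simp only [hkey, Prod.mk.injEq] at h2
      exact ⟨h1, h2⟩
    have hsub : (F.card : ℝ) ≤ ((F.image a).card : ℝ) * ((F.image b).card : ℝ) := by
      have h1 : F.card ≤ ((F.image a) ×ˢ (F.image b)).card := by
        refine Finset.card_le_card_of_injOn (fun x => (a x, b x)) ?_ ?_
        · intro x hx
          exact mem_product.2 ⟨mem_image_of_mem a hx, mem_image_of_mem b hx⟩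
        · intro x hx y hy hxy
          simp only [Prod.mk.injEq] at hxy
          obtain ⟨h1, h2, h3, h4⟩ := hFx x hx
          obtain ⟨k1, k2, k3, k4⟩ := hFx y hy
          have e1 : Θ₁ * x.1 = Θ₁ * y.1 := by
            rw [hA x h1, hA y k1, h2, h3, k2, k3, hxy.1]
          have e2 : Θ₁ * x.2 = Θ₁ * y.2 := by
            rw [hB x h1, hB y k1, h2, h4, k2, k4, hxy.2]
          exact Prod.ext (Nat.eq_of_mul_eq_mul_left hΘ₁ e1) (Nat.eq_of_mul_eq_mul_left hΘ₁ e2)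
      rw [Finset.card_product] at h1
      exact_mod_cast h1
    rcases F.eq_empty_or_nonempty with h0 | hne
    · rw [h0, Finset.card_empty, Nat.cast_zero]
      positivity
    have hAle : ((F.image a).card : ℝ) ≤ √(Θ₁ * U / γ0) := by
      refine (card_le_floor (x := √(Θ₁ * U / γ0)) fun n hn => ?_).resolve_right
        (hne.image a).ne_empty
      obtain ⟨x, hx, rfl⟩ := mem_image.1 hn
      obtain ⟨h1, h2, h3, h4⟩ := hFx x hx
      refine ⟨(hpos x h1).2.1, Real.le_sqrt_of_sq_le ?_⟩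
      rw [le_div_iff₀ hγr]
      have e1 : a x ^ 2 * γ0 ≤ Θ₁ * x.1 := by
        rw [hA x h1, h2]
        calc a x ^ 2 * γ0 = γ0 * a x ^ 2 := by ring
          _ ≤ γ0 * a x ^ 2 * u' x := Nat.le_mul_of_pos_right _ (hpos x h1).2.2.2.1
      have e2 : (a x : ℝ) ^ 2 * γ0 ≤ Θ₁ * (x.1 : ℝ) := by exact_mod_cast e1
      refine e2.trans ?_
      have := (hPx x h1).2.2.2.1
      gcongr
    have hBle : ((F.image b).card : ℝ) ≤ √(Θ₁ * V / γ0) := by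
      refine (card_le_floor (x := √(Θ₁ * V / γ0)) fun n hn => ?_).resolve_right
        (hne.image b).ne_empty
      obtain ⟨x, hx, rfl⟩ := mem_image.1 hn
      obtain ⟨h1, h2, h3, h4⟩ := hFx x hx
      refine ⟨(hpos x h1).2.2.1, Real.le_sqrt_of_sq_le ?_⟩
      rw [le_div_iff₀ hγr]
      have e1 : b x ^ 2 * γ0 ≤ Θ₁ * x.2 := by
        rw [hB x h1, h2]
        calc b x ^ 2 * γ0 = γ0 * b x ^ 2 := by ring
          _ ≤ γ0 * b x ^ 2 * v' x := Nat.le_mul_of_pos_right _ (hpos x h1).2.2.2.2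
      have e2 : (b x : ℝ) ^ 2 * γ0 ≤ Θ₁ * (x.2 : ℝ) := by exact_mod_cast e1
      refine e2.trans ?_
      have := (hPx x h1).2.2.2.2.1
      gcongr
    calc (F.card : ℝ) ≤ ((F.image a).card : ℝ) * ((F.image b).card : ℝ) := hsub
      _ ≤ √(Θ₁ * U / γ0) * √(Θ₁ * V / γ0) := by gcongr
      _ = Θ₁ * (√U * √V) * (1 / (γ0 : ℝ)) := by
          rw [Real.sqrt_div (by positivity), Real.sqrt_div (by positivity),
            Real.sqrt_mul hΘr.le, Real.sqrt_mul hΘr.le]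
          have e1 : √(Θ₁ : ℝ) * √(Θ₁ : ℝ) = Θ₁ := Real.mul_self_sqrt hΘr.le
          have e2 : √(γ0 : ℝ) * √(γ0 : ℝ) = γ0 := Real.mul_self_sqrt hγr.le
          have e3 : √(γ0 : ℝ) ≠ 0 := (Real.sqrt_pos.2 hγr).ne'
          rw [div_mul_div_comm, e2]
          calc √(Θ₁ : ℝ) * √U * (√(Θ₁ : ℝ) * √V) / γ0 = (√(Θ₁ : ℝ) * √(Θ₁ : ℝ)) * (√U * √V) / γ0 := by
                ring
            _ = _ := by rw [e1]; ring
  rcases P.eq_empty_or_nonempty with h0 | ⟨x0, hx0⟩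
  · have : (S.card : ℝ) ≤ 0 := by
      rw [h0] at hSP
      simpa using hSP
    refine this.trans (by positivity)
  have hW1 : 0 ≤ W := (Nat.cast_nonneg _).trans (hW x0 hx0)
  have hcard : (P.card : ℝ) = ∑ k ∈ Icc 1 (Θ₁ * X) ×ˢ Icc 1 N ×ˢ Icc 1 N,
      ((P.filter fun x => key x = k).card : ℝ) := by
    rw [Finset.card_eq_sum_card_fiberwise hmaps, Nat.cast_sum]
  have hNW : (N : ℝ) ≤ W := Nat.floor_le hW1
  have hΘX : 1 ≤ Θ₁ * X := Nat.mul_pos hΘ₁ hX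
  have h1 : (P.card : ℝ) ≤ Θ₁ * (√U * √V) * (N : ℝ) ^ 2 * ((1 + 1 / ε) * ((Θ₁ * X : ℕ) : ℝ) ^ ε) := by
    rw [hcard]
    refine (Finset.sum_le_sum hfib).trans ?_
    rw [← Finset.mul_sum, Finset.sum_product]
    simp only [Finset.sum_const, Finset.card_product, Nat.card_Icc, Nat.add_sub_cancel,
      nsmul_eq_mul]
    rw [← Finset.mul_sum]
    have h2 := harm hε hΘX
    push_cast
    push_cast at h2
    calc (Θ₁ : ℝ) * (√U * √V) * (N * N * ∑ i ∈ Icc 1 (Θ₁ * X), 1 / (i : ℝ)) ≤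
          (Θ₁ : ℝ) * (√U * √V) * (N * N * ((1 + 1 / ε) * ((Θ₁ : ℝ) * X) ^ ε)) := by gcongr
      _ = _ := by ring
  calc (S.card : ℝ) ≤ 4 * (P.card : ℝ) := hSP
    _ ≤ 4 * (Θ₁ * (√U * √V) * (N : ℝ) ^ 2 * ((1 + 1 / ε) * ((Θ₁ * X : ℕ) : ℝ) ^ ε)) := by linarith
    _ ≤ 4 * (Θ₁ * (√U * √V) * W ^ 2 * ((1 + 1 / ε) * ((Θ₁ * X : ℕ) : ℝ) ^ ε)) := by gcongr
    _ = _ := by
        push_cast
        rw [Real.mul_rpow hΘr.le hX0.le]
        ring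

lemma card_dvd {ε : ℝ} (hε : 0 < ε) : ∃ C : ℝ, 0 < C ∧ ∀ X : ℕ, ∀ N : ℤ, N ≠ 0 → ∀ γ : ℝ, 0 < γ →
    ∀ Ω : Finset ℤ, (∀ w ∈ Ω, w ≠ 0 ∧ w.natAbs ≤ X ∧ ∃ d : ℕ, γ ≤ d ∧ (d : ℤ) ∣ w ∧ (d : ℤ) ∣ N) →
      (Ω.card : ℝ) ≤ C * (N.natAbs : ℝ) ^ ε * (X / γ) := by
  classical
  obtain ⟨C, hC0, hC⟩ := H353.divisor_bound_real ε hε
  refine ⟨2 * C, by positivity, fun X N hN γ hγ Ω hΩ => ?_⟩
  have hN1 : 1 ≤ N.natAbs := by omega
  set P := Ω.image Int.natAbs with hP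
  have hΩP : (Ω.card : ℝ) ≤ 2 * (P.card : ℝ) := by exact_mod_cast card_natAbs Ω
  have hsub : P ⊆ (N.natAbs.divisors.filter fun d : ℕ => γ ≤ (d : ℝ)).biUnion
      fun d : ℕ => (Ioc 0 X).filter fun n => d ∣ n := by
    intro n hn
    obtain ⟨w, hw, rfl⟩ := mem_image.1 hn
    obtain ⟨h1, h2, d, h3, h4, h5⟩ := hΩ w hw
    rw [mem_biUnion]
    refine ⟨d, ?_, ?_⟩
    · rw [mem_filter, Nat.mem_divisors]
      exact ⟨⟨Int.natCast_dvd.1 h5, by omega⟩, h3⟩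
    · rw [mem_filter, mem_Ioc]
      exact ⟨⟨by omega, h2⟩, Int.natCast_dvd.1 h4⟩
  have h1 : (P.card : ℝ) ≤ (N.natAbs.divisors.card : ℝ) * (X / γ) := by
    have h2 : P.card ≤ ∑ d ∈ N.natAbs.divisors.filter (fun d : ℕ => γ ≤ (d : ℝ)), X / d := by
      refine (Finset.card_le_card hsub).trans (Finset.card_biUnion_le.trans ?_)
      refine Finset.sum_le_sum fun d _ => ?_
      rw [Nat.Ioc_filter_dvd_card_eq_div]
    calc (P.card : ℝ) ≤ ((∑ d ∈ N.natAbs.divisors.filter (fun d : ℕ => γ ≤ (d : ℝ)), X / d : ℕ) : ℝ) := by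
          exact_mod_cast h2
      _ = ∑ d ∈ N.natAbs.divisors.filter (fun d : ℕ => γ ≤ (d : ℝ)), ((X / d : ℕ) : ℝ) := by
          push_cast
          rfl
      _ ≤ ∑ d ∈ N.natAbs.divisors.filter (fun d : ℕ => γ ≤ (d : ℝ)), (X : ℝ) / γ := by
          refine Finset.sum_le_sum fun d hd => ?_
          rw [mem_filter] at hd
          refine Nat.cast_div_le.trans ?_
          exact div_le_div_of_nonneg_left (Nat.cast_nonneg _) hγ hd.2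
      _ = ((N.natAbs.divisors.filter (fun d : ℕ => γ ≤ (d : ℝ))).card : ℝ) * (X / γ) := by
          rw [Finset.sum_const, nsmul_eq_mul]
      _ ≤ _ := by
          refine mul_le_mul_of_nonneg_right ?_ (by positivity)
          exact_mod_cast Finset.card_filter_le _ _
  calc (Ω.card : ℝ) ≤ 2 * (P.card : ℝ) := hΩP
    _ ≤ 2 * ((N.natAbs.divisors.card : ℝ) * (X / γ)) := by linarith
    _ ≤ 2 * ((C * (N.natAbs : ℝ) ^ ε) * (X / γ)) := by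
        have := hC N.natAbs (by omega)
        gcongr
    _ = _ := by ring

variable {q : ℕ} {ℓ : Fin q → Fin 3 → ℤ} {Θ H : ℕ}

/-- the values of two of the forms -/
def uv (a b : Fin 3 → ℤ) (z : Fin 3 → ℤ) : ℤ × ℤ := (dot z a, dot z b)

lemma count3 {a b x : Fin 3 → ℤ} (hd : dt a b x ≠ 0) (T : Finset (Fin 3 → ℤ)) {M : ℝ}
    (hM : ∀ z₀ ∈ T, ((((T.filter fun z => uv a b z = uv a b z₀).image fun z => dot z x).card :
      ℕ) : ℝ) ≤ M) : (T.card : ℝ) ≤ ((T.image (uv a b)).card : ℝ) * M := by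
  classical
  have hmaps : ∀ z ∈ T, uv a b z ∈ T.image (uv a b) := fun z hz => mem_image_of_mem _ hz
  rw [Finset.card_eq_sum_card_fiberwise hmaps, Nat.cast_sum, ← nsmul_eq_mul, ← Finset.sum_const]
  refine Finset.sum_le_sum fun π hπ => ?_
  obtain ⟨z₀, hz₀, rfl⟩ := mem_image.1 hπ
  refine le_trans ?_ (hM z₀ hz₀)
  have h1 : (T.filter fun z => uv a b z = uv a b z₀).card ≤
      ((T.filter fun z => uv a b z = uv a b z₀).image fun z => dot z x).card := by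
    rw [Finset.card_image_of_injOn]
    intro z hz z' hz' h
    rw [Finset.mem_coe, mem_filter] at hz hz'
    have h2 := hz.2.trans hz'.2.symm
    simp only [uv, Prod.mk.injEq] at h2
    refine zz_inj hd ?_
    funext k
    fin_cases k
    · exact h2.1
    · exact h2.2
    · exact h
  exact_mod_cast h1

lemma count3a {a b x : Fin 3 → ℤ} (hd : dt a b x ≠ 0) (T : Finset (Fin 3 → ℤ)) :
    (T.card : ℝ) ≤ ((T.image (uv a b)).card : ℝ) * ((T.image fun z => dot z x).card : ℝ) := by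
  classical
  refine count3 hd T fun z₀ _ => ?_
  exact_mod_cast Finset.card_le_card (Finset.image_subset_image (Finset.filter_subset _ _))

end Pool.Agent.K4H9.PS
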