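import Pool.Agent.K4H9.PS.Main2
import Pool.Agent.TH905.VF.Prox

set_option autoImplicit false

/-!
The truncated counting function and the discriminant of the points of Fermat surfaces.
-/

namespace Pool.Agent.K4H9.PS

open Finset Pool.Agent.K4H9.PP NumberField IsDedekindDomain Height Pool.Agent.H691R3
open Pool.Agent.TH905.VF (ld ht prox key' ht_pow)

/-- the prime of the integers of `ℚ` over `p` -/
theorem exists_v (p : ℕ) (hp : p.Prime) : ∃ v : HeightOneSpectrum (𝓞 ℚ),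
    v.asIdeal = Ideal.span {(p : 𝓞 ℚ)} ∧ Ideal.absNorm v.asIdeal = p := by
  have h1 : Prime (p : 𝓞 ℚ) := by
    have h2 : Prime ((Rat.ringOfIntegersEquiv : 𝓞 ℚ ≃+* ℤ) (p : 𝓞 ℚ)) := by
      rw [map_natCast]
      exact Nat.prime_iff_prime_int.1 hp
    exact (MulEquiv.prime_iff (Rat.ringOfIntegersEquiv : 𝓞 ℚ ≃+* ℤ)).1 h2
  have h0 : (p : 𝓞 ℚ) ≠ 0 := h1.ne_zero
  refine ⟨⟨Ideal.span {(p : 𝓞 ℚ)}, (Ideal.span_singleton_prime h0).2 h1, ?_⟩, rfl, ?_⟩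
  · rw [Ne, Ideal.span_singleton_eq_bot]
    exact h0
  · show Ideal.absNorm (Ideal.span {(p : 𝓞 ℚ)}) = p
    rw [Ideal.absNorm_span_singleton]
    have h2 : (p : 𝓞 ℚ) = algebraMap ℤ (𝓞 ℚ) (p : ℤ) := by simp
    rw [h2, Algebra.norm_algebraMap, RingOfIntegers.rank, Module.finrank_self, pow_one,
      Int.natAbs_natCast]

theorem fv_lt_one (w : HeightOneSpectrum (𝓞 ℚ)) (a : ℤ) (h : (a : 𝓞 ℚ) ∈ w.asIdeal) :
    fv w (a : ℚ) < 1 := by
  have h1 := (FinitePlace.norm_lt_one_iff_mem ℚ w (a : 𝓞 ℚ)).2 h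
  have h2 : fv w (a : ℚ) = ‖FinitePlace.embedding w (algebraMap (𝓞 ℚ) ℚ (a : 𝓞 ℚ))‖ := by
    rw [map_intCast (algebraMap (𝓞 ℚ) ℚ)]
    rfl
  rw [h2]
  exact h1

theorem fv_eq_one (w : HeightOneSpectrum (𝓞 ℚ)) (a : ℤ) (h : (a : 𝓞 ℚ) ∉ w.asIdeal) :
    fv w (a : ℚ) = 1 := by
  have h1 := (FinitePlace.norm_eq_one_iff_notMem ℚ w (a : 𝓞 ℚ)).2 h
  have h2 : fv w (a : ℚ) = ‖FinitePlace.embedding w (algebraMap (𝓞 ℚ) ℚ (a : 𝓞 ℚ))‖ := by
    rw [map_intCast (algebraMap (𝓞 ℚ) ℚ)]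
    rfl
  rw [h2]
  exact h1

theorem mem_iff (p : ℕ) (a : ℤ) : (a : 𝓞 ℚ) ∈ Ideal.span {(p : 𝓞 ℚ)} ↔ (p : ℤ) ∣ a := by
  rw [Ideal.mem_span_singleton]
  constructor
  · intro h
    have h1 := map_dvd (Rat.ringOfIntegersEquiv : 𝓞 ℚ ≃+* ℤ) h
    rwa [map_natCast, map_intCast] at h1
  · rintro ⟨b, rfl⟩
    refine ⟨(b : 𝓞 ℚ), ?_⟩
    push_cast
    ring

/-- the height of the values -/
theorem ht_vals {q : ℕ} (L : Fin q → Fin 3 → ℤ) : ∃ Ca : ℝ, ∀ x : Fin 3 → ℤ, Cont 1 x →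
    logHeight (fun i => ((dot x (L i) : ℤ) : ℚ)) ≤ Ca + Real.log (nm x) := by
  refine ⟨totalWeight ℚ * Real.log (Nat.card (Fin 3)) +
      logHeight (fun p : Fin q × Fin 3 => (L p.1 p.2 : ℚ)), fun x hx => ?_⟩
  have h1 := logHeight_linearMap_apply_le (fun p : Fin q × Fin 3 => (L p.1 p.2 : ℚ))
    (fun j => (x j : ℚ))
  have h2 : (fun i => ((dot x (L i) : ℤ) : ℚ)) =
      fun i : Fin q => ∑ j : Fin 3, (L i j : ℚ) * (x j : ℚ) := by
    funext i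
    simp only [dot, Fin.sum_univ_three]
    push_cast
    ring
  have h3 : logHeight (fun j => (x j : ℚ)) = Real.log (nm x) := by
    have h4 := Rat.logHeight_eq_max_abs_of_gcd_eq_one (gcd_of_cont hx)
    have h5 : (((↑) : ℤ → ℚ) ∘ x) = fun j => (x j : ℚ) := rfl
    rw [h5] at h4
    rw [h4]
    congr 1
    have h6 : (⨆ i, |x i|) = (nm x : ℤ) := by
      apply le_antisymm
      · exact ciSup_le fun i => abs_le_nm x i
      · obtain ⟨k, hk⟩ := exists_nm x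
        rw [← hk, Int.natCast_natAbs]
        exact le_ciSup (f := fun i => |x i|) (Set.finite_range _).bddAbove k
    rw [h6]
    norm_cast
  rw [h2, ← h3]
  exact h1

/-- some point of some cover above `v` violates the inequality -/
def Viol {q : ℕ} (S : Finset (HeightOneSpectrum (𝓞 ℚ))) (θ c : ℝ) (v : Fin q → ℚ) : Prop :=
  ∃ (m : ℕ) (F : Type) (_ : Field F) (_ : NumberField F) (_ : Algebra ℚ F) (y : Fin q → F) (t : F),
    m ≠ 0 ∧ t ≠ 0 ∧ (∀ i, y i ^ m = t * algebraMap ℚ F (v i)) ∧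
      ld ℚ F + c < (θ * m - q) * ht ℚ y + prox S y

theorem rd_of_viol {q : ℕ} {L : Fin q → Fin 3 → ℤ} {Θ H : ℕ} (g : GP L Θ H)
    (S : Finset (HeightOneSpectrum (𝓞 ℚ))) (θ c : ℝ) (hθ : 0 ≤ θ) :
    ∃ Cc : ℝ, 1 ≤ Cc ∧ ∀ x : Fin 3 → ℤ, Cont 1 x → (∀ l, dot x (L l) ≠ 0) →
      Viol S θ c (fun i => ((dot x (L i) : ℤ) : ℚ)) →
      (rd (∏ l, (dot x (L l)).natAbs) : ℝ) ≤ Cc * (nm x : ℝ) ^ θ := by
  classical
  obtain ⟨Ca, hCa⟩ := ht_vals L
  have hq := g.q3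
  choose v hv1 hv2 using exists_v
  set Q : Finset ℕ := Θ.primeFactors ∪ S.image fun v => Ideal.absNorm v.asIdeal with hQ
  set CQ : ℝ := ∑ p ∈ Q, Real.log p with hCQ
  refine ⟨max 1 (Real.exp (θ * Ca - c + CQ)), le_max_left _ _, fun x hx hx0 hviol => ?_⟩
  obtain ⟨m, F, _, _, _, y, t, hm, ht', hy, hvi⟩ := hviol
  set N : ℕ := ∏ l, (dot x (L l)).natAbs with hN
  have hN0 : N ≠ 0 := by
    rw [hN]
    exact Finset.prod_ne_zero_iff.2 fun l _ => Int.natAbs_ne_zero.2 (hx0 l)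
  set P : Finset ℕ := N.primeFactors \ Q with hP
  have hPp : ∀ p ∈ P, p.Prime := fun p hp => Nat.prime_of_mem_primeFactors (mem_sdiff.1 hp).1
  set R : Finset (HeightOneSpectrum (𝓞 ℚ)) := P.attach.image fun p => v p.1 (hPp p.1 p.2) with hR
  have hsumR : ∑ v ∈ R, Real.log (Ideal.absNorm v.asIdeal) = ∑ p ∈ P, Real.log p := by
    rw [hR, Finset.sum_image]
    · rw [← Finset.sum_attach P]
      refine Finset.sum_congr rfl fun p _ => ?_
      rw [hv2]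
    · intro p _ q _ hpq
      have h1 := congrArg (fun v : HeightOneSpectrum (𝓞 ℚ) => Ideal.absNorm v.asIdeal) hpq
      simp only [hv2] at h1
      exact Subtype.ext h1
  have hyne : ∀ i, y i ≠ 0 := by
    intro i h0
    have h3 := hy i
    rw [h0, zero_pow hm] at h3
    have h4 : algebraMap ℚ F ((dot x (L i) : ℤ) : ℚ) ≠ 0 := by
      rw [Ne, map_eq_zero]
      exact_mod_cast hx0 i
    exact mul_ne_zero ht' h4 h3.symm
  have hkey := key' (k := ℚ) (by omega : 0 < q) m hm (fun i => ((dot x (L i) : ℤ) : ℚ)) y hyne t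
    ht' hy S R (by
      intro w hw
      obtain ⟨⟨p, hp⟩, -, rfl⟩ := Finset.mem_image.1 hw
      have hp' := hPp p hp
      simp only
      have hpN : p ∣ N := Nat.dvd_of_mem_primeFactors (mem_sdiff.1 hp).1
      have hpQ : p ∉ Q := (mem_sdiff.1 hp).2
      have hpΘ : ¬ p ∣ Θ := fun h => hpQ (mem_union_left _
        (Nat.mem_primeFactors.2 ⟨hp', h, by have := g.Θ1; omega⟩))
      refine ⟨fun h => hpQ (mem_union_right _ (mem_image.2 ⟨_, h, hv2 _ _⟩)), ?_⟩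
      obtain ⟨i, -, hi⟩ := (hp'.prime.dvd_finsetProd_iff _).1 hpN
      have hi' : (p : ℤ) ∣ dot x (L i) := Int.natCast_dvd.2 hi
      obtain ⟨j, hj⟩ : ∃ j, ¬ (p : ℤ) ∣ dot x (L j) := by
        by_contra hcon
        push Not at hcon
        refine hx.prime hp' fun k => ?_
        have h1 := cramer (L ⟨0, by omega⟩) (L ⟨1, by omega⟩) (L ⟨2, by omega⟩) x k
        have h2 : ∀ i, dot (L i) x = dot x (L i) := fun i => by
          simp only [dot]; ring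
        have h3 : (p : ℤ) ∣ x k * dt (L ⟨0, by omega⟩) (L ⟨1, by omega⟩) (L ⟨2, by omega⟩) := by
          rw [h1, h2, h2, h2]
          exact dvd_add (dvd_add ((hcon _).mul_right _) ((hcon _).mul_right _))
            ((hcon _).mul_right _)
        rcases (Nat.prime_iff_prime_int.1 hp').dvd_or_dvd h3 with h4 | h4
        · exact h4
        · exact absurd h4 (g.not_dvd_d hpΘ (by simp [Fin.ext_iff]) (by simp [Fin.ext_iff])
            (by simp [Fin.ext_iff]))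
      refine ⟨i, j, ?_⟩
      have e1 : fv (v p hp') ((dot x (L j) : ℤ) : ℚ) = 1 :=
        fv_eq_one _ _ (by rw [hv1, mem_iff]; exact hj)
      have e2 : fv (v p hp') ((dot x (L i) : ℤ) : ℚ) < 1 :=
        fv_lt_one _ _ (by rw [hv1, mem_iff]; exact hi')
      rw [e1]
      exact e2)
  rw [hsumR] at hkey
  have h4 := ht_pow (k := ℚ) m (fun i => ((dot x (L i) : ℤ) : ℚ)) y t ht' hy
  have h5 := hCa x hx
  have h7 : θ * (m * ht ℚ y) ≤ θ * (Ca + Real.log (nm x)) := by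
    rw [h4]
    exact mul_le_mul_of_nonneg_left h5 hθ
  have hrd : Real.log (rd N) ≤ ∑ p ∈ P, Real.log p + CQ := by
    unfold rd
    rw [Nat.cast_prod, Real.log_prod]
    · rw [← Finset.sum_inter_add_sum_sdiff N.primeFactors Q (fun p => Real.log (p : ℝ)), add_comm]
      refine add_le_add le_rfl ?_
      exact Finset.sum_le_sum_of_subset_of_nonneg inter_subset_right fun p _ _ =>
        Real.log_natCast_nonneg p
    · intro p hp
      exact_mod_cast (Nat.prime_of_mem_primeFactors hp).ne_zero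
  have hfin : Real.log (rd N) ≤ (θ * Ca - c + CQ) + θ * Real.log (nm x) := by
    push_cast at hkey hvi ⊢
    nlinarith
  have hnm : (0 : ℝ) < nm x := by exact_mod_cast nm_pos hx.1
  have hrd0 : (0 : ℝ) < rd N := by exact_mod_cast rd_pos N
  calc (rd N : ℝ) = Real.exp (Real.log (rd N)) := (Real.exp_log hrd0).symm
    _ ≤ Real.exp ((θ * Ca - c + CQ) + θ * Real.log (nm x)) := Real.exp_le_exp.2 hfin
    _ = Real.exp (θ * Ca - c + CQ) * (nm x : ℝ) ^ θ := by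
        rw [Real.exp_add, Real.rpow_def_of_pos hnm]
        congr 2
        ring
    _ ≤ _ := mul_le_mul_of_nonneg_right (le_max_right _ _) (by positivity)

/-- the exceptional points -/
def Bad {q : ℕ} (L : Fin q → Fin 3 → ℤ) (S : Finset (HeightOneSpectrum (𝓞 ℚ))) (θ c B : ℝ) :
    Set (Fin 3 → ℤ) :=
  {x | univ.gcd x = 1 ∧ (∀ i, form (L i) x ≠ 0) ∧ Pool.Agent.K4H9.PP.ht x ≤ Real.log B ∧
    Viol S θ c (fun i => ((form (L i) x : ℤ) : ℚ))}

variable {q : ℕ} {L : Fin q → Fin 3 → ℤ}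

lemma bad_sub (S : Finset (HeightOneSpectrum (𝓞 ℚ))) (θ c B : ℝ) (hB : 1 ≤ B) :
    Bad L S θ c B ⊆ {x | Cont 1 x ∧ nm x ≤ ⌊B⌋₊} := by
  intro x hx
  obtain ⟨h1, h2, h3, h4⟩ := hx
  have hc := cont_of_gcd h1
  refine ⟨hc, ?_⟩
  rw [ht_eq] at h3
  have h5 : (0 : ℝ) < nm x := by exact_mod_cast nm_pos hc.1
  exact Nat.le_floor ((Real.log_le_log_iff h5 (by linarith)).1 h3)

lemma bad_finite (S : Finset (HeightOneSpectrum (𝓞 ℚ))) (θ c B : ℝ) (hB : 1 ≤ B) :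
    (Bad L S θ c B).Finite := by
  refine ((Fintype.piFinset fun _ : Fin 3 => Icc (-(⌊B⌋₊ : ℤ)) ⌊B⌋₊).finite_toSet).subset ?_
  intro x hx
  obtain ⟨-, h1⟩ := bad_sub S θ c B hB hx
  rw [Finset.mem_coe, Fintype.mem_piFinset]
  intro k
  rw [mem_Icc]
  refine abs_le.1 ((abs_le_nm x k).trans ?_)
  exact_mod_cast h1

theorem fermat_off (hq : 3 ≤ q)
    (hL : ∀ i j k, i ≠ j → i ≠ k → j ≠ k → (Matrix.of ![L i, L j, L k]).det ≠ 0)
    (S : Finset (HeightOneSpectrum (𝓞 ℚ))) {θ : ℝ} (hθ0 : 0 ≤ θ) (hθ : θ < q - 1) (c : ℝ) :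
    ∃ η : ℝ, 0 < η ∧ ∃ C : ℝ, ∀ B : ℝ, 1 ≤ B →
      ((Bad L S θ c B ∩ OffL L).ncard : ℝ) ≤ C * B ^ (2 - η) := by
  obtain ⟨Θ, H, g⟩ := gp_exists hq hL
  obtain ⟨Cc, hCc1, hCc⟩ := rd_of_viol g S θ c hθ0
  obtain ⟨η, hη, C, hC0, hC⟩ := upper2 g (by linarith : 1 < (q : ℝ) - θ) hCc1
  refine ⟨min η 1, lt_min hη one_pos, C, fun B hB => ?_⟩
  have hfin : (Bad L S θ c B ∩ OffL L).Finite :=
    (bad_finite (L := L) S θ c B hB).subset Set.inter_subset_left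
  have hB1 : 1 ≤ ⌊B⌋₊ := Nat.le_floor (by exact_mod_cast hB)
  rw [Set.ncard_eq_toFinset_card _ hfin]
  have h1 := hC ⌊B⌋₊ hB1 hfin.toFinset (by
    intro x hx
    rw [Set.Finite.mem_toFinset] at hx
    obtain ⟨hx, hoff⟩ := hx
    obtain ⟨h2, h3⟩ := bad_sub S θ c B hB hx
    obtain ⟨-, h5, -, h6⟩ := hx
    have h7 : ∀ l, dot x (L l) ≠ 0 := fun l => by
      have := h5 l
      rwa [form_eq] at this
    refine ⟨h2, h3, h7, (off_iff x).1 hoff, ?_⟩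
    have h8 := hCc x h2 h7 (by simpa only [form_eq] using h6)
    have h9 : (q : ℝ) - ((q : ℝ) - θ) = θ := by ring
    rw [h9]
    exact h8)
  refine h1.trans ?_
  refine mul_le_mul_of_nonneg_left ?_ hC0.le
  have hB1r : (1 : ℝ) ≤ (⌊B⌋₊ : ℝ) := by exact_mod_cast hB1
  calc (⌊B⌋₊ : ℝ) ^ (2 - η) ≤ (⌊B⌋₊ : ℝ) ^ (2 - min η 1) :=
        Real.rpow_le_rpow_of_exponent_le hB1r (by have := min_le_left η 1; linarith)
    _ ≤ B ^ (2 - min η 1) := Real.rpow_le_rpow (Nat.cast_nonneg _) (Nat.floor_le (by linarith))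
        (by have := min_le_right η 1; linarith)

theorem fermat_all (hq : 3 ≤ q)
    (hL : ∀ i j k, i ≠ j → i ≠ k → j ≠ k → (Matrix.of ![L i, L j, L k]).det ≠ 0)
    (S : Finset (HeightOneSpectrum (𝓞 ℚ))) {θ : ℝ} (hθ0 : 0 ≤ θ) (hθ : θ ≤ q) (c : ℝ) {δ : ℝ}
    (hδ : 0 < δ) :
    ∃ C : ℝ, ∀ B : ℝ, 1 ≤ B →
      ((Bad L S θ c B).ncard : ℝ) ≤ C * B ^ (max (3 - ((q : ℝ) - θ)) 2 + δ) := by
  obtain ⟨Θ, H, g⟩ := gp_exists hq hL
  set κ : ℝ := (q : ℝ) - θ with hκ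
  have hκ0 : 0 ≤ κ := by rw [hκ]; linarith
  set κ' := min κ 1 with hκ'
  have hκ'0 : 0 ≤ κ' := le_min hκ0 zero_le_one
  have hκ'1 : κ' ≤ 1 := min_le_right _ _
  have hexp : 3 - κ' = max (3 - κ) 2 := by
    rw [hκ']
    rcases le_total κ 1 with h | h
    · rw [min_eq_left h, max_eq_left (by linarith)]
    · rw [min_eq_right h, max_eq_right (by linarith)]
      norm_num
  obtain ⟨Cc, hCc1, hCc⟩ := rd_of_viol g S θ c hθ0
  obtain ⟨C, hC0, hC⟩ := upper g hκ'0 hκ'1 hCc1 hδ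
  refine ⟨C, fun B hB => ?_⟩
  have hfin := bad_finite (L := L) S θ c B hB
  have hB1 : 1 ≤ ⌊B⌋₊ := Nat.le_floor (by exact_mod_cast hB)
  rw [Set.ncard_eq_toFinset_card _ hfin]
  have h1 := hC ⌊B⌋₊ hB1 hfin.toFinset (by
    intro x hx
    rw [Set.Finite.mem_toFinset] at hx
    obtain ⟨h2, h3⟩ := bad_sub S θ c B hB hx
    obtain ⟨-, h5, -, h6⟩ := hx
    have h7 : ∀ l, dot x (L l) ≠ 0 := fun l => by
      have := h5 l
      rwa [form_eq] at this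
    refine ⟨h2, h3, h7, ?_⟩
    have h8 := hCc x h2 h7 (by simpa only [form_eq] using h6)
    refine h8.trans (mul_le_mul_of_nonneg_left ?_ (by linarith))
    refine Real.rpow_le_rpow_of_exponent_le (by exact_mod_cast nm_pos h2.1) ?_
    have := min_le_left κ 1
    rw [hκ'] at *
    linarith)
  refine h1.trans ?_
  rw [hexp]
  refine mul_le_mul_of_nonneg_left ?_ hC0.le
  refine Real.rpow_le_rpow (Nat.cast_nonneg _) (Nat.floor_le (by linarith)) ?_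
  have := le_max_right (3 - κ) 2
  linarith

end Pool.Agent.K4H9.PS
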