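import Pool.Agent.K4H9.PP.Sum

set_option autoImplicit false

/-!
The stronger form of the lemma on divisibility by squares, for vectors off the double points.
-/

namespace Pool.Agent.K4H9.PS

open Finset Pool.Agent.K4H9.PP

variable {q : ℕ} {ℓ : Fin q → Fin 3 → ℤ} {Θ H : ℕ}

/-- a vector orthogonal to two forms -/
lemma perp_two {P a b Y : Fin 3 → ℤ} (hP : P ≠ 0) (ha : dot a P = 0) (hb : dot b P = 0)
    (hY : dot Y P = 0) : dt Y a b = 0 := by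
  obtain ⟨k, hk⟩ : ∃ k, P k ≠ 0 := by
    by_contra hcon
    push Not at hcon
    exact hP (funext hcon)
  have h1 := cramer Y a b P k
  rw [hY, ha, hb] at h1
  simp only [zero_mul, add_zero] at h1
  exact (mul_eq_zero.1 h1).resolve_left hk

/-- the fibre -/
lemma fibB' (g : GP ℓ Θ H) {Z : ℕ} (hZ : 1 ≤ Z) (t : Fin q → ℕ)
    (hsq : Squarefree (∏ l, t l)) (hco : (∏ l, t l).Coprime Θ)
    (h3 : ∃ i j k, i ≠ j ∧ i ≠ k ∧ j ≠ k ∧ t i ≠ 1 ∧ t j ≠ 1 ∧ t k ≠ 1)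
    (T : Finset (Fin 3 → ℤ)) (hTne : T.Nonempty) (hT : ∀ Y ∈ T, Cont 1 Y ∧ (∀ k, |Y k| ≤ Z) ∧
      (∀ i j, i ≠ j → dt Y (ℓ i) (ℓ j) ≠ 0) ∧ (∀ l, cr Y (ℓ l) ≠ 0) ∧
      (∀ l, ∀ p : ℕ, p.Prime → p ∣ t l → ∀ k, (p : ℤ) ^ 2 ∣ cr Y (ℓ l) k)) :
    T.card ≤ 2 ∨ T.card * (∏ l, t l) ^ 4 ≤ 729 * Z ^ 3 ∨
    ∃ N : ℕ, 1 ≤ N ∧ T.card * ((∏ l, t l) ^ 2 * N) ≤ 729 * Z ^ 2 ∧
      (∏ l, t l).minFac ^ 2 ≤ 3 * H * N ∧ (∏ l, t l) ^ 2 ≤ 2 * H * Z * (3 * H * N) ^ q := by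
  classical
  set s := ∏ l, t l with hs
  have hs0 : s ≠ 0 := hsq.ne_zero
  have hH := g.H1
  have hnd : ∀ p : ℕ, p.Prime → p ∣ s → ¬ p ∣ Θ := by
    intro p hp h h'
    exact hp.one_lt.ne' (Nat.dvd_one.1 (hco ▸ Nat.dvd_gcd h h'))
  have hspan : ∀ l, ∀ p : ℕ, p.Prime → p ∣ t l → ∀ x ∈ Submodule.span ℤ (T : Set (Fin 3 → ℤ)),
      ∀ k, (p : ℤ) ^ 2 ∣ cr x (ℓ l) k := by
    intro l p hp hpt
    exact span_cr (T := (T : Set (Fin 3 → ℤ))) (ℓ := ℓ l) (m := (p : ℤ) ^ 2)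
      fun Y hY => (hT Y hY).2.2.2.2 l p hp hpt
  have hps : ∀ p : ℕ, p.Prime → p ∣ s → ∃ l, p ∣ t l := by
    intro p hp hps
    obtain ⟨l, -, hl⟩ := (hp.prime.dvd_finsetProd_iff _).1 hps
    exact ⟨l, hl⟩
  have htl : ∀ l, t l ∣ s := fun l => Finset.dvd_prod_of_mem t (mem_univ l)
  rcases tri T (fun _ => Z) (fun _ => hZ) (fun z hz k => (hT z hz).2.1 k) with h | h | h
  · left
    exact par_card (le_refl 1) T (fun z hz => (hT z hz).1) h
  · right; right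
    obtain ⟨v, w, hv, hw, hV, hperp, hcard⟩ := h
    have hdiv : ∀ k, (s : ℤ) ^ 2 ∣ cr v w k := by
      intro k
      refine sqf_dvd hsq 2 fun p hp hpab => ?_
      have hpΘ := hnd p hp hpab
      obtain ⟨l, hl⟩ := hps p hp hpab
      obtain ⟨k', hk'⟩ := g.exists_l hpΘ l
      exact dvd_cancel hp hk' 2 2 (cr_dvd (hspan l p hp hl v hv) (hspan l p hp hl w hw) k' k)
    choose P hP using hdiv
    have hs2 : ((s : ℤ) ^ 2) ≠ 0 := by positivity
    have hP0 : P ≠ 0 := by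
      rintro rfl
      apply hV
      funext k
      rw [hP k]
      simp
    have hYP : ∀ Y ∈ T, dot Y P = 0 := by
      intro Y hY
      have h1 := hperp Y hY
      have h2 : dot Y (cr v w) = (s : ℤ) ^ 2 * dot Y P := by
        unfold dot
        rw [hP 0, hP 1, hP 2]
        ring
      rw [h2] at h1
      exact (mul_eq_zero.1 h1).resolve_left hs2
    have h6 : ∀ l, ∀ p : ℕ, p.Prime → p ∣ t l → (p : ℤ) ^ 2 ∣ dot (ℓ l) P := by
      intro l p hp hpt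
      have hpsd : p ∣ s := hpt.trans (htl l)
      have hpΘ := hnd p hp hpsd
      obtain ⟨k', hk'⟩ := g.exists_l hpΘ l
      have h4 : ((p : ℤ) ^ 2) ^ 2 ∣ dt (ℓ l) v w := by
        have := dt_dvd (hspan l p hp hpt v hv) (hspan l p hp hpt w hw) k'
        rw [← pow_mul] at this ⊢
        exact dvd_cancel hp hk' _ 2 this
      have h5 : dt (ℓ l) v w = (s : ℤ) ^ 2 * dot (ℓ l) P := by
        unfold dt dot
        rw [hP 0, hP 1, hP 2]
        ring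
      obtain ⟨r, hr⟩ := hpsd
      have hpr : ¬ p ∣ r := by
        intro hpr
        have : p * p ∣ s := by
          rw [hr]
          exact Nat.mul_dvd_mul_left p hpr
        exact hp.one_lt.ne' (Nat.isUnit_iff.1 (hsq p this))
      rw [h5, hr] at h4
      have h7 : (p : ℤ) ^ 2 ∣ (r : ℤ) ^ 2 * dot (ℓ l) P := by
        have hp0 : ((p : ℤ) ^ 2) ≠ 0 := by
          have := hp.pos
          positivity
        obtain ⟨e, he⟩ := h4
        refine ⟨e, mul_left_cancel₀ hp0 ?_⟩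
        push_cast at he
        linear_combination he
      refine dvd_cancel hp (a := (r : ℤ)) ?_ 2 2 h7
      intro h8
      exact hpr (by exact_mod_cast h8)
    have hsize : ∀ l, |dot (ℓ l) P| ≤ 3 * H * nm P := by
      intro l
      unfold dot
      have hb := fun k => mul_le_mul (g.bd l k) (abs_le_nm P k) (abs_nonneg _)
        (Int.natCast_nonneg H)
      calc |ℓ l 0 * P 0 + ℓ l 1 * P 1 + ℓ l 2 * P 2| ≤
            |ℓ l 0 * P 0| + |ℓ l 1 * P 1| + |ℓ l 2 * P 2| := abs_add_three _ _ _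
        _ = |ℓ l 0| * |P 0| + |ℓ l 1| * |P 1| + |ℓ l 2| * |P 2| := by
            rw [abs_mul, abs_mul, abs_mul]
        _ ≤ H * nm P + H * nm P + H * nm P := add_le_add (add_le_add (hb 0) (hb 1)) (hb 2)
        _ = _ := by ring
    have htsq : ∀ l, Squarefree (t l) := fun l => hsq.squarefree_of_dvd (htl l)
    have htle : ∀ l, dot (ℓ l) P ≠ 0 → (t l) ^ 2 ≤ 3 * H * nm P := by
      intro l hl
      have h7 : ((t l : ℕ) : ℤ) ^ 2 ∣ dot (ℓ l) P := sqf_dvd (htsq l) 2 (h6 l)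
      have h8 : ((t l : ℕ) : ℤ) ^ 2 ≤ |dot (ℓ l) P| := by
        have : |(((t l : ℕ) : ℤ) ^ 2)| ≤ |dot (ℓ l) P| := Int.le_of_dvd (abs_pos.2 hl)
          ((abs_dvd_abs _ _).2 h7)
        rwa [abs_of_nonneg (by positivity)] at this
      exact_mod_cast h8.trans (hsize l)
    obtain ⟨Y₀, hY₀⟩ := hTne
    have htwo : ∀ i j, i ≠ j → dot (ℓ i) P = 0 → dot (ℓ j) P ≠ 0 := by
      intro i j hij hi hj
      exact (hT Y₀ hY₀).2.2.1 i j hij (perp_two hP0 hi hj (hYP Y₀ hY₀))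
    have hNpos : 1 ≤ nm P := nm_pos hP0
    have h3HN : 1 ≤ 3 * H * nm P := by
      have : 0 < 3 * H * nm P := by positivity
      exact this
    refine ⟨nm P, hNpos, ?_, ?_, ?_⟩
    · obtain ⟨k, hk⟩ := exists_nm P
      have h8 := hcard k
      rw [Fin.prod_univ_three, hP k, Int.natAbs_mul, hk, Int.natAbs_pow, Int.natAbs_natCast] at h8
      have h9 : T.card * (s ^ 2 * nm P) * Z ≤ (729 * Z ^ 2) * Z := by
        calc T.card * (s ^ 2 * nm P) * Z ≤ 729 * (Z * Z * Z) := h8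
          _ = _ := by ring
      exact Nat.le_of_mul_le_mul_right h9 hZ
    · obtain ⟨i, j, k, hij, hik, hjk, hi, hj, hk⟩ := h3
      obtain ⟨l, hl1, hlP⟩ : ∃ l, t l ≠ 1 ∧ dot (ℓ l) P ≠ 0 := by
        by_cases h0 : dot (ℓ i) P = 0
        · exact ⟨j, hj, htwo i j hij h0⟩
        · exact ⟨i, hi, h0⟩
      have h7 : s.minFac ≤ t l := by
        obtain ⟨p, hp, hpt⟩ := Nat.exists_prime_and_dvd hl1
        have h8 : s.minFac ≤ p := Nat.minFac_le_of_dvd hp.two_le (hpt.trans (htl l))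
        exact h8.trans (Nat.le_of_dvd (Nat.pos_of_ne_zero (htsq l).ne_zero) hpt)
      exact (Nat.pow_le_pow_left h7 2).trans (htle l hlP)
    · rw [hs, ← Finset.prod_pow]
      have h2HZ : 1 ≤ 2 * H * Z := by
        have : 0 < 2 * H * Z := by positivity
        exact this
      by_cases hex : ∃ i, dot (ℓ i) P = 0
      · obtain ⟨i, hi⟩ := hex
        rw [← Finset.mul_prod_erase univ _ (mem_univ i)]
        have h7 : (t i) ^ 2 ≤ 2 * H * Z :=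
          single g (hT Y₀ hY₀).2.1 ((hT Y₀ hY₀).2.2.2.1 i) (htsq i)
            ((hT Y₀ hY₀).2.2.2.2 i)
        refine Nat.mul_le_mul h7 ?_
        calc ∏ x ∈ univ.erase i, t x ^ 2 ≤ ∏ x ∈ univ.erase i, 3 * H * nm P := by
              refine Finset.prod_le_prod' fun x hx => ?_
              exact htle x (htwo i x (mem_erase.1 hx).1.symm hi)
          _ = (3 * H * nm P) ^ (q - 1) := by
              rw [Finset.prod_const, Finset.card_erase_of_mem (mem_univ i), Finset.card_univ,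
                Fintype.card_fin]
          _ ≤ (3 * H * nm P) ^ q := Nat.pow_le_pow_right h3HN (by omega)
      · push Not at hex
        calc ∏ x, t x ^ 2 ≤ ∏ _x : Fin q, 3 * H * nm P :=
              Finset.prod_le_prod' fun x _ => htle x (hex x)
          _ = (3 * H * nm P) ^ q := by
              rw [Finset.prod_const, Finset.card_univ, Fintype.card_fin]
          _ ≤ 2 * H * Z * (3 * H * nm P) ^ q := Nat.le_mul_of_pos_left _ h2HZ
  · right; left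
    obtain ⟨u, v, w, hu, hv, hw, hD, hcard⟩ := h
    have hdiv : (s : ℤ) ^ 4 ∣ dt u v w := by
      refine sqf_dvd hsq 4 fun p hp hpab => ?_
      have hpΘ := hnd p hp hpab
      obtain ⟨l, hl⟩ := hps p hp hpab
      obtain ⟨k', hk'⟩ := g.exists_l hpΘ l
      have := dt_dvd3 (hspan l p hp hl u hu) (hspan l p hp hl v hv) (hspan l p hp hl w hw) k'
      rw [← pow_mul] at this
      exact dvd_cancel hp hk' _ 3 this
    have h1 : s ^ 4 ≤ (dt u v w).natAbs := by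
      have h4 : s ^ 4 ∣ (dt u v w).natAbs := by
        rw [← Int.natCast_dvd]
        exact_mod_cast hdiv
      exact Nat.le_of_dvd (by omega) h4
    rw [Fin.prod_univ_three] at hcard
    calc T.card * s ^ 4 ≤ T.card * (dt u v w).natAbs := by gcongr
      _ ≤ 729 * (Z * Z * Z) := hcard
      _ = 729 * Z ^ 3 := by ring

/-- the reduction to a divisor of suitable size -/
lemma exists_key (g : GP ℓ Θ H) {Z T₀ : ℕ} (hN1 : 6 * H ^ 2 * Z < T₀ ^ 2)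
    (hN2 : (6 * H ^ 2 * Z) ^ 3 < T₀ ^ 4) {Y : Fin 3 → ℤ}
    (hY2 : ∀ k, |Y k| ≤ Z) (h0 : ∀ i j, i ≠ j → dt Y (ℓ i) (ℓ j) ≠ 0) {s : ℕ}
    (hs1 : Squarefree s) (hs2 : s.Coprime Θ) (hs3 : T₀ < s)
    (hs4 : ∀ p : ℕ, p.Prime → p ∣ s → ∃ l, ∀ k, (p : ℤ) ^ 2 ∣ cr Y (ℓ l) k) :
    ∃ t : Fin q → ℕ, Squarefree (∏ l, t l) ∧ (∏ l, t l).Coprime Θ ∧
      ∏ l, t l ≤ T₀ ∧ T₀ < (∏ l, t l) * (∏ l, t l).minFac ∧
      T₀ ^ 4 ≤ (6 * H ^ 2 * Z) * (∏ l, t l) ^ 4 ∧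
      (∃ i j k, i ≠ j ∧ i ≠ k ∧ j ≠ k ∧ t i ≠ 1 ∧ t j ≠ 1 ∧ t k ≠ 1) ∧
      (∀ l, ∀ p : ℕ, p.Prime → p ∣ t l → ∀ k, (p : ℤ) ^ 2 ∣ cr Y (ℓ l) k) := by
  classical
  have hs0 := hs1.ne_zero
  have hT₀ : 1 ≤ T₀ := by
    by_contra h
    have : T₀ = 0 := by omega
    subst this
    simp at hN1
  have hne : (s.divisors.filter fun d => T₀ < d).Nonempty :=
    ⟨s, by rw [mem_filter, Nat.mem_divisors]; exact ⟨⟨dvd_rfl, hs0⟩, hs3⟩⟩
  obtain ⟨s', hs'mem, hs'min⟩ := Finset.exists_min_image _ (fun d => d) hne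
  rw [mem_filter, Nat.mem_divisors] at hs'mem
  obtain ⟨⟨hs's, -⟩, hs'Z⟩ := hs'mem
  have hs'sq : Squarefree s' := hs1.squarefree_of_dvd hs's
  have hs'1 : s' ≠ 1 := by
    rintro rfl
    omega
  set p₀ := s'.minFac with hp₀
  have hp₀p : p₀.Prime := Nat.minFac_prime hs'1
  obtain ⟨s₀, hs₀⟩ : p₀ ∣ s' := Nat.minFac_dvd s'
  have hs₀s : s₀ ∣ s := (Dvd.intro_left _ hs₀.symm).trans hs's
  have hs₀0 : s₀ ≠ 0 := by
    rintro rfl
    exact hs'sq.ne_zero (by rw [hs₀, mul_zero])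
  have hs₀Z : s₀ ≤ T₀ := by
    by_contra hcon
    push Not at hcon
    have h1 := hs'min s₀ (by
      rw [mem_filter, Nat.mem_divisors]
      exact ⟨⟨hs₀s, hs0⟩, hcon⟩)
    rw [hs₀] at h1
    have h2 := hp₀p.two_le
    have h3 : 1 ≤ s₀ := Nat.pos_of_ne_zero hs₀0
    nlinarith
  have hs₀sq : Squarefree s₀ := hs1.squarefree_of_dvd hs₀s
  have hp₀s₀ : ¬ p₀ ∣ s₀ := by
    intro h1
    have : p₀ * p₀ ∣ s' := by
      rw [hs₀]
      exact Nat.mul_dvd_mul_left p₀ h1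
    exact hp₀p.one_lt.ne' (Nat.isUnit_iff.1 (hs'sq p₀ this))
  have hpair : ∀ p p' : ℕ, p.Prime → p'.Prime → p ∣ s → p' ∣ s → Squarefree (p * p') →
      (p * p') ^ 2 ≤ 6 * H ^ 2 * Z := by
    intro p p' hp hp' hps hp's hsq
    obtain ⟨l, hl⟩ := hs4 p hp hps
    obtain ⟨l', hl'⟩ := hs4 p' hp' hp's
    by_cases hll : l = l'
    · obtain ⟨j, hj⟩ : ∃ j : Fin q, j ≠ l := by
        have : Nontrivial (Fin q) := Fin.nontrivial_iff_two_le.2 (by have := g.q3; omega)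
        exact exists_ne l
      refine pairP g hY2 (h0 l j hj.symm) hsq fun r hr hrd => Or.inl ?_
      rcases (hr.dvd_mul).1 hrd with h1 | h1
      · rw [(Nat.prime_dvd_prime_iff_eq hr hp).1 h1]; exact hl
      · rw [(Nat.prime_dvd_prime_iff_eq hr hp').1 h1, hll]; exact hl'
    · refine pairP g hY2 (h0 l l' hll) hsq fun r hr hrd => ?_
      rcases (hr.dvd_mul).1 hrd with h1 | h1
      · left; rw [(Nat.prime_dvd_prime_iff_eq hr hp).1 h1]; exact hl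
      · right; rw [(Nat.prime_dvd_prime_iff_eq hr hp').1 h1]; exact hl'
  have hp₀s : p₀ ∣ s := (Nat.minFac_dvd s').trans hs's
  have hs₀1 : s₀ ≠ 1 := by
    rintro rfl
    rw [mul_one] at hs₀
    obtain ⟨l, hl⟩ := hs4 p₀ hp₀p hp₀s
    obtain ⟨j, hj⟩ : ∃ j : Fin q, j ≠ l := by
      have : Nontrivial (Fin q) := Fin.nontrivial_iff_two_le.2 (by have := g.q3; omega)
      exact exists_ne l
    have h1 : p₀ ^ 2 ≤ 6 * H ^ 2 * Z := by
      refine pairP g hY2 (h0 l j hj.symm) hp₀p.prime.squarefree fun r hr hrd => Or.inl ?_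
      rw [(Nat.prime_dvd_prime_iff_eq hr hp₀p).1 hrd]; exact hl
    have h2 : T₀ ^ 2 < p₀ ^ 2 := Nat.pow_lt_pow_left (by rw [← hs₀]; exact hs'Z) (by norm_num)
    omega
  set p₁ := s₀.minFac with hp₁
  have hp₁p : p₁.Prime := Nat.minFac_prime hs₀1
  have hp₁s₀ : p₁ ∣ s₀ := Nat.minFac_dvd s₀
  have hp₀₁ : p₀ ≤ p₁ := Nat.minFac_le_of_dvd hp₁p.two_le (hp₁s₀.trans (Dvd.intro_left _ hs₀.symm))
  have hne01 : p₀ ≠ p₁ := by
    intro h1
    exact hp₀s₀ (h1 ▸ hp₁s₀)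
  have hsq01 : Squarefree (p₀ * p₁) := by
    rw [Nat.squarefree_mul ((Nat.coprime_primes hp₀p hp₁p).2 hne01)]
    exact ⟨hp₀p.prime.squarefree, hp₁p.prime.squarefree⟩
  have h4 : p₀ ^ 4 ≤ 6 * H ^ 2 * Z := by
    calc p₀ ^ 4 = (p₀ * p₀) ^ 2 := by ring
      _ ≤ (p₀ * p₁) ^ 2 := by gcongr
      _ ≤ _ := hpair p₀ p₁ hp₀p hp₁p hp₀s (hp₁s₀.trans hs₀s) hsq01
  have hB2 : T₀ ^ 4 ≤ (6 * H ^ 2 * Z) * s₀ ^ 4 := by
    calc T₀ ^ 4 ≤ s' ^ 4 := Nat.pow_le_pow_left hs'Z.le 4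
      _ = p₀ ^ 4 * s₀ ^ 4 := by rw [hs₀]; ring
      _ ≤ _ := by gcongr
  obtain ⟨t, ht1, ht2⟩ := exists_tup (by have := g.q3; omega) hs₀sq
    fun p hp hps => hs4 p hp (hps.trans hs₀s)
  refine ⟨t, ht1 ▸ hs₀sq, ?_, ?_, ?_, ?_, ?_, ht2⟩
  · rw [ht1]
    exact Nat.Coprime.coprime_dvd_left hs₀s hs2
  · rw [ht1]
    exact hs₀Z
  · rw [ht1]
    calc T₀ < s' := hs'Z
      _ = s₀ * p₀ := by rw [hs₀]; ring
      _ ≤ s₀ * p₁ := by gcongr
  · rw [ht1]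
    exact hB2
  · by_contra hcon
    have hcard : (univ.filter fun l => t l ≠ 1).card ≤ 2 := by
      by_contra h5
      push Not at h5
      obtain ⟨i, j, k, hi, hj, hk, hij, hik, hjk⟩ := Finset.two_lt_card_iff.1 h5
      apply hcon
      rw [mem_filter] at hi hj hk
      exact ⟨i, j, k, hij, hik, hjk, hi.2, hj.2, hk.2⟩
    obtain ⟨i, j, hij, hsub⟩ : ∃ i j : Fin q, i ≠ j ∧ (univ.filter fun l => t l ≠ 1) ⊆ {i, j} := by
      obtain ⟨u, hu1, hu2⟩ : ∃ u : Finset (Fin q), (univ.filter fun l => t l ≠ 1) ⊆ u ∧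
          u.card = 2 := by
        obtain ⟨u, hu1, -, hu2⟩ := Finset.exists_subsuperset_card_eq
          (subset_univ (univ.filter fun l => t l ≠ 1)) hcard (by
            rw [Finset.card_univ, Fintype.card_fin]; have := g.q3; omega)
        exact ⟨u, hu1, hu2⟩
      obtain ⟨i, j, hij, rfl⟩ := Finset.card_eq_two.1 hu2
      exact ⟨i, j, hij, hu1⟩
    have h5 : s₀ ^ 2 ≤ 6 * H ^ 2 * Z := by
      refine pairP g hY2 (h0 i j hij) hs₀sq fun p hp hps => ?_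
      rw [← ht1] at hps
      obtain ⟨l, -, hl⟩ := (hp.prime.dvd_finsetProd_iff _).1 hps
      have hl1 : t l ≠ 1 := by
        intro h6
        rw [h6] at hl
        exact hp.one_lt.ne' (Nat.dvd_one.1 hl)
      have h7 := hsub (mem_filter.2 ⟨mem_univ l, hl1⟩)
      rw [mem_insert, mem_singleton] at h7
      rcases h7 with rfl | rfl
      · exact Or.inl (ht2 _ p hp hl)
      · exact Or.inr (ht2 _ p hp hl)
    have h6 : T₀ ^ 4 ≤ (6 * H ^ 2 * Z) ^ 3 := by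
      calc T₀ ^ 4 ≤ (6 * H ^ 2 * Z) * s₀ ^ 4 := hB2
        _ = (6 * H ^ 2 * Z) * (s₀ ^ 2) ^ 2 := by ring
        _ ≤ (6 * H ^ 2 * Z) * (6 * H ^ 2 * Z) ^ 2 := by gcongr
        _ = _ := by ring
    omega

end Pool.Agent.K4H9.PS
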