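import Pool.Agent.K4H9.PS.G2

set_option autoImplicit false

/-!
The number of vectors off the double points whose cross products with the lines are divisible by
squares with a large product.
-/

namespace Pool.Agent.K4H9.PS

open Finset Pool.Agent.K4H9.PP

variable {q : ℕ} {ℓ : Fin q → Fin 3 → ℤ} {Θ H : ℕ}

lemma harm {ε : ℝ} (hε : 0 < ε) {W : ℕ} (hW : 1 ≤ W) :
    ∑ n ∈ Icc 1 W, (1 / (n : ℝ)) ≤ (1 + 1 / ε) * (W : ℝ) ^ ε := by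
  have hW1 : (1 : ℝ) ≤ W := by exact_mod_cast hW
  have hW0 : (0 : ℝ) < W := by linarith
  have hWe : (1 : ℝ) ≤ (W : ℝ) ^ ε := Real.one_le_rpow hW1 hε.le
  have e1 := harmonic_le_one_add_log W
  rw [harmonic_eq_sum_Icc] at e1
  push_cast at e1
  have e2 : Real.log W ≤ (W : ℝ) ^ ε / ε := Real.log_le_rpow_div hW0.le hε
  have e3 : (W : ℝ) ^ ε / ε = 1 / ε * (W : ℝ) ^ ε := by ring
  have e4 : ∑ n ∈ Icc 1 W, (1 / (n : ℝ)) = ∑ n ∈ Icc 1 W, ((n : ℝ))⁻¹ :=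
    Finset.sum_congr rfl fun i _ => by rw [one_div]
  rw [e4]
  linarith

lemma sum_inv_tuple (q : ℕ) {ε : ℝ} (hε : 0 < ε) : ∃ C : ℝ, 0 < C ∧ ∀ Z : ℕ, 1 ≤ Z →
    ∀ T : Finset (Fin q → ℕ), (∀ t ∈ T, 1 ≤ ∏ l, t l ∧ ∏ l, t l ≤ Z) →
      ∑ t ∈ T, 1 / ((∏ l, t l : ℕ) : ℝ) ≤ C * (Z : ℝ) ^ ε := by
  classical
  have hε2 : 0 < ε / 2 := half_pos hε
  obtain ⟨C, hC0, hC⟩ := card_tuples_eq q hε2
  refine ⟨C * (1 + 1 / (ε / 2)), by positivity, fun Z hZ T hT => ?_⟩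
  have hZ1 : (1 : ℝ) ≤ Z := by exact_mod_cast hZ
  have hZ0 : (0 : ℝ) < Z := by linarith
  have hmaps : ∀ t ∈ T, ∏ l, t l ∈ Icc 1 Z := fun t ht => mem_Icc.2 (hT t ht)
  rw [← Finset.sum_fiberwise_of_maps_to hmaps]
  calc _ ≤ ∑ n ∈ Icc 1 Z, C * (Z : ℝ) ^ (ε / 2) * (1 / (n : ℝ)) := by
        refine Finset.sum_le_sum fun n hn => ?_
        rw [mem_Icc] at hn
        have h1 : ∑ t ∈ T with ∏ l, t l = n, 1 / ((∏ l, t l : ℕ) : ℝ) =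
            ((T.filter fun t => ∏ l, t l = n).card : ℝ) * (1 / (n : ℝ)) := by
          rw [← nsmul_eq_mul, ← Finset.sum_const]
          refine Finset.sum_congr rfl fun t ht => ?_
          rw [(mem_filter.1 ht).2]
        rw [h1]
        refine mul_le_mul_of_nonneg_right ?_ (by positivity)
        refine (hC n hn.1 _ fun t ht l => ?_).trans ?_
        · rw [mem_filter] at ht
          rw [← ht.2]
          exact Finset.dvd_prod_of_mem _ (mem_univ l)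
        · refine mul_le_mul_of_nonneg_left ?_ hC0.le
          refine Real.rpow_le_rpow (Nat.cast_nonneg _) ?_ hε2.le
          exact_mod_cast hn.2
    _ = C * (Z : ℝ) ^ (ε / 2) * ∑ n ∈ Icc 1 Z, (1 / (n : ℝ)) := by rw [Finset.mul_sum]
    _ ≤ C * (Z : ℝ) ^ (ε / 2) * ((1 + 1 / (ε / 2)) * (Z : ℝ) ^ (ε / 2)) :=
        mul_le_mul_of_nonneg_left (harm hε2 hZ) (by positivity)
    _ = C * (1 + 1 / (ε / 2)) * ((Z : ℝ) ^ (ε / 2) * (Z : ℝ) ^ (ε / 2)) := by ring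
    _ = _ := by rw [← Real.rpow_add hZ0, add_halves]

lemma box_card {Z : ℕ} (T : Finset (Fin 3 → ℤ)) (hT : ∀ z ∈ T, ∀ k, |z k| ≤ Z) :
    T.card ≤ (2 * Z + 1) ^ 3 := by
  classical
  have h2 : T ⊆ Fintype.piFinset fun _ : Fin 3 => Finset.Icc (-(Z : ℤ)) (Z : ℤ) := by
    intro z hz
    rw [Fintype.mem_piFinset]
    intro s
    rw [Finset.mem_Icc]
    exact abs_le.1 (hT z hz s)
  have h3 := Finset.card_le_card h2
  rw [Fintype.card_piFinset_const, Int.card_Icc] at h3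
  refine h3.trans (le_of_eq ?_)
  congr 1
  omega

/-- one fibre, as an inequality of real numbers -/
lemma fib_real {x d T₀ Z N q : ℕ} (hH : 1 ≤ H) {δ w : ℝ} (hZ : 1 ≤ Z) (hw : w = (Z : ℝ) ^ (1 - δ))
    (hδ0 : 0 < δ) (hδ1 : 16 * δ ≤ 1) (hδ2 : (4 * ((q : ℝ) + 1) + 2) * δ ≤ 1) (hd : 1 ≤ d)
    (hT1 : (T₀ : ℝ) ≤ w) (hT2 : w ≤ 2 * T₀) (hdT : d ≤ T₀) (hmin : T₀ < d * d.minFac)
    (h4 : T₀ ^ 4 ≤ (6 * H ^ 2 * Z) * d ^ 4)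
    (h : x ≤ 2 ∨ x * d ^ 4 ≤ 729 * Z ^ 3 ∨ (1 ≤ N ∧ x * (d ^ 2 * N) ≤ 729 * Z ^ 2 ∧
      d.minFac ^ 2 ≤ 3 * H * N ∧ d ^ 2 ≤ 2 * H * Z * (3 * H * N) ^ q)) :
    (x : ℝ) ≤ (729 * 288 * H ^ 2) * w * (1 / (d : ℝ)) := by
  have hZ1 : (1 : ℝ) ≤ Z := by exact_mod_cast hZ
  have hZ0 : (0 : ℝ) < Z := by linarith
  have hd0 : (0 : ℝ) < d := by exact_mod_cast hd
  have hH1 : (1 : ℝ) ≤ H := by exact_mod_cast hH
  have hw0 : 0 < w := by rw [hw]; positivity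
  have hx0 : (0 : ℝ) ≤ x := Nat.cast_nonneg x
  have hT0 : (0 : ℝ) ≤ T₀ := Nat.cast_nonneg _
  have hdw : (d : ℝ) ≤ w := le_trans (by exact_mod_cast hdT) hT1
  rw [mul_one_div, le_div_iff₀ hd0]
  rcases h with h | h | ⟨hN, h1, h2, h3⟩
  · have h1 : (x : ℝ) ≤ 2 := by exact_mod_cast h
    calc (x : ℝ) * d ≤ 2 * w := mul_le_mul h1 hdw hd0.le (by norm_num)
      _ ≤ _ := by
          refine mul_le_mul_of_nonneg_right ?_ hw0.le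
          nlinarith
  · have h1 : (x : ℝ) * d ^ 4 ≤ 729 * (Z : ℝ) ^ 3 := by exact_mod_cast h
    have h2 : w ^ 4 ≤ 96 * H ^ 2 * Z * (d : ℝ) ^ 4 := by
      have h5 : (T₀ : ℝ) ^ 4 ≤ (6 * H ^ 2 * Z) * (d : ℝ) ^ 4 := by exact_mod_cast h4
      calc w ^ 4 ≤ (2 * T₀) ^ 4 := pow_le_pow_left₀ hw0.le hT2 4
        _ = 16 * (T₀ : ℝ) ^ 4 := by ring
        _ ≤ 16 * ((6 * H ^ 2 * Z) * (d : ℝ) ^ 4) := by linarith
        _ = _ := by ring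
    have hwZ : (Z : ℝ) ^ 15 ≤ w ^ 16 := by
      rw [hw, ← Real.rpow_natCast (Z : ℝ) 15, ← Real.rpow_natCast _ 16, ← Real.rpow_mul hZ0.le]
      refine Real.rpow_le_rpow_of_exponent_le hZ1 ?_
      push_cast
      linarith
    have h3 : ((x : ℝ) * d) ^ 4 ≤ (729 * 96 * H ^ 2 * w) ^ 4 := by
      have e1 : ((x : ℝ) * d) ^ 4 * w ^ 12 ≤ (729 ^ 4 * (96 * H ^ 2) ^ 3) * (Z : ℝ) ^ 15 := by
        calc ((x : ℝ) * d) ^ 4 * w ^ 12 = ((x : ℝ) * d) ^ 4 * (w ^ 4) ^ 3 := by ring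
          _ ≤ ((x : ℝ) * d) ^ 4 * (96 * H ^ 2 * Z * (d : ℝ) ^ 4) ^ 3 := by gcongr
          _ = (x * (d : ℝ) ^ 4) ^ 4 * ((96 * H ^ 2) ^ 3 * (Z : ℝ) ^ 3) := by ring
          _ ≤ (729 * (Z : ℝ) ^ 3) ^ 4 * ((96 * H ^ 2) ^ 3 * (Z : ℝ) ^ 3) := by gcongr
          _ = _ := by ring
      have e2 : ((x : ℝ) * d) ^ 4 * w ^ 12 ≤ (729 ^ 4 * (96 * H ^ 2) ^ 3 * w ^ 4) * w ^ 12 := by
        calc _ ≤ _ := e1
          _ ≤ (729 ^ 4 * (96 * H ^ 2) ^ 3) * w ^ 16 := by gcongr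
          _ = _ := by ring
      have e3 := le_of_mul_le_mul_right e2 (by positivity)
      calc ((x : ℝ) * d) ^ 4 ≤ 729 ^ 4 * (96 * (H : ℝ) ^ 2) ^ 3 * w ^ 4 := e3
        _ ≤ 729 ^ 4 * (96 * (H : ℝ) ^ 2) ^ 4 * w ^ 4 := by
            have : (1 : ℝ) ≤ 96 * (H : ℝ) ^ 2 := by nlinarith
            gcongr
            norm_num
        _ = _ := by ring
    have h5 := (pow_le_pow_iff_left₀ (by positivity) (by positivity) (by norm_num : (4 : ℕ) ≠ 0)).1 h3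
    refine h5.trans ?_
    gcongr
    norm_num
  · have hN0 : (0 : ℝ) < N := by exact_mod_cast hN
    have h1' : (x : ℝ) * ((d : ℝ) ^ 2 * N) ≤ 729 * (Z : ℝ) ^ 2 := by exact_mod_cast h1
    have h3' : (d : ℝ) ^ 2 ≤ 2 * H * Z * (3 * H * N) ^ q := by exact_mod_cast h3
    have h5 : w ^ 2 ≤ 12 * H * N * (d : ℝ) ^ 2 := by
      have e1 : T₀ ^ 2 ≤ 3 * H * N * d ^ 2 := by
        calc T₀ ^ 2 ≤ (d * d.minFac) ^ 2 := Nat.pow_le_pow_left hmin.le 2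
          _ = d.minFac ^ 2 * d ^ 2 := by ring
          _ ≤ _ := Nat.mul_le_mul_right _ h2
      have e2 : (T₀ : ℝ) ^ 2 ≤ 3 * H * N * (d : ℝ) ^ 2 := by exact_mod_cast e1
      calc w ^ 2 ≤ (2 * T₀) ^ 2 := pow_le_pow_left₀ hw0.le hT2 2
        _ = 4 * (T₀ : ℝ) ^ 2 := by ring
        _ ≤ 4 * (3 * H * N * (d : ℝ) ^ 2) := by linarith
        _ = _ := by ring
    -- the lower bound for `N`
    have h6 : (Z : ℝ) ^ (4 * δ) ≤ 24 * H ^ 2 * N := by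
      have e1 : w ^ 2 ≤ (8 * H * (3 * H * N) ^ (q + 1)) * Z := by
        calc w ^ 2 ≤ 12 * H * N * (d : ℝ) ^ 2 := h5
          _ ≤ 12 * H * N * (2 * H * Z * (3 * H * N) ^ q) := by gcongr
          _ = _ := by rw [pow_succ]; ring
      have e2 : w ^ 2 = (Z : ℝ) ^ (1 - 2 * δ) * Z := by
        rw [hw, ← Real.rpow_natCast _ 2, ← Real.rpow_mul hZ0.le]
        nth_rw 3 [← Real.rpow_one (Z : ℝ)]
        rw [← Real.rpow_add hZ0]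
        congr 1
        push_cast
        ring
      rw [e2] at e1
      have e3 := le_of_mul_le_mul_right e1 hZ0
      have e4 : ((Z : ℝ) ^ (4 * δ)) ^ (q + 1) ≤ (24 * H ^ 2 * N) ^ (q + 1) := by
        calc ((Z : ℝ) ^ (4 * δ)) ^ (q + 1) = (Z : ℝ) ^ (4 * δ * ((q : ℝ) + 1)) := by
              rw [← Real.rpow_natCast _ (q + 1), ← Real.rpow_mul hZ0.le]
              push_cast
              rfl
          _ ≤ (Z : ℝ) ^ (1 - 2 * δ) := by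
              refine Real.rpow_le_rpow_of_exponent_le hZ1 ?_
              nlinarith
          _ ≤ 8 * H * (3 * H * N) ^ (q + 1) := e3
          _ ≤ (8 * H) ^ (q + 1) * (3 * H * N) ^ (q + 1) := by
              refine mul_le_mul_of_nonneg_right ?_ (by positivity)
              exact le_self_pow₀ (by linarith) (by omega)
          _ = _ := by rw [← mul_pow]; ring_nf
      exact (pow_le_pow_iff_left₀ (by positivity) (by positivity) (by omega : q + 1 ≠ 0)).1 e4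
    have h7 : ((x : ℝ) * d) ^ 2 ≤ (729 * 288 * H ^ 2 * w) ^ 2 := by
      have e1 : ((x : ℝ) * d) ^ 2 * (w ^ 2 * N) ≤ 12 * H * 729 ^ 2 * (Z : ℝ) ^ 4 := by
        calc ((x : ℝ) * d) ^ 2 * (w ^ 2 * N) ≤ ((x : ℝ) * d) ^ 2 * ((12 * H * N * (d : ℝ) ^ 2) * N) := by
              gcongr
          _ = 12 * H * (x * ((d : ℝ) ^ 2 * N)) ^ 2 := by ring
          _ ≤ 12 * H * (729 * (Z : ℝ) ^ 2) ^ 2 := by gcongr
          _ = _ := by ring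
      have e2 : (Z : ℝ) ^ 4 = w ^ 4 * (Z : ℝ) ^ (4 * δ) := by
        rw [hw, ← Real.rpow_natCast _ 4, ← Real.rpow_natCast _ 4, ← Real.rpow_mul hZ0.le,
          ← Real.rpow_add hZ0]
        congr 1
        push_cast
        ring
      have e3 : ((x : ℝ) * d) ^ 2 * (w ^ 2 * (Z : ℝ) ^ (4 * δ)) ≤
          (12 * H * 729 ^ 2 * (24 * H ^ 2) * w ^ 2) * (w ^ 2 * (Z : ℝ) ^ (4 * δ)) := by
        calc ((x : ℝ) * d) ^ 2 * (w ^ 2 * (Z : ℝ) ^ (4 * δ)) ≤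
              ((x : ℝ) * d) ^ 2 * (w ^ 2 * (24 * H ^ 2 * N)) := by gcongr
          _ = 24 * H ^ 2 * (((x : ℝ) * d) ^ 2 * (w ^ 2 * N)) := by ring
          _ ≤ 24 * H ^ 2 * (12 * H * 729 ^ 2 * (Z : ℝ) ^ 4) := by gcongr
          _ = _ := by rw [e2]; ring
      have e4 := le_of_mul_le_mul_right e3 (by positivity)
      refine e4.trans ?_
      calc 12 * (H : ℝ) * 729 ^ 2 * (24 * H ^ 2) * w ^ 2 = 288 * 729 ^ 2 * H ^ 3 * w ^ 2 := by ring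
        _ ≤ 288 ^ 2 * 729 ^ 2 * H ^ 4 * w ^ 2 := by
            have : (H : ℝ) ^ 3 ≤ (H : ℝ) ^ 4 := pow_le_pow_right₀ hH1 (by norm_num)
            gcongr
            norm_num
        _ = _ := by ring
    exact (pow_le_pow_iff_left₀ (by positivity) (by positivity) (by norm_num : (2 : ℕ) ≠ 0)).1 h7

/-- the number of vectors -/
lemma caseB2 (g : GP ℓ Θ H) {δ : ℝ} (hδ0 : 0 < δ) (hδ1 : 16 * δ ≤ 1)
    (hδ2 : (4 * ((q : ℝ) + 1) + 2) * δ ≤ 1) {ε : ℝ} (hε : 0 < ε) :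
    ∃ C : ℝ, 0 < C ∧ ∀ Z : ℕ, 1 ≤ Z → ∀ T : Finset (Fin 3 → ℤ),
      (∀ Y ∈ T, Cont 1 Y ∧ (∀ k, |Y k| ≤ Z) ∧ (∀ l, cr Y (ℓ l) ≠ 0) ∧
        (∀ i j, i ≠ j → dt Y (ℓ i) (ℓ j) ≠ 0) ∧
        ∃ s : ℕ, Squarefree s ∧ s.Coprime Θ ∧ (Z : ℝ) ^ (1 - δ) < s ∧
          ∀ p : ℕ, p.Prime → p ∣ s → ∃ l, ∀ k, (p : ℤ) ^ 2 ∣ cr Y (ℓ l) k) →
      (T.card : ℝ) ≤ C * (Z : ℝ) ^ (1 - δ + ε) := by
  classical
  obtain ⟨C, hC0, hC⟩ := sum_inv_tuple q hε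
  have hH := g.H1
  have hH1 : (1 : ℝ) ≤ H := by exact_mod_cast hH
  set Z₀ : ℕ := (3456 * H ^ 6) ^ 2 with hZ₀
  refine ⟨(729 * 288 * H ^ 2) * C + ((2 * Z₀ + 1) ^ 3 : ℕ), by positivity, fun Z hZ T hT => ?_⟩
  have hZ1 : (1 : ℝ) ≤ Z := by exact_mod_cast hZ
  have hZ0 : (0 : ℝ) < Z := by linarith
  have hexp : (1 : ℝ) ≤ (Z : ℝ) ^ (1 - δ + ε) := Real.one_le_rpow hZ1 (by linarith)
  rcases le_or_gt Z Z₀ with hle | hgt
  · have h1 : T.card ≤ (2 * Z₀ + 1) ^ 3 := by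
      refine box_card T fun z hz k => ((hT z hz).2.1 k).trans ?_
      exact_mod_cast hle
    have h2 : (T.card : ℝ) ≤ (((2 * Z₀ + 1) ^ 3 : ℕ) : ℝ) := by exact_mod_cast h1
    have h3 : (0 : ℝ) ≤ (729 * 288 * H ^ 2) * C := by positivity
    calc (T.card : ℝ) ≤ (((2 * Z₀ + 1) ^ 3 : ℕ) : ℝ) * 1 := by linarith
      _ ≤ ((729 * 288 * H ^ 2) * C + ((2 * Z₀ + 1) ^ 3 : ℕ)) * (Z : ℝ) ^ (1 - δ + ε) := by
          refine mul_le_mul (by linarith) hexp zero_le_one (by positivity)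
  set w : ℝ := (Z : ℝ) ^ (1 - δ) with hw
  have hw1 : 1 ≤ w := Real.one_le_rpow hZ1 (by linarith)
  have hw0 : 0 < w := by linarith
  set T₀ : ℕ := ⌊w⌋₊ with hT₀
  have hT1 : (T₀ : ℝ) ≤ w := Nat.floor_le hw0.le
  have hT2 : w ≤ 2 * T₀ := by
    have h1 : w < T₀ + 1 := Nat.lt_floor_add_one w
    have h2 : (1 : ℝ) ≤ T₀ := by
      have : 1 ≤ T₀ := Nat.le_floor (by simpa using hw1)
      exact_mod_cast this
    linarith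
  have hbig : 3456 * (H : ℝ) ^ 6 < (Z : ℝ) ^ (1 / 2 : ℝ) := by
    have h1 : ((3456 * H ^ 6) ^ 2 : ℝ) < Z := by exact_mod_cast hgt
    have h2 : ((3456 * (H : ℝ) ^ 6) ^ 2) ^ (1 / 2 : ℝ) < (Z : ℝ) ^ (1 / 2 : ℝ) :=
      Real.rpow_lt_rpow (by positivity) h1 (by norm_num)
    rwa [← Real.sqrt_eq_rpow, Real.sqrt_sq (by positivity)] at h2
  have hH26 : (H : ℝ) ^ 2 ≤ (H : ℝ) ^ 6 := pow_le_pow_right₀ hH1 (by norm_num)
  have hN1 : 6 * H ^ 2 * Z < T₀ ^ 2 := by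
    have h1 : (6 * H ^ 2 * Z : ℝ) < (T₀ : ℝ) ^ 2 := by
      have e1 : w ^ 2 ≤ 4 * (T₀ : ℝ) ^ 2 := by
        calc w ^ 2 ≤ (2 * T₀) ^ 2 := pow_le_pow_left₀ hw0.le hT2 2
          _ = _ := by ring
      have e2 : (Z : ℝ) ^ (1 / 2 : ℝ) * Z ≤ w ^ 2 := by
        rw [hw, ← Real.rpow_natCast _ 2, ← Real.rpow_mul hZ0.le]
        nth_rw 2 [← Real.rpow_one (Z : ℝ)]
        rw [← Real.rpow_add hZ0]
        refine Real.rpow_le_rpow_of_exponent_le hZ1 ?_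
        push_cast
        linarith
      have e3 : 3456 * (H : ℝ) ^ 6 * Z < (Z : ℝ) ^ (1 / 2 : ℝ) * Z := by gcongr
      have e4 : 24 * (H : ℝ) ^ 2 * Z ≤ 3456 * (H : ℝ) ^ 6 * Z := by
        refine mul_le_mul_of_nonneg_right ?_ hZ0.le
        linarith [pow_pos (by linarith : (0 : ℝ) < H) 2]
      linarith
    exact_mod_cast h1
  have hN2 : (6 * H ^ 2 * Z) ^ 3 < T₀ ^ 4 := by
    have h1 : ((6 * H ^ 2 * Z) ^ 3 : ℝ) < (T₀ : ℝ) ^ 4 := by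
      have e1 : w ^ 4 ≤ 16 * (T₀ : ℝ) ^ 4 := by
        calc w ^ 4 ≤ (2 * T₀) ^ 4 := pow_le_pow_left₀ hw0.le hT2 4
          _ = _ := by ring
      have e2 : (Z : ℝ) ^ (1 / 2 : ℝ) * (Z : ℝ) ^ 3 ≤ w ^ 4 := by
        rw [hw, ← Real.rpow_natCast _ 4, ← Real.rpow_mul hZ0.le, ← Real.rpow_natCast _ 3,
          ← Real.rpow_add hZ0]
        refine Real.rpow_le_rpow_of_exponent_le hZ1 ?_
        push_cast
        linarith
      have e3 : 3456 * (H : ℝ) ^ 6 * (Z : ℝ) ^ 3 < (Z : ℝ) ^ (1 / 2 : ℝ) * (Z : ℝ) ^ 3 := by gcongr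
      have e4 : (6 * (H : ℝ) ^ 2 * Z) ^ 3 * 16 = 3456 * (H : ℝ) ^ 6 * (Z : ℝ) ^ 3 := by ring
      linarith
    exact_mod_cast h1
  have hex : ∀ Y ∈ T, ∃ t : Fin q → ℕ, Squarefree (∏ l, t l) ∧ (∏ l, t l).Coprime Θ ∧
      ∏ l, t l ≤ T₀ ∧ T₀ < (∏ l, t l) * (∏ l, t l).minFac ∧
      T₀ ^ 4 ≤ (6 * H ^ 2 * Z) * (∏ l, t l) ^ 4 ∧
      (∃ i j k, i ≠ j ∧ i ≠ k ∧ j ≠ k ∧ t i ≠ 1 ∧ t j ≠ 1 ∧ t k ≠ 1) ∧
      (∀ l, ∀ p : ℕ, p.Prime → p ∣ t l → ∀ k, (p : ℤ) ^ 2 ∣ cr Y (ℓ l) k) := by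
    intro Y hY
    obtain ⟨h1, h2, h3, h4, s, h5, h6, h7, h8⟩ := hT Y hY
    have h9 : T₀ < s := by
      have : (T₀ : ℝ) < s := hT1.trans_lt h7
      exact_mod_cast this
    exact exists_key g hN1 hN2 h2 h4 h5 h6 h9 h8
  choose! t ht using hex
  have hmaps : ∀ Y ∈ T, t Y ∈ T.image t := fun Y hY => mem_image_of_mem t hY
  have hcard : T.card = ∑ τ ∈ T.image t, (T.filter fun Y => t Y = τ).card :=
    Finset.card_eq_sum_card_fiberwise hmaps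
  have hfib : ∀ τ ∈ T.image t, ((T.filter fun Y => t Y = τ).card : ℝ) ≤
      (729 * 288 * H ^ 2) * w * (1 / ((∏ l, τ l : ℕ) : ℝ)) := by
    intro τ hτ
    obtain ⟨Y0, hY0, rfl⟩ := mem_image.1 hτ
    obtain ⟨h1, h2, h3, h4, h5, h6, -⟩ := ht Y0 hY0
    have hne : (T.filter fun Y => t Y = t Y0).Nonempty := ⟨Y0, mem_filter.2 ⟨hY0, rfl⟩⟩
    have h7 := fibB' g hZ (t Y0) h1 h2 h6 (T.filter fun Y => t Y = t Y0) hne (by
      intro Y hY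
      rw [mem_filter] at hY
      obtain ⟨hY, hYt⟩ := hY
      obtain ⟨a1, a2, a3, a4, -⟩ := hT Y hY
      obtain ⟨-, -, -, -, -, -, b1⟩ := ht Y hY
      exact ⟨a1, a2, a4, a3, hYt ▸ b1⟩)
    have hd1 : 1 ≤ ∏ l, t Y0 l := Nat.pos_of_ne_zero h1.ne_zero
    rcases h7 with h7 | h7 | ⟨N, h7, h8, h9, h10⟩
    · exact fib_real (N := 0) (q := q) hH hZ hw hδ0 hδ1 hδ2 hd1 hT1 hT2 h3 h4 h5 (Or.inl h7)
    · exact fib_real (N := 0) (q := q) hH hZ hw hδ0 hδ1 hδ2 hd1 hT1 hT2 h3 h4 h5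
        (Or.inr (Or.inl h7))
    · exact fib_real (N := N) (q := q) hH hZ hw hδ0 hδ1 hδ2 hd1 hT1 hT2 h3 h4 h5
        (Or.inr (Or.inr ⟨h7, h8, h9, h10⟩))
  have hsum := hC Z hZ (T.image t) (by
    intro τ hτ
    obtain ⟨Y0, hY0, rfl⟩ := mem_image.1 hτ
    obtain ⟨h1, -, h3, -⟩ := ht Y0 hY0
    refine ⟨Nat.pos_of_ne_zero h1.ne_zero, ?_⟩
    have h4 : (T₀ : ℝ) ≤ Z := by
      refine hT1.trans ?_
      calc w ≤ (Z : ℝ) ^ (1 : ℝ) := Real.rpow_le_rpow_of_exponent_le hZ1 (by linarith)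
        _ = Z := Real.rpow_one _
    have h5 : T₀ ≤ Z := by exact_mod_cast h4
    omega)
  rw [hcard, Nat.cast_sum]
  calc ∑ τ ∈ T.image t, ((T.filter fun Y => t Y = τ).card : ℝ) ≤
        ∑ τ ∈ T.image t, (729 * 288 * H ^ 2) * w * (1 / ((∏ l, τ l : ℕ) : ℝ)) :=
        Finset.sum_le_sum hfib
    _ = (729 * 288 * H ^ 2) * w * ∑ τ ∈ T.image t, 1 / ((∏ l, τ l : ℕ) : ℝ) := by
        rw [Finset.mul_sum]
    _ ≤ (729 * 288 * H ^ 2) * w * (C * (Z : ℝ) ^ ε) := by gcongr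
    _ = (729 * 288 * H ^ 2) * C * (Z : ℝ) ^ (1 - δ + ε) := by
        rw [hw, Real.rpow_add hZ0 (1 - δ) ε]
        ring
    _ ≤ _ := by
        refine mul_le_mul_of_nonneg_right ?_ (by positivity)
        have : (0 : ℝ) ≤ (((2 * Z₀ + 1) ^ 3 : ℕ) : ℝ) := Nat.cast_nonneg _
        linarith

end Pool.Agent.K4H9.PS
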