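import Pool.Agent.K4H9.PS.G3

set_option autoImplicit false

/-!
Sums over the vectors off the double points.
-/

namespace Pool.Agent.K4H9.PS

open Finset Pool.Agent.K4H9.PP

variable {q : ℕ} {ℓ : Fin q → Fin 3 → ℤ} {Θ H : ℕ}

/-- the property of the primitive vector -/
def Gr {q : ℕ} (ℓ : Fin q → Fin 3 → ℤ) (Θ : ℕ) (δ : ℝ) (Y : Fin 3 → ℤ) : Prop :=
  Cont 1 Y ∧ (∀ l, cr Y (ℓ l) ≠ 0) ∧ (∀ i j, i ≠ j → dt Y (ℓ i) (ℓ j) ≠ 0) ∧
    ∃ s : ℕ, Squarefree s ∧ s.Coprime Θ ∧ 2 * (nm Y : ℝ) ^ (1 - δ) < s ∧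
      ∀ p : ℕ, p.Prime → p ∣ s → ∃ l, ∀ k, (p : ℤ) ^ 2 ∣ cr Y (ℓ l) k

lemma sumY2 (g : GP ℓ Θ H) {δ : ℝ} (hδ0 : 0 < δ) (hδ1 : 16 * δ ≤ 1)
    (hδ2 : (4 * ((q : ℝ) + 1) + 2) * δ ≤ 1) {ε : ℝ} (hε : 0 < ε) :
    ∃ C : ℝ, 0 < C ∧ ∀ W : ℕ, 1 ≤ W → ∀ Z₁ : ℝ, 1 ≤ Z₁ →
    ∀ T : Finset (Fin 3 → ℤ), (∀ Y ∈ T, Gr ℓ Θ δ Y ∧ nm Y ≤ W ∧ Z₁ ≤ nm Y) →
      ∑ Y ∈ T, 1 / (nm Y : ℝ) ≤ C * (W : ℝ) ^ ε * Z₁ ^ (-δ) := by
  classical
  have hε2 : 0 < ε / 2 := half_pos hε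
  obtain ⟨C, hC0, hC⟩ := caseB2 g hδ0 hδ1 hδ2 hε2
  obtain ⟨C', hC'0, hC'⟩ := log_le_pow hε2
  refine ⟨2 * C * 2 ^ (ε / 2) * C', by positivity, fun W hW Z₁ hZ₁ T hT => ?_⟩
  have hW1 : (1 : ℝ) ≤ W := by exact_mod_cast hW
  have hW0 : (0 : ℝ) < W := by linarith
  have hZ₁0 : 0 < Z₁ := by linarith
  have hmaps : ∀ Y ∈ T, Nat.log 2 (nm Y) ∈ range (Nat.log 2 W + 1) := by
    intro Y hY
    rw [mem_range]
    have := Nat.log_mono_right (b := 2) (hT Y hY).2.1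
    omega
  rw [← Finset.sum_fiberwise_of_maps_to hmaps]
  have hterm : ∀ i ∈ range (Nat.log 2 W + 1), ∑ Y ∈ T with Nat.log 2 (nm Y) = i, 1 / (nm Y : ℝ) ≤
      2 * C * 2 ^ (ε / 2) * (W : ℝ) ^ (ε / 2) * Z₁ ^ (-δ) := by
    intro i hi
    rw [mem_range] at hi
    have h2i : (2 : ℝ) ^ i ≤ W := by
      have h1 : 2 ^ i ≤ W := (Nat.pow_le_pow_right (by norm_num) (by omega)).trans
        (Nat.pow_log_le_self 2 (by omega : W ≠ 0))
      exact_mod_cast h1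
    have hpi : (0 : ℝ) < (2 : ℝ) ^ i := by positivity
    set F := T.filter fun Y => Nat.log 2 (nm Y) = i with hF
    have hFY : ∀ Y ∈ F, 2 ^ i ≤ nm Y ∧ nm Y < 2 ^ (i + 1) ∧ Gr ℓ Θ δ Y ∧ Z₁ ≤ nm Y := by
      intro Y hY
      rw [hF, mem_filter] at hY
      have h1 : 1 ≤ nm Y := nm_pos (hT Y hY.1).1.1.1
      refine ⟨?_, ?_, (hT Y hY.1).1, (hT Y hY.1).2.2⟩
      · rw [← hY.2]
        exact Nat.pow_log_le_self 2 (by omega)
      · rw [← hY.2]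
        exact Nat.lt_pow_succ_log_self (by norm_num) _
    rcases F.eq_empty_or_nonempty with h0 | ⟨Y0, hY0⟩
    · rw [h0, Finset.sum_empty]
      positivity
    have hZ2 : Z₁ ≤ (2 : ℝ) ^ (i + 1) := by
      obtain ⟨-, h1, -, h2⟩ := hFY Y0 hY0
      have h3 : (nm Y0 : ℝ) ≤ (2 : ℝ) ^ (i + 1) := by exact_mod_cast h1.le
      exact h2.trans h3
    have h1 := hC (2 ^ (i + 1)) Nat.one_le_two_pow F (by
      intro Y hY
      obtain ⟨h2, h3, ⟨h4, h5, h5', s, h6, h7, h8, h9⟩, -⟩ := hFY Y hY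
      refine ⟨h4, fun k => ?_, h5, h5', s, h6, h7, ?_, h9⟩
      · have := abs_le_nm Y k
        refine this.trans ?_
        exact_mod_cast h3.le
      · refine lt_of_le_of_lt ?_ h8
        have e1 : (((2 ^ (i + 1) : ℕ) : ℕ) : ℝ) ≤ 2 * (nm Y : ℝ) := by
          have : 2 ^ (i + 1) ≤ 2 * nm Y := by rw [pow_succ]; omega
          exact_mod_cast this
        calc (((2 ^ (i + 1) : ℕ) : ℕ) : ℝ) ^ (1 - δ) ≤ (2 * (nm Y : ℝ)) ^ (1 - δ) :=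
              Real.rpow_le_rpow (Nat.cast_nonneg _) e1 (by linarith)
          _ = 2 ^ (1 - δ) * (nm Y : ℝ) ^ (1 - δ) := Real.mul_rpow (by norm_num) (Nat.cast_nonneg _)
          _ ≤ 2 ^ (1 : ℝ) * (nm Y : ℝ) ^ (1 - δ) := by
              refine mul_le_mul_of_nonneg_right ?_ (by positivity)
              exact Real.rpow_le_rpow_of_exponent_le (by norm_num) (by linarith)
          _ = _ := by rw [Real.rpow_one])
    calc ∑ Y ∈ F, 1 / (nm Y : ℝ) ≤ ∑ Y ∈ F, 1 / (2 : ℝ) ^ i := by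
          refine Finset.sum_le_sum fun Y hY => ?_
          refine one_div_le_one_div_of_le hpi ?_
          exact_mod_cast (hFY Y hY).1
      _ = F.card * (1 / (2 : ℝ) ^ i) := by rw [Finset.sum_const, nsmul_eq_mul]
      _ ≤ (C * ((2 ^ (i + 1) : ℕ) : ℝ) ^ (1 - δ + ε / 2)) * (1 / (2 : ℝ) ^ i) := by gcongr
      _ = 2 * C * (((2 : ℝ) ^ (i + 1)) ^ (ε / 2) * ((2 : ℝ) ^ (i + 1)) ^ (-δ)) := by
          push_cast
          have e1 : ((2 : ℝ) ^ (i + 1)) ^ (1 - δ + ε / 2) =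
              (2 : ℝ) ^ (i + 1) * (((2 : ℝ) ^ (i + 1)) ^ (ε / 2) * ((2 : ℝ) ^ (i + 1)) ^ (-δ)) := by
            rw [← Real.rpow_add (by positivity)]
            nth_rw 2 [← Real.rpow_one ((2 : ℝ) ^ (i + 1))]
            rw [← Real.rpow_add (by positivity)]
            congr 1
            ring
          rw [e1, pow_succ (2 : ℝ) i]
          field_simp
      _ ≤ 2 * C * ((2 ^ (ε / 2) * (W : ℝ) ^ (ε / 2)) * Z₁ ^ (-δ)) := by
          have e1 : ((2 : ℝ) ^ (i + 1)) ^ (ε / 2) ≤ 2 ^ (ε / 2) * (W : ℝ) ^ (ε / 2) := by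
            rw [← Real.mul_rpow (by norm_num) hW0.le]
            refine Real.rpow_le_rpow (by positivity) ?_ hε2.le
            rw [pow_succ]
            linarith
          have e2 : ((2 : ℝ) ^ (i + 1)) ^ (-δ) ≤ Z₁ ^ (-δ) :=
            Real.rpow_le_rpow_of_nonpos hZ₁0 hZ2 (by linarith)
          gcongr
      _ = _ := by ring
  calc _ ≤ ∑ i ∈ range (Nat.log 2 W + 1), 2 * C * 2 ^ (ε / 2) * (W : ℝ) ^ (ε / 2) * Z₁ ^ (-δ) :=
        Finset.sum_le_sum hterm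
    _ = ((Nat.log 2 W + 1 : ℕ) : ℝ) * (2 * C * 2 ^ (ε / 2) * (W : ℝ) ^ (ε / 2) * Z₁ ^ (-δ)) := by
        rw [Finset.sum_const, card_range, nsmul_eq_mul]
    _ ≤ (C' * (W : ℝ) ^ (ε / 2)) * (2 * C * 2 ^ (ε / 2) * (W : ℝ) ^ (ε / 2) * Z₁ ^ (-δ)) :=
        mul_le_mul_of_nonneg_right (hC' W hW) (by positivity)
    _ = 2 * C * 2 ^ (ε / 2) * C' * ((W : ℝ) ^ (ε / 2) * (W : ℝ) ^ (ε / 2)) * Z₁ ^ (-δ) := by ring
    _ = _ := by rw [← Real.rpow_add hW0, add_halves]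

/-- the sum over the pairs -/
lemma sumV2 (g : GP ℓ Θ H) {δ : ℝ} (hδ0 : 0 < δ) (hδ1 : 16 * δ ≤ 1)
    (hδ2 : (4 * ((q : ℝ) + 1) + 2) * δ ≤ 1) {ε : ℝ} (hε : 0 < ε) :
    ∃ C : ℝ, 0 < C ∧ ∀ W : ℕ, 1 ≤ W → ∀ Z₁ : ℝ, 1 ≤ Z₁ →
    ∀ T : Finset (ℕ × (Fin 3 → ℤ)), (∀ x ∈ T, 1 ≤ x.1 ∧ x.1 * nm x.2 ≤ W ∧ Gr ℓ Θ δ x.2 ∧
      Z₁ ≤ nm x.2) → ∑ x ∈ T, 1 / ((x.1 * nm x.2 : ℕ) : ℝ) ≤ C * (W : ℝ) ^ ε * Z₁ ^ (-δ) := by
  classical
  have hε2 : 0 < ε / 2 := half_pos hε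
  obtain ⟨C, hC0, hC⟩ := sumY2 g hδ0 hδ1 hδ2 hε2
  refine ⟨(1 + 1 / (ε / 2)) * C, by positivity, fun W hW Z₁ hZ₁ T hT => ?_⟩
  have hW1 : (1 : ℝ) ≤ W := by exact_mod_cast hW
  have hW0 : (0 : ℝ) < W := by linarith
  have hZ₁0 : 0 < Z₁ := by linarith
  have hnm : ∀ x ∈ T, 1 ≤ nm x.2 := fun x hx => nm_pos (hT x hx).2.2.1.1.1
  have hsub : T ⊆ Icc 1 W ×ˢ T.image Prod.snd := by
    intro x hx
    rw [mem_product, mem_Icc]
    obtain ⟨h1, h2, -⟩ := hT x hx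
    exact ⟨⟨h1, (Nat.le_mul_of_pos_right _ (hnm x hx)).trans h2⟩, mem_image_of_mem _ hx⟩
  calc ∑ x ∈ T, 1 / ((x.1 * nm x.2 : ℕ) : ℝ) =
        ∑ x ∈ T, (1 / (x.1 : ℝ)) * (1 / (nm x.2 : ℝ)) := by
        refine Finset.sum_congr rfl fun x _ => ?_
        push_cast
        rw [one_div_mul_one_div]
    _ ≤ ∑ x ∈ Icc 1 W ×ˢ T.image Prod.snd, (1 / (x.1 : ℝ)) * (1 / (nm x.2 : ℝ)) :=
        Finset.sum_le_sum_of_subset_of_nonneg hsub fun _ _ _ => by positivity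
    _ = (∑ n ∈ Icc 1 W, (1 / (n : ℝ))) * ∑ y ∈ T.image Prod.snd, 1 / (nm y : ℝ) := by
        rw [Finset.sum_product, Finset.sum_mul]
        refine Finset.sum_congr rfl fun n _ => ?_
        rw [Finset.mul_sum]
    _ ≤ ((1 + 1 / (ε / 2)) * (W : ℝ) ^ (ε / 2)) * (C * (W : ℝ) ^ (ε / 2) * Z₁ ^ (-δ)) := by
        refine mul_le_mul (harm hε2 hW) ?_ (Finset.sum_nonneg fun _ _ => by positivity)
          (by positivity)
        refine hC W hW Z₁ hZ₁ _ fun y hy => ?_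
        obtain ⟨x, hx, rfl⟩ := mem_image.1 hy
        obtain ⟨h1, h2, h3, h4⟩ := hT x hx
        exact ⟨h3, (Nat.le_mul_of_pos_left _ h1).trans h2, h4⟩
    _ = (1 + 1 / (ε / 2)) * C * ((W : ℝ) ^ (ε / 2) * (W : ℝ) ^ (ε / 2)) * Z₁ ^ (-δ) := by ring
    _ = _ := by rw [← Real.rpow_add hW0, add_halves]

/-- the squarefree number which belongs to a tuple -/
lemma s_of (g : GP ℓ Θ H) {m : Fin q → ℕ} (hm0 : ∏ l, m l ≠ 0)
    (hsq : ∀ p : ℕ, p.Prime → p ∣ ∏ l, m l → p ^ 2 ∣ ∏ l, m l) {t : ℕ} (ht : 1 ≤ t)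
    {Y : Fin 3 → ℤ} (hY : Cont 1 Y) (hd : ∀ l k, (m l : ℤ) ∣ t * cr Y (ℓ l) k) :
    ∃ s : ℕ, Squarefree s ∧ s.Coprime Θ ∧ rd (∏ l, m l) ≤ s * t * Θ ∧
      ∀ p : ℕ, p.Prime → p ∣ s → ∃ l, ∀ k, (p : ℤ) ^ 2 ∣ cr Y (ℓ l) k := by
  classical
  set R := rd (∏ l, m l) with hRdef
  set s := ∏ p ∈ R.primeFactors.filter (fun p => ¬ p ∣ t ∧ ¬ p ∣ Θ), p with hs
  have hsR : s ∣ R := by
    have h1 : s ∣ ∏ p ∈ R.primeFactors, p := Finset.prod_dvd_prod_of_subset _ _ _ (filter_subset _ _)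
    exact h1.trans (Nat.prod_primeFactors_dvd R)
  have hRsq : Squarefree R := rd_squarefree _
  have hssq : Squarefree s := hRsq.squarefree_of_dvd hsR
  have hps : ∀ p : ℕ, p.Prime → p ∣ s → p ∣ R ∧ ¬ p ∣ t ∧ ¬ p ∣ Θ := by
    intro p hp hps
    obtain ⟨r, hr, hpr⟩ := (hp.prime.dvd_finsetProd_iff _).1 hps
    rw [mem_filter] at hr
    have := (Nat.prime_dvd_prime_iff_eq hp (Nat.prime_of_mem_primeFactors hr.1)).1 hpr
    subst this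
    exact ⟨Nat.dvd_of_mem_primeFactors hr.1, hr.2⟩
  refine ⟨s, hssq, ?_, ?_, ?_⟩
  · rw [Nat.coprime_iff_gcd_eq_one]
    by_contra hne
    obtain ⟨p, hp, hpd⟩ := Nat.exists_prime_and_dvd hne
    exact (hps p hp (hpd.trans (Nat.gcd_dvd_left _ _))).2.2 (hpd.trans (Nat.gcd_dvd_right _ _))
  · have h1 : R ∣ s * t * Θ := by
      have h2 : ((R : ℕ) : ℤ) ^ 1 ∣ ((s * t * Θ : ℕ) : ℤ) := by
        refine sqf_dvd hRsq 1 fun p hp hpR => ?_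
        rw [pow_one]
        norm_cast
        by_cases h3 : p ∣ t
        · exact Dvd.dvd.mul_right (Dvd.dvd.mul_left h3 _) _
        by_cases h4 : p ∣ Θ
        · exact Dvd.dvd.mul_left h4 _
        refine Dvd.dvd.mul_right (Dvd.dvd.mul_right ?_ _) _
        rw [hs]
        refine Finset.dvd_prod_of_mem (fun p => p) (mem_filter.2 ⟨?_, h3, h4⟩)
        rw [Nat.mem_primeFactors]
        exact ⟨hp, hpR, hRsq.ne_zero⟩
      rw [pow_one] at h2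
      exact_mod_cast h2
    have hΘ := g.Θ1
    have hs0 : 0 < s := Nat.pos_of_ne_zero hssq.ne_zero
    exact Nat.le_of_dvd (by positivity) h1
  · intro p hp hpsd
    obtain ⟨hpR, hpt, hpΘ⟩ := hps p hp hpsd
    have hpP : p ∣ ∏ l, m l := (prime_dvd_rd hm0 hp).1 hpR
    have hp' : Prime (p : ℤ) := Nat.prime_iff_prime_int.1 hp
    obtain ⟨l, -, hl⟩ := (hp.prime.dvd_finsetProd_iff _).1 hpP
    have hcancel : ∀ l' k, (p : ℤ) ∣ (t : ℤ) * cr Y (ℓ l') k → (p : ℤ) ∣ cr Y (ℓ l') k := by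
      intro l' k h
      refine (hp'.dvd_or_dvd h).resolve_left ?_
      intro h5
      exact hpt (by exact_mod_cast h5)
    -- no other index
    have hother : ∀ l', l' ≠ l → ¬ p ∣ m l' := by
      intro l' hne hl'
      apply hY.prime hp
      obtain ⟨j, hj⟩ := g.exists_c hpΘ hne
      intro k
      have h1 : ∀ k, (p : ℤ) ∣ cr Y (ℓ l') k := fun k =>
        hcancel l' k ((Int.natCast_dvd_natCast.2 hl').trans (hd l' k))
      have h2 : ∀ k, (p : ℤ) ∣ cr Y (ℓ l) k := fun k =>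
        hcancel l k ((Int.natCast_dvd_natCast.2 hl).trans (hd l k))
      have h3 := dvd_of_two h1 h2 k j
      exact (hp'.dvd_or_dvd h3).resolve_right hj
    have hml : p ^ 2 ∣ m l := by
      have h1 := hsq p hp hpP
      rw [← Finset.mul_prod_erase univ m (mem_univ l)] at h1
      have h2 : Nat.Coprime (p ^ 2) (∏ x ∈ univ.erase l, m x) := by
        refine Nat.Coprime.pow_left 2 ?_
        rw [Nat.Prime.coprime_iff_not_dvd hp]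
        intro h3
        obtain ⟨l', hl', hpl'⟩ := (hp.prime.dvd_finsetProd_iff _).1 h3
        exact hother l' (mem_erase.1 hl').1 hpl'
      exact h2.dvd_of_dvd_mul_right h1
    refine ⟨l, fun k => ?_⟩
    have h1 : (p : ℤ) ^ 2 ∣ (t : ℤ) ^ 1 * cr Y (ℓ l) k := by
      rw [pow_one]
      have : ((p ^ 2 : ℕ) : ℤ) ∣ (m l : ℤ) := Int.natCast_dvd_natCast.2 hml
      push_cast at this
      exact this.trans (hd l k)
    refine dvd_cancel hp (a := (t : ℤ)) ?_ 2 1 h1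
    intro h5
    exact hpt (by exact_mod_cast h5)

/-- **the sum over the tuples** -/
theorem sumM2 (g : GP ℓ Θ H) {δ : ℝ} (hδ0 : 0 < δ) (hδ1 : 16 * δ ≤ 1)
    (hδ2 : (4 * ((q : ℝ) + 1) + 2) * δ ≤ 1) {ε : ℝ} (hε : 0 < ε) :
    ∃ C : ℝ, 0 < C ∧ ∀ W : ℕ, 1 ≤ W → ∀ Z₁ Q : ℝ, 1 ≤ Z₁ → 2 * Q * Θ ≤ Z₁ ^ δ →
    ∀ (T : Finset (Fin q → ℕ)) (t : (Fin q → ℕ) → ℕ) (Y : (Fin q → ℕ) → Fin 3 → ℤ),
      (∀ m ∈ T, ∏ l, m l ≠ 0 ∧ (∀ p : ℕ, p.Prime → p ∣ ∏ l, m l → p ^ 2 ∣ ∏ l, m l) ∧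
        1 ≤ t m ∧ Cont 1 (Y m) ∧ t m * nm (Y m) ≤ W ∧ Z₁ ≤ nm (Y m) ∧
        (∀ i j, i ≠ j → dt (Y m) (ℓ i) (ℓ j) ≠ 0) ∧ (∀ l, cr (Y m) (ℓ l) ≠ 0) ∧
        (∀ l k, (m l : ℤ) ∣ t m * cr (Y m) (ℓ l) k) ∧
        ((t m * nm (Y m) : ℕ) : ℝ) < Q * (rd (∏ l, m l) : ℝ)) →
      ∑ m ∈ T, 1 / ((t m * nm (Y m) : ℕ) : ℝ) ≤ C * (W : ℝ) ^ ε * Z₁ ^ (-δ) := by
  classical
  have hε2 : 0 < ε / 2 := half_pos hε
  obtain ⟨C, hC0, hC⟩ := sumV2 g hδ0 hδ1 hδ2 hε2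
  have hq : (0 : ℝ) < q := by
    have := g.q3
    exact_mod_cast (by omega : 0 < q)
  have hη : 0 < ε / 2 / q := by positivity
  obtain ⟨C', hC'0, hC'⟩ := card_tuples_eq q hη
  have hH := g.H1
  have hΘ := g.Θ1
  refine ⟨C' * ((2 * H : ℕ) : ℝ) ^ (ε / 2) * C, by positivity, fun W hW Z₁ Q hZ₁ hQ T t Y hT => ?_⟩
  have hW1 : (1 : ℝ) ≤ W := by exact_mod_cast hW
  have hW0 : (0 : ℝ) < W := by linarith
  have hZ₁0 : 0 < Z₁ := by linarith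
  set f : (Fin q → ℕ) → ℕ × (Fin 3 → ℤ) := fun m => (t m, Y m) with hf
  have hmaps : ∀ m ∈ T, f m ∈ T.image f := fun m hm => mem_image_of_mem f hm
  rw [← Finset.sum_fiberwise_of_maps_to hmaps]
  have hfib : ∀ v ∈ T.image f, ∑ m ∈ T with f m = v, 1 / ((t m * nm (Y m) : ℕ) : ℝ) ≤
      (C' * ((2 * H : ℕ) : ℝ) ^ (ε / 2) * (W : ℝ) ^ (ε / 2)) * (1 / ((v.1 * nm v.2 : ℕ) : ℝ)) := by
    intro v hv
    obtain ⟨m0, hm0, rfl⟩ := mem_image.1 hv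
    obtain ⟨-, -, ht0, -, hvW, -, -, hvl, -, -⟩ := hT m0 hm0
    set τ := t m0 with hτ
    set υ := Y m0 with hυ
    have h1 : ∑ m ∈ T with f m = f m0, 1 / ((t m * nm (Y m) : ℕ) : ℝ) =
        ((T.filter fun m => f m = f m0).card : ℝ) * (1 / ((τ * nm υ : ℕ) : ℝ)) := by
      rw [← nsmul_eq_mul, ← Finset.sum_const]
      refine Finset.sum_congr rfl fun m hm => ?_
      have h2 := (mem_filter.1 hm).2
      simp only [hf, Prod.mk.injEq] at h2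
      rw [h2.1, h2.2]
    rw [h1]
    have e0 : (f m0).1 = τ := rfl
    have e1 : (f m0).2 = υ := rfl
    rw [e0, e1]
    refine mul_le_mul_of_nonneg_right ?_ (by positivity)
    have hk : ∀ l, ∃ k, cr υ (ℓ l) k ≠ 0 := by
      intro l
      by_contra hcon
      push Not at hcon
      exact hvl l (funext hcon)
    choose k hk using hk
    set N : ℕ := ∏ l, ((τ : ℤ) * cr υ (ℓ l) (k l)).natAbs with hN
    have hN1 : 1 ≤ N := by
      have hN0 : 0 < N := by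
        rw [hN]
        refine Finset.prod_pos fun l _ => ?_
        have h3 : (τ : ℤ) * cr υ (ℓ l) (k l) ≠ 0 := mul_ne_zero (by omega) (hk l)
        omega
      exact hN0
    have hNle : N ≤ (2 * H * W) ^ q := by
      calc N ≤ ∏ _l : Fin q, 2 * H * W := by
            refine Finset.prod_le_prod' fun l _ => ?_
            have h2 := cr_le g (Y := υ) (Z := nm υ) (abs_le_nm υ) l (k l)
            rw [Int.abs_eq_natAbs] at h2
            have h3 : (cr υ (ℓ l) (k l)).natAbs ≤ 2 * H * nm υ := by exact_mod_cast h2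
            rw [Int.natAbs_mul, Int.natAbs_natCast]
            calc τ * (cr υ (ℓ l) (k l)).natAbs ≤ τ * (2 * H * nm υ) := Nat.mul_le_mul_left _ h3
              _ = 2 * H * (τ * nm υ) := by ring
              _ ≤ _ := Nat.mul_le_mul_left _ hvW
        _ = _ := by simp
    have h2 := hC' N hN1 (T.filter fun m => f m = f m0) (by
      intro m hm l
      rw [mem_filter] at hm
      obtain ⟨-, -, -, -, -, -, -, -, h3, -⟩ := hT m hm.1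
      have h4 := h3 l (k l)
      have h5 := hm.2
      simp only [hf, Prod.mk.injEq] at h5
      rw [h5.1, h5.2] at h4
      have h6 : m l ∣ ((τ : ℤ) * cr υ (ℓ l) (k l)).natAbs := Int.natCast_dvd.1 h4
      exact h6.trans (Finset.dvd_prod_of_mem
        (fun l => ((τ : ℤ) * cr υ (ℓ l) (k l)).natAbs) (mem_univ l)))
    refine h2.trans ?_
    have h3 : (N : ℝ) ^ (ε / 2 / q) ≤ ((2 * H : ℕ) : ℝ) ^ (ε / 2) * (W : ℝ) ^ (ε / 2) := by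
      have h4 : (N : ℝ) ≤ (((2 * H : ℕ) : ℝ) * W) ^ q := by exact_mod_cast hNle
      calc (N : ℝ) ^ (ε / 2 / q) ≤ ((((2 * H : ℕ) : ℝ) * W) ^ q) ^ (ε / 2 / q) :=
            Real.rpow_le_rpow (Nat.cast_nonneg _) h4 hη.le
        _ = (((2 * H : ℕ) : ℝ) * W) ^ (ε / 2) := by
            rw [← Real.rpow_natCast, ← Real.rpow_mul (by positivity)]
            congr 1
            field_simp
        _ = _ := Real.mul_rpow (by positivity) (by positivity)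
    calc C' * (N : ℝ) ^ (ε / 2 / q) ≤ C' * (((2 * H : ℕ) : ℝ) ^ (ε / 2) * (W : ℝ) ^ (ε / 2)) := by
          gcongr
      _ = _ := by ring
  refine (Finset.sum_le_sum hfib).trans ?_
  rw [← Finset.mul_sum]
  have h1 := hC W hW Z₁ hZ₁ (T.image f) (by
    intro v hv
    obtain ⟨m, hm, rfl⟩ := mem_image.1 hv
    obtain ⟨a1, a2, a3, a4, a5, a6, a7, a8, a9, a10⟩ := hT m hm
    refine ⟨a3, a5, ⟨a4, a8, a7, ?_⟩, a6⟩
    obtain ⟨s, b1, b2, b3, b4⟩ := s_of g a1 a2 a3 a4 a9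
    refine ⟨s, b1, b2, ?_, b4⟩
    have hn0 : (0 : ℝ) < nm (Y m) := lt_of_lt_of_le hZ₁0 a6
    have ht0 : (0 : ℝ) < t m := by exact_mod_cast a3
    have hΘ0 : (0 : ℝ) < Θ := by exact_mod_cast hΘ
    have hR0 : (0 : ℝ) < (rd (∏ l, m l) : ℝ) := by exact_mod_cast rd_pos _
    have hQ0 : 0 < Q := by
      have h2 : (0 : ℝ) < Q * (rd (∏ l, m l) : ℝ) := by
        refine lt_trans ?_ a10
        push_cast
        positivity
      exact (mul_pos_iff_of_pos_right hR0).1 h2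
    have b3' : (rd (∏ l, m l) : ℝ) ≤ s * t m * Θ := by exact_mod_cast b3
    have h2 : (nm (Y m) : ℝ) < Q * s * Θ := by
      have h3 : (t m : ℝ) * nm (Y m) < t m * (Q * s * Θ) := by
        calc (t m : ℝ) * nm (Y m) = ((t m * nm (Y m) : ℕ) : ℝ) := by push_cast; ring
          _ < Q * (rd (∏ l, m l) : ℝ) := a10
          _ ≤ Q * (s * t m * Θ) := by gcongr
          _ = _ := by ring
      exact lt_of_mul_lt_mul_left h3 ht0.le
    have h3 : Z₁ ^ δ ≤ (nm (Y m) : ℝ) ^ δ := Real.rpow_le_rpow hZ₁0.le a6 hδ0.le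
    have h4 : (nm (Y m) : ℝ) ^ (1 - δ) * (nm (Y m) : ℝ) ^ δ = nm (Y m) := by
      rw [← Real.rpow_add hn0]
      norm_num
    have h5 : (2 * (nm (Y m) : ℝ) ^ (1 - δ)) * (Q * Θ) < s * (Q * Θ) := by
      calc (2 * (nm (Y m) : ℝ) ^ (1 - δ)) * (Q * Θ) =
            (nm (Y m) : ℝ) ^ (1 - δ) * (2 * Q * Θ) := by ring
        _ ≤ (nm (Y m) : ℝ) ^ (1 - δ) * (nm (Y m) : ℝ) ^ δ := by
            refine mul_le_mul_of_nonneg_left (hQ.trans h3) (by positivity)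
        _ = nm (Y m) := h4
        _ < Q * s * Θ := h2
        _ = _ := by ring
    exact lt_of_mul_lt_mul_right h5 (by positivity))
  calc _ ≤ (C' * ((2 * H : ℕ) : ℝ) ^ (ε / 2) * (W : ℝ) ^ (ε / 2)) *
        (C * (W : ℝ) ^ (ε / 2) * Z₁ ^ (-δ)) :=
        mul_le_mul_of_nonneg_left h1 (by positivity)
    _ = C' * ((2 * H : ℕ) : ℝ) ^ (ε / 2) * C * ((W : ℝ) ^ (ε / 2) * (W : ℝ) ^ (ε / 2)) *
        Z₁ ^ (-δ) := by ring
    _ = _ := by rw [← Real.rpow_add hW0, add_halves]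

end Pool.Agent.K4H9.PS
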