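import Pool.Agent.K4H9.PP.Main
import Pool.Agent.K4H9.PS.Up2

set_option autoImplicit false

/-!
Translation to heights and counting functions.
-/

namespace Pool.Agent.K4H9.PS

open Finset Pool.Agent.K4H9.PP

variable {q : ℕ} {L : Fin q → Fin 3 → ℤ}

/-- the points off the special lines -/
def OffL {q : ℕ} (L : Fin q → Fin 3 → ℤ) : Set (Fin 3 → ℤ) :=
  {x | ∀ i j k l, i ≠ j → i ≠ k → i ≠ l → j ≠ k → j ≠ l → k ≠ l →
    (Matrix.of ![x, crossProduct (L i) (L j), crossProduct (L k) (L l)]).det ≠ 0}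

lemma cross_eq (u v : Fin 3 → ℤ) : crossProduct u v = cr u v := by
  rw [cross_apply]
  rfl

lemma off_iff (x : Fin 3 → ℤ) : x ∈ OffL L ↔ Off L x := by
  unfold OffL Off
  simp only [Set.mem_setOf_eq, dt_det, Matrix.cons_val_zero, Matrix.cons_val_one, Matrix.cons_val,
    cross_eq]

theorem off_main (hq : 3 ≤ q)
    (hL : ∀ i j k, i ≠ j → i ≠ k → j ≠ k → (Matrix.of ![L i, L j, L k]).det ≠ 0)
    (S : Finset ℕ) {κ : ℝ} (hκ : 1 < κ) (c : ℝ) :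
    ∃ η : ℝ, 0 < η ∧ ∃ C : ℝ, 0 < C ∧ ∀ B : ℝ, 1 ≤ B → (Exc L S κ c B ∩ OffL L).Finite ∧
      ((Exc L S κ c B ∩ OffL L).ncard : ℝ) ≤ C * B ^ (2 - η) := by
  obtain ⟨Θ, H, g⟩ := gp_exists hq hL
  set Cc : ℝ := (∏ p ∈ S, (p + 1 : ℕ) : ℕ) * Real.exp (max c 0) with hCc
  have hCc1 : 1 ≤ Cc := by
    have h1 : (1 : ℝ) ≤ ((∏ p ∈ S, (p + 1 : ℕ) : ℕ) : ℝ) := by
      have : 1 ≤ ∏ p ∈ S, (p + 1 : ℕ) := Finset.one_le_prod' fun p _ => by omega
      exact_mod_cast this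
    have h2 : 1 ≤ Real.exp (max c 0) := Real.one_le_exp (le_max_right _ _)
    calc (1 : ℝ) = 1 * 1 := by norm_num
      _ ≤ _ := mul_le_mul h1 h2 (by norm_num) (by linarith)
  obtain ⟨η, hη, C, hC0, hC⟩ := upper2 g hκ hCc1
  refine ⟨min η 1, lt_min hη one_pos, C, hC0, fun B hB => ?_⟩
  have hfin : (Exc L S κ c B ∩ OffL L).Finite :=
    (exc_finite (L := L) S κ c B hB).subset Set.inter_subset_left
  refine ⟨hfin, ?_⟩
  have hB1 : 1 ≤ ⌊B⌋₊ := Nat.le_floor (by exact_mod_cast hB)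
  rw [Set.ncard_eq_toFinset_card _ hfin]
  have h1 := hC ⌊B⌋₊ hB1 hfin.toFinset (by
    intro x hx
    rw [Set.Finite.mem_toFinset] at hx
    obtain ⟨hx, hoff⟩ := hx
    obtain ⟨h2, h3⟩ := exc_sub S κ c B hB hx
    refine ⟨h2, h3, fun l => ?_, (off_iff x).1 hoff, rd_of_exc hx le_rfl⟩
    have := hx.2.1 l
    rwa [form_eq] at this)
  refine h1.trans ?_
  refine mul_le_mul_of_nonneg_left ?_ hC0.le
  have hB1r : (1 : ℝ) ≤ (⌊B⌋₊ : ℝ) := by exact_mod_cast hB1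
  calc (⌊B⌋₊ : ℝ) ^ (2 - η) ≤ (⌊B⌋₊ : ℝ) ^ (2 - min η 1) :=
        Real.rpow_le_rpow_of_exponent_le hB1r (by have := min_le_left η 1; linarith)
    _ ≤ B ^ (2 - min η 1) := Real.rpow_le_rpow (Nat.cast_nonneg _) (Nat.floor_le (by linarith))
        (by have := min_le_right η 1; linarith)

/-- almost all exceptions lie on the special lines -/
theorem off_ratio (hq : 4 ≤ q)
    (hL : ∀ i j k, i ≠ j → i ≠ k → j ≠ k → (Matrix.of ![L i, L j, L k]).det ≠ 0)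
    (S : Finset ℕ) {κ : ℝ} (hκ1 : 1 < κ) (hκ2 : κ ≤ 2) :
    ∃ c₀ : ℝ, ∀ c : ℝ, c₀ ≤ c → ∃ η : ℝ, 0 < η ∧ ∃ C : ℝ, ∀ B : ℝ, 1 ≤ B →
      ((Exc L S κ c B ∩ OffL L).ncard : ℝ) ≤ C * B ^ (-η) * ((Exc L S κ c B).ncard : ℝ) := by
  obtain ⟨c₀, hc₀⟩ := lower_main hq hL S (by linarith : (0 : ℝ) ≤ κ) hκ2
  refine ⟨c₀, fun c hc => ?_⟩
  obtain ⟨m, hm, B₀, hB₀, hlow⟩ := hc₀ c hc
  obtain ⟨η, hη, C, hC0, hC⟩ := off_main (by omega) hL S hκ1 c
  have hexp : max (3 - κ) 2 = (2 : ℝ) := max_eq_right (by linarith)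
  rw [hexp] at hlow
  refine ⟨η, hη, C / m + B₀ ^ η, fun B hB => ?_⟩
  have hB0 : 0 < B := by linarith
  have hCm : 0 < C / m := by positivity
  have hCB : 0 < B₀ ^ η := by positivity
  have h1 := (hC B hB).2
  rcases le_or_gt B₀ B with h | h
  · have h2 := hlow B h
    have h3 : C * B ^ (2 - η) ≤ (C / m) * B ^ (-η) * ((Exc L S κ c B).ncard : ℝ) := by
      have e1 : B ^ (2 - η) = B ^ (-η) * B ^ (2 : ℝ) := by
        rw [← Real.rpow_add hB0]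
        congr 1
        ring
      calc C * B ^ (2 - η) = (C / m) * B ^ (-η) * (m * B ^ (2 : ℝ)) := by
            rw [e1]
            field_simp
        _ ≤ _ := by gcongr
    have h4 : 0 ≤ B₀ ^ η * B ^ (-η) * ((Exc L S κ c B).ncard : ℝ) := by positivity
    calc _ ≤ _ := h1
      _ ≤ (C / m) * B ^ (-η) * ((Exc L S κ c B).ncard : ℝ) := h3
      _ ≤ (C / m) * B ^ (-η) * ((Exc L S κ c B).ncard : ℝ) +
          B₀ ^ η * B ^ (-η) * ((Exc L S κ c B).ncard : ℝ) := by linarith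
      _ = _ := by ring
  · have h2 : ((Exc L S κ c B ∩ OffL L).ncard : ℝ) ≤ ((Exc L S κ c B).ncard : ℝ) := by
      exact_mod_cast Set.ncard_le_ncard Set.inter_subset_left (exc_finite S κ c B hB)
    have h3 : 1 ≤ B₀ ^ η * B ^ (-η) := by
      rw [Real.rpow_neg hB0.le, ← div_eq_mul_inv, le_div_iff₀ (by positivity), one_mul]
      exact Real.rpow_le_rpow hB0.le h.le hη.le
    have h4 : 0 ≤ (C / m) * B ^ (-η) * ((Exc L S κ c B).ncard : ℝ) := by positivity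
    have h5 : (0 : ℝ) ≤ ((Exc L S κ c B).ncard : ℝ) := Nat.cast_nonneg _
    calc _ ≤ _ := h2
      _ ≤ (B₀ ^ η * B ^ (-η)) * ((Exc L S κ c B).ncard : ℝ) := le_mul_of_one_le_left h5 h3
      _ ≤ (C / m) * B ^ (-η) * ((Exc L S κ c B).ncard : ℝ) +
          B₀ ^ η * B ^ (-η) * ((Exc L S κ c B).ncard : ℝ) := by linarith
      _ = _ := by ring

end Pool.Agent.K4H9.PS
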