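import Pool.Agent.K4H9.PS.AS

set_option autoImplicit false

/-!
The points for which the values of two of the forms are almost squares.
-/

namespace Pool.Agent.K4H9.PS

open Finset Pool.Agent.K4H9.PP

lemma mul_bd {B P M c₁ c₂ a₁ a₂ a : ℝ} (hB : 1 ≤ B) (hc₁ : 0 ≤ c₁) (hc₂ : 0 ≤ c₂) (hM : 0 ≤ M)
    (h1 : P ≤ c₁ * B ^ a₁) (h2 : M ≤ c₂ * B ^ a₂) (h : a₁ + a₂ ≤ a) : P * M ≤ c₁ * c₂ * B ^ a := by
  have hB0 : 0 < B := by linarith
  calc P * M ≤ (c₁ * B ^ a₁) * (c₂ * B ^ a₂) := mul_le_mul h1 h2 hM (by positivity)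
    _ = c₁ * c₂ * (B ^ a₁ * B ^ a₂) := by ring
    _ = c₁ * c₂ * B ^ (a₁ + a₂) := by rw [Real.rpow_add hB0]
    _ ≤ _ := mul_le_mul_of_nonneg_left (Real.rpow_le_rpow_of_exponent_le hB h) (by positivity)

lemma union_bd {α ι : Type*} [Fintype ι] (T : Finset α) (P : ι → α → Prop)
    [∀ i, DecidablePred (P i)] {M : ℝ} (h : ∀ z ∈ T, ∃ i, P i z)
    (hM : ∀ i, ((T.filter (P i)).card : ℝ) ≤ M) : (T.card : ℝ) ≤ (Fintype.card ι : ℝ) * M := by
  classical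
  have h1 : T ⊆ (univ : Finset ι).biUnion fun i => T.filter (P i) := by
    intro z hz
    obtain ⟨i, hi⟩ := h z hz
    exact mem_biUnion.2 ⟨i, mem_univ i, mem_filter.2 ⟨hz, hi⟩⟩
  have h2 : T.card ≤ ∑ i : ι, (T.filter (P i)).card :=
    (Finset.card_le_card h1).trans Finset.card_biUnion_le
  calc (T.card : ℝ) ≤ ((∑ i : ι, (T.filter (P i)).card : ℕ) : ℝ) := by exact_mod_cast h2
    _ = ∑ i : ι, ((T.filter (P i)).card : ℝ) := by push_cast; rfl
    _ ≤ ∑ _i : ι, M := Finset.sum_le_sum fun i _ => hM i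
    _ = _ := by rw [Finset.sum_const, Finset.card_univ, nsmul_eq_mul]

lemma filter_or_bd {α : Type*} (T : Finset α) (P Q : α → Prop) [DecidablePred P] [DecidablePred Q]
    {M M' : ℝ} (h1 : ((T.filter P).card : ℝ) ≤ M) (h2 : ((T.filter Q).card : ℝ) ≤ M') :
    ((T.filter fun z => P z ∨ Q z).card : ℝ) ≤ M + M' := by
  classical
  rw [Finset.filter_or]
  have h3 := Finset.card_union_le (T.filter P) (T.filter Q)
  have h4 : (((T.filter P ∪ T.filter Q).card : ℕ) : ℝ) ≤ (T.filter P).card + (T.filter Q).card := by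
    exact_mod_cast h3
  linarith

variable {q : ℕ} {ℓ : Fin q → Fin 3 → ℤ} {Θ H : ℕ}

lemma dt_cr_cr (z a b c d : Fin 3 → ℤ) :
    dt z (cr a b) (cr c d) = dot z b * dt a c d - dot z a * dt b c d := by
  simp only [dt_eq, dot, cr_zero, cr_one, cr_two]
  ring

theorem partA (g : GP ℓ Θ H) {r s : Fin q} (hrs : r ≠ s) {κ₀ η η₁ : ℝ} (hη : 0 < η)
    (hη1 : 0 < η₁) (h32 : 32 * η₁ ≤ η) (hκ : 4 * ((q : ℝ) + 1) ^ 2 * η ≤ κ₀) (hκ1 : κ₀ ≤ 1)
    {C₁ : ℝ} (hC₁ : 1 ≤ C₁) {Θ₁ : ℕ} (hΘ₁ : 1 ≤ Θ₁) :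
    ∃ C : ℝ, 0 < C ∧ ∀ B : ℕ, 1 ≤ B → ∀ T : Finset (Fin 3 → ℤ), (∀ z ∈ T, (∀ k, |z k| ≤ B) ∧
      (∀ l, dot z (ℓ l) ≠ 0) ∧ Off ℓ z ∧
      (rd (∏ l, (dot z (ℓ l)).natAbs) : ℝ) ≤ C₁ * (B : ℝ) ^ ((q : ℝ) - 1 - κ₀) ∧
      AS Θ₁ (C₁ * (B : ℝ) ^ (2 * η₁)) (dot z (ℓ r)).natAbs (dot z (ℓ s)).natAbs) →
      (T.card : ℝ) ≤ C * (B : ℝ) ^ (2 - η / 4) := by
  classical
  have hq3 := g.q3
  have hq3' : (3 : ℝ) ≤ q := by exact_mod_cast hq3
  have hH := g.H1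
  have hHr : (1 : ℝ) ≤ H := by exact_mod_cast hH
  set ε : ℝ := η / 32 with hε
  have hε0 : 0 < ε := by positivity
  have hη1' : η ≤ 1 := by nlinarith
  obtain ⟨Ca, hCa0, hCa⟩ := card_AS hΘ₁ hε0
  obtain ⟨Co, hCo0, hCo⟩ := card_one hε0
  obtain ⟨Ct, hCt0, hCt⟩ := card_two hε0
  obtain ⟨Cd, hCd0, hCd⟩ := card_dvd hε0
  have hκ0 : 0 < κ₀ := lt_of_lt_of_le (by positivity) hκ
  obtain ⟨B₀, hB₀1, hB₀⟩ := big (a := κ₀ / 2) (by linarith) C₁
  set h3 : ℝ := (3 * (H : ℝ)) ^ ε with hh3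
  have hh30 : 0 < h3 := by positivity
  set c1 : ℝ := Ca * h3 * C₁ ^ 2 * (3 * H) with hc1
  set c2 : ℝ := Ca * h3 * C₁ ^ 2 * √(3 * (H : ℝ)) with hc2
  set c3 : ℝ := Ct * h3 * (3 * H) ^ 2 with hc3
  set d1 : ℝ := 7 * H with hd1
  set d2 : ℝ := 2 with hd2
  set d3 : ℝ := Co * h3 * (3 * H) with hd3
  set d4 : ℝ := Cd * (24 * (H : ℝ) ^ 4) ^ ε * (3 * H) with hd4
  set CC : ℝ := c2 * d1 + c2 * d1 + c1 * d2 + c3 * d1 + c1 * d3 + c1 * d4 with hCC
  have hc10 : 0 < c1 := by positivity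
  have hc20 : 0 < c2 := by positivity
  have hc30 : 0 < c3 := by positivity
  have hd10 : 0 < d1 := by positivity
  have hd20 : 0 < d2 := by norm_num [hd2]
  have hd30 : 0 < d3 := by positivity
  have hd40 : 0 < d4 := by positivity
  have hCC0 : 0 < CC := by positivity
  refine ⟨q * q * CC + ((2 * B₀ + 1) ^ 3 : ℕ), by positivity, fun B hB T hT => ?_⟩
  have hB1 : (1 : ℝ) ≤ B := by exact_mod_cast hB
  have hB0 : (0 : ℝ) < B := by linarith
  have hBe : (1 : ℝ) ≤ (B : ℝ) ^ (2 - η / 4) := Real.one_le_rpow hB1 (by linarith)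
  rcases lt_or_ge B B₀ with hlt | hge
  · have h1 : T.card ≤ (2 * B₀ + 1) ^ 3 := by
      refine box_card T fun z hz k => ((hT z hz).1 k).trans ?_
      exact_mod_cast hlt.le
    have h2 : (T.card : ℝ) ≤ (((2 * B₀ + 1) ^ 3 : ℕ) : ℝ) := by exact_mod_cast h1
    have h4 : (0 : ℝ) ≤ q * q * CC := by positivity
    calc (T.card : ℝ) ≤ (((2 * B₀ + 1) ^ 3 : ℕ) : ℝ) * 1 := by linarith
      _ ≤ _ := mul_le_mul (by linarith) hBe zero_le_one (by positivity)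
  have hBbig := hB₀ B hge
  set X : ℕ := 3 * H * B with hX
  have hX1 : 1 ≤ X := by
    have : 0 < 3 * H * B := by positivity
    exact this
  have hXr : (X : ℝ) = 3 * H * B := by rw [hX]; push_cast; ring
  have hXε : (X : ℝ) ^ ε = h3 * (B : ℝ) ^ ε := by
    rw [hXr, Real.mul_rpow (by positivity) hB0.le]
  have hdX : ∀ z ∈ T, ∀ l, (dot z (ℓ l)).natAbs ≤ X := fun z hz l => dot_le g (hT z hz).1 l
  set W : ℝ := C₁ * (B : ℝ) ^ (2 * η₁) with hW
  have hW2 : W ^ 2 = C₁ ^ 2 * (B : ℝ) ^ (4 * η₁) := by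
    have e : ((B : ℝ) ^ (2 * η₁)) ^ 2 = (B : ℝ) ^ (4 * η₁) := by
      rw [← Real.rpow_natCast ((B : ℝ) ^ (2 * η₁)) 2, ← Real.rpow_mul hB0.le]
      congr 1
      push_cast
      ring
    rw [hW, mul_pow, e]
  -- the pairs
  have hP1 : ∀ F : Finset (Fin 3 → ℤ), F ⊆ T → ((F.image (uv (ℓ r) (ℓ s))).card : ℝ) ≤
      c1 * (B : ℝ) ^ (1 + 4 * η₁ + ε) := by
    intro F hF
    have h1 := hCa X hX1 W X X (Nat.cast_nonneg _) (Nat.cast_nonneg _) (F.image (uv (ℓ r) (ℓ s))) (by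
      intro x hx
      obtain ⟨z, hz, rfl⟩ := mem_image.1 hx
      have hzT := hF hz
      obtain ⟨-, a2, -, -, a5⟩ := hT z hzT
      exact ⟨a2 r, a2 s, hdX z hzT r, by exact_mod_cast hdX z hzT r,
        by exact_mod_cast hdX z hzT s, a5⟩)
    refine h1.trans (le_of_eq ?_)
    rw [Real.mul_self_sqrt (Nat.cast_nonneg _), hXε, hW2, hXr, Real.rpow_add hB0,
      Real.rpow_add hB0, Real.rpow_one, hc1]
    ring
  have hsq : √((B : ℝ) ^ (1 - η)) = (B : ℝ) ^ ((1 - η) / 2) := by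
    rw [Real.sqrt_eq_rpow, ← Real.rpow_mul hB0.le]
    congr 1
    ring
  have hsq2 : √(X : ℝ) = √(3 * (H : ℝ)) * (B : ℝ) ^ (1 / 2 : ℝ) := by
    rw [hXr, Real.sqrt_mul (by positivity), ← Real.sqrt_eq_rpow]
  have hexp2 : c2 * (B : ℝ) ^ (1 - η / 2 + 4 * η₁ + ε) = Ca * (X : ℝ) ^ ε * W ^ 2 *
      (√((B : ℝ) ^ (1 - η)) * √(X : ℝ)) := by
    have e1 : 1 - η / 2 + 4 * η₁ + ε = (1 - η) / 2 + 1 / 2 + 4 * η₁ + ε := by ring
    rw [hXε, hW2, hsq, hsq2, e1, Real.rpow_add hB0, Real.rpow_add hB0, Real.rpow_add hB0, hc2]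
    ring
  have hP2 : ∀ F : Finset (Fin 3 → ℤ), F ⊆ T →
      (∀ z ∈ F, ((dot z (ℓ r)).natAbs : ℝ) ≤ (B : ℝ) ^ (1 - η)) →
      ((F.image (uv (ℓ r) (ℓ s))).card : ℝ) ≤ c2 * (B : ℝ) ^ (1 - η / 2 + 4 * η₁ + ε) := by
    intro F hF hsm
    have h1 := hCa X hX1 W ((B : ℝ) ^ (1 - η)) X (by positivity) (Nat.cast_nonneg _)
      (F.image (uv (ℓ r) (ℓ s))) (by
      intro x hx
      obtain ⟨z, hz, rfl⟩ := mem_image.1 hx
      have hzT := hF hz
      obtain ⟨-, a2, -, -, a5⟩ := hT z hzT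
      exact ⟨a2 r, a2 s, hdX z hzT r, hsm z hz, by exact_mod_cast hdX z hzT s, a5⟩)
    rw [hexp2]
    exact h1
  have hP2' : ∀ F : Finset (Fin 3 → ℤ), F ⊆ T →
      (∀ z ∈ F, ((dot z (ℓ s)).natAbs : ℝ) ≤ (B : ℝ) ^ (1 - η)) →
      ((F.image (uv (ℓ r) (ℓ s))).card : ℝ) ≤ c2 * (B : ℝ) ^ (1 - η / 2 + 4 * η₁ + ε) := by
    intro F hF hsm
    have h1 := hCa X hX1 W X ((B : ℝ) ^ (1 - η)) (Nat.cast_nonneg _) (by positivity)
      (F.image (uv (ℓ r) (ℓ s))) (by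
      intro x hx
      obtain ⟨z, hz, rfl⟩ := mem_image.1 hx
      have hzT := hF hz
      obtain ⟨-, a2, -, -, a5⟩ := hT z hzT
      exact ⟨a2 r, a2 s, hdX z hzT r, by exact_mod_cast hdX z hzT r, hsm z hz, a5⟩)
    rw [hexp2, mul_comm (√((B : ℝ) ^ (1 - η)))]
    exact h1
  have hP3 : ∀ F : Finset (Fin 3 → ℤ), F ⊆ T →
      (∀ z ∈ F, (B : ℝ) ^ (1 + η) * (rd ((dot z (ℓ r)).natAbs * (dot z (ℓ s)).natAbs) : ℝ) ≤
        (((dot z (ℓ r)).natAbs * (dot z (ℓ s)).natAbs : ℕ) : ℝ)) →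
      ((F.image (uv (ℓ r) (ℓ s))).card : ℝ) ≤ c3 * (B : ℝ) ^ (1 - η + ε) := by
    intro F hF hsm
    have h1 := hCt X hX1 ((B : ℝ) ^ (1 + η)) (by positivity) (F.image (uv (ℓ r) (ℓ s))) (by
      intro x hx
      obtain ⟨z, hz, rfl⟩ := mem_image.1 hx
      have hzT := hF hz
      obtain ⟨-, a2, -, -, a5⟩ := hT z hzT
      exact ⟨a2 r, a2 s, hdX z hzT r, hdX z hzT s, hsm z hz⟩)
    refine h1.trans (le_of_eq ?_)
    have e1 : (B : ℝ) ^ 2 / (B : ℝ) ^ (1 + η) = (B : ℝ) ^ (1 - η) := by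
      rw [div_eq_iff (by positivity), ← Real.rpow_add hB0, ← Real.rpow_natCast (B : ℝ) 2]
      congr 1
      push_cast
      ring
    calc Ct * (X : ℝ) ^ ε * ((X : ℝ) ^ 2 / (B : ℝ) ^ (1 + η)) =
          Ct * (h3 * (B : ℝ) ^ ε) * ((3 * H) ^ 2 * ((B : ℝ) ^ 2 / (B : ℝ) ^ (1 + η))) := by
          rw [hXε, hXr]
          ring
      _ = c3 * ((B : ℝ) ^ (1 - η) * (B : ℝ) ^ ε) := by rw [e1, hc3]; ring
      _ = _ := by rw [← Real.rpow_add hB0]
  -- the third form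
  have hM1 : ∀ F : Finset (Fin 3 → ℤ), F ⊆ T → ∀ x : Fin q,
      ((F.image fun z => dot z (ℓ x)).card : ℝ) ≤ d1 * (B : ℝ) ^ (1 : ℝ) := by
    intro F hF x
    have h1 : (F.image fun z => dot z (ℓ x)) ⊆ Finset.Icc (-(X : ℤ)) (X : ℤ) := by
      intro w hw
      obtain ⟨z, hz, rfl⟩ := mem_image.1 hw
      have := hdX z (hF hz) x
      rw [Finset.mem_Icc]
      omega
    have h2 := Finset.card_le_card h1
    rw [Int.card_Icc] at h2
    have h4 : (F.image fun z => dot z (ℓ x)).card ≤ 7 * H * B := by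
      have : 1 ≤ H * B := Nat.mul_pos hH hB
      rw [hX] at h2
      have e : ((((3 * H * B : ℕ) : ℤ) + 1 - -((3 * H * B : ℕ) : ℤ)).toNat) = 6 * (H * B) + 1 := by
        have e1 : (((3 * H * B : ℕ) : ℤ) + 1 - -((3 * H * B : ℕ) : ℤ)) =
            ((6 * (H * B) + 1 : ℕ) : ℤ) := by push_cast; ring
        rw [e1, Int.toNat_natCast]
      rw [e] at h2
      calc _ ≤ 6 * (H * B) + 1 := h2
        _ ≤ 7 * (H * B) := by omega
        _ = _ := by ring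
    rw [Real.rpow_one, hd1]
    exact_mod_cast h4
  have hM2 : ∀ F : Finset (Fin 3 → ℤ), F ⊆ T → ∀ x : Fin q,
      (∀ z ∈ F, ((dot z (ℓ x)).natAbs : ℝ) ≤ (B : ℝ) ^ (1 - η)) →
      ((F.image fun z => dot z (ℓ x)).card : ℝ) ≤ d2 * (B : ℝ) ^ (1 - η) := by
    intro F hF x hsm
    set Ω := F.image fun z => dot z (ℓ x) with hΩ
    have h1 : (Ω.card : ℝ) ≤ 2 * ((Ω.image Int.natAbs).card : ℝ) := by exact_mod_cast card_natAbs Ω
    have h2 : ((Ω.image Int.natAbs).card : ℝ) ≤ (B : ℝ) ^ (1 - η) := by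
      rcases card_le_floor (F := Ω.image Int.natAbs) (x := (B : ℝ) ^ (1 - η)) (by
        intro n hn
        obtain ⟨w, hw, rfl⟩ := mem_image.1 hn
        obtain ⟨z, hz, rfl⟩ := mem_image.1 hw
        exact ⟨Int.natAbs_pos.2 ((hT z (hF hz)).2.1 x), hsm z hz⟩) with h4 | h4
      · exact h4
      · rw [h4, Finset.card_empty, Nat.cast_zero]
        positivity
    rw [hd2]
    linarith
  have hM3 : ∀ F : Finset (Fin 3 → ℤ), F ⊆ T → ∀ x : Fin q,
      (∀ z ∈ F, (B : ℝ) ^ η * (rd (dot z (ℓ x)).natAbs : ℝ) ≤ ((dot z (ℓ x)).natAbs : ℝ)) →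
      ((F.image fun z => dot z (ℓ x)).card : ℝ) ≤ d3 * (B : ℝ) ^ (1 - η + ε) := by
    intro F hF x hsm
    have h1 := hCo X hX1 ((B : ℝ) ^ η) (by positivity) (F.image fun z => dot z (ℓ x)) (by
      intro w hw
      obtain ⟨z, hz, rfl⟩ := mem_image.1 hw
      exact ⟨(hT z (hF hz)).2.1 x, hdX z (hF hz) x, hsm z hz⟩)
    refine h1.trans (le_of_eq ?_)
    have e1 : (B : ℝ) / (B : ℝ) ^ η = (B : ℝ) ^ (1 - η) := by
      rw [div_eq_iff (by positivity), ← Real.rpow_add hB0]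
      norm_num
    calc Co * (X : ℝ) ^ ε * (X / (B : ℝ) ^ η) =
          Co * (h3 * (B : ℝ) ^ ε) * ((3 * H) * ((B : ℝ) / (B : ℝ) ^ η)) := by
          rw [hXε, hXr]
          ring
      _ = d3 * ((B : ℝ) ^ (1 - η) * (B : ℝ) ^ ε) := by rw [e1, hd3]; ring
      _ = _ := by rw [← Real.rpow_add hB0]
  have hcomb : ∀ F : Finset (Fin 3 → ℤ), ∀ x : Fin q, r ≠ x → s ≠ x → ∀ c d a₁ a₂ : ℝ, 0 ≤ c → 0 ≤ d →
      ((F.image (uv (ℓ r) (ℓ s))).card : ℝ) ≤ c * (B : ℝ) ^ a₁ →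
      ((F.image fun z => dot z (ℓ x)).card : ℝ) ≤ d * (B : ℝ) ^ a₂ → a₁ + a₂ ≤ 2 - η / 4 →
      (F.card : ℝ) ≤ c * d * (B : ℝ) ^ (2 - η / 4) := by
    intro F x hrx hsx c d a₁ a₂ hc hd h1 h2 ha
    exact (count3a (g.d r s x hrs hrx hsx).1 F).trans
      (mul_bd hB1 hc hd (Nat.cast_nonneg _) h1 h2 ha)
  -- the cover
  set P : Fin q × Fin q → (Fin 3 → ℤ) → Prop := fun y z => (r ≠ y.1 ∧ s ≠ y.1 ∧ y.2 ≠ y.1) ∧
    (((dot z (ℓ r)).natAbs : ℝ) ≤ (B : ℝ) ^ (1 - η) ∨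
    (((dot z (ℓ s)).natAbs : ℝ) ≤ (B : ℝ) ^ (1 - η) ∨
    (((dot z (ℓ y.1)).natAbs : ℝ) ≤ (B : ℝ) ^ (1 - η) ∨
    ((B : ℝ) ^ (1 + η) * (rd ((dot z (ℓ r)).natAbs * (dot z (ℓ s)).natAbs) : ℝ) ≤
        (((dot z (ℓ r)).natAbs * (dot z (ℓ s)).natAbs : ℕ) : ℝ) ∨
    ((B : ℝ) ^ η * (rd (dot z (ℓ y.1)).natAbs : ℝ) ≤ ((dot z (ℓ y.1)).natAbs : ℝ) ∨
    (B : ℝ) ^ η ≤ (((dot z (ℓ y.1)).natAbs.gcd (dot z (ℓ y.2)).natAbs : ℕ) : ℝ)))))) with hPdef
  obtain ⟨x₀, hrx₀, hsx₀⟩ : ∃ k : Fin q, r ≠ k ∧ s ≠ k := by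
    by_contra hcon
    push Not at hcon
    have h1 : (univ : Finset (Fin q)) ⊆ {r, s} := by
      intro k _
      rw [mem_insert, mem_singleton]
      by_cases h : r = k
      · exact Or.inl h.symm
      · exact Or.inr (hcon k h).symm
    have h2 := (Finset.card_le_card h1).trans Finset.card_le_two
    rw [Finset.card_univ, Fintype.card_fin] at h2
    omega
  have hcover : ∀ z ∈ T, ∃ y, P y z := by
    intro z hz
    obtain ⟨a1, a2, a3, a4, a5⟩ := hT z hz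
    by_cases hsmall : ∃ x, ((dot z (ℓ x)).natAbs : ℝ) ≤ (B : ℝ) ^ (1 - η)
    · obtain ⟨x, hx⟩ := hsmall
      by_cases hxr : r = x
      · subst hxr
        exact ⟨(x₀, r), ⟨hrx₀, hsx₀, hrx₀⟩, Or.inl hx⟩
      by_cases hxs : s = x
      · subst hxs
        exact ⟨(x₀, r), ⟨hrx₀, hsx₀, hrx₀⟩, Or.inr (Or.inl hx)⟩
      exact ⟨(x, r), ⟨hxr, hxs, hxr⟩, Or.inr (Or.inr (Or.inl hx))⟩
    push Not at hsmall
    set a : Fin q → ℕ := fun l => (dot z (ℓ l)).natAbs with ha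
    have ha0 : ∀ l, a l ≠ 0 := fun l => by simpa [ha] using a2 l
    have hprodrs : ∏ l ∈ ({r, s} : Finset (Fin q)), a l = a r * a s := Finset.prod_pair hrs
    have hbig1 : C₁ * (B : ℝ) ^ (1 + η + q * η + q * q * η) * (rd (∏ l, a l) : ℝ) ≤
        C₁ * ((∏ l, a l : ℕ) : ℝ) := by
      have e1 : (B : ℝ) ^ (q * (1 - η)) ≤ ((∏ l, a l : ℕ) : ℝ) := by
        push_cast
        calc (B : ℝ) ^ (q * (1 - η)) = ∏ _l : Fin q, (B : ℝ) ^ (1 - η) := by
              rw [Finset.prod_const, Finset.card_univ, Fintype.card_fin, ← Real.rpow_natCast,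
                ← Real.rpow_mul hB0.le]
              congr 1
              ring
          _ ≤ _ := Finset.prod_le_prod (fun _ _ => by positivity) fun l _ => (hsmall l).le
      have e2 : C₁ * (B : ℝ) ^ (1 + η + q * η + q * q * η) *
          (C₁ * (B : ℝ) ^ ((q : ℝ) - 1 - κ₀)) ≤ C₁ * (B : ℝ) ^ (q * (1 - η)) := by
        have e3 : C₁ * (B : ℝ) ^ (1 + η + q * η + q * q * η + ((q : ℝ) - 1 - κ₀)) ≤
            (B : ℝ) ^ (q * (1 - η)) := by
          calc C₁ * (B : ℝ) ^ (1 + η + q * η + q * q * η + ((q : ℝ) - 1 - κ₀)) ≤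
                (B : ℝ) ^ (κ₀ / 2) * (B : ℝ) ^ (1 + η + q * η + q * q * η + ((q : ℝ) - 1 - κ₀)) := by
                gcongr
            _ = (B : ℝ) ^ (κ₀ / 2 + (1 + η + q * η + q * q * η + ((q : ℝ) - 1 - κ₀))) := by
                rw [← Real.rpow_add hB0]
            _ ≤ _ := by
                refine Real.rpow_le_rpow_of_exponent_le hB1 ?_
                nlinarith
        calc C₁ * (B : ℝ) ^ (1 + η + q * η + q * q * η) * (C₁ * (B : ℝ) ^ ((q : ℝ) - 1 - κ₀)) =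
              C₁ * (C₁ * ((B : ℝ) ^ (1 + η + q * η + q * q * η) * (B : ℝ) ^ ((q : ℝ) - 1 - κ₀))) := by
              ring
          _ = C₁ * (C₁ * (B : ℝ) ^ (1 + η + q * η + q * q * η + ((q : ℝ) - 1 - κ₀))) := by
              rw [← Real.rpow_add hB0]
          _ ≤ C₁ * (B : ℝ) ^ (q * (1 - η)) := by gcongr
      calc C₁ * (B : ℝ) ^ (1 + η + q * η + q * q * η) * (rd (∏ l, a l) : ℝ) ≤
            C₁ * (B : ℝ) ^ (1 + η + q * η + q * q * η) * (C₁ * (B : ℝ) ^ ((q : ℝ) - 1 - κ₀)) := by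
            gcongr
        _ ≤ C₁ * (B : ℝ) ^ (q * (1 - η)) := e2
        _ ≤ _ := by gcongr
    have hbig2 : (B : ℝ) ^ (1 + η + q * η + q * q * η) * (rd (∏ l, a l) : ℝ) ≤
        ((∏ l, a l : ℕ) : ℝ) := by
      have hC₁0 : 0 < C₁ := by linarith
      rw [mul_assoc] at hbig1
      exact le_of_mul_le_mul_left hbig1 hC₁0
    have halt := alt a ha0 {r, s} (α := (B : ℝ) ^ (1 + η)) (β := (B : ℝ) ^ η)
      (γ := (B : ℝ) ^ η) (Real.one_le_rpow hB1 (by linarith)) (Real.one_le_rpow hB1 hη.le)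
      (Real.one_le_rpow hB1 hη.le) (Y0 := (B : ℝ) ^ (1 + η + q * η + q * q * η)) (by
        rw [← Real.rpow_natCast _ q, ← Real.rpow_natCast _ (q * q), ← Real.rpow_mul hB0.le,
          ← Real.rpow_mul hB0.le, ← Real.rpow_add hB0, ← Real.rpow_add hB0]
        refine Real.rpow_le_rpow_of_exponent_le hB1 ?_
        push_cast
        nlinarith) hbig2
    rcases halt with h | ⟨x, hx, h⟩ | ⟨x, hx, l, hl, h⟩
    · rw [hprodrs] at h
      exact ⟨(x₀, r), ⟨hrx₀, hsx₀, hrx₀⟩, Or.inr (Or.inr (Or.inr (Or.inl h)))⟩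
    · rw [mem_insert, mem_singleton, not_or] at hx
      exact ⟨(x, r), ⟨fun e => hx.1 e.symm, fun e => hx.2 e.symm, fun e => hx.1 e.symm⟩,
        Or.inr (Or.inr (Or.inr (Or.inr (Or.inl h))))⟩
    · rw [mem_insert, mem_singleton, not_or] at hx
      exact ⟨(x, l), ⟨fun e => hx.1 e.symm, fun e => hx.2 e.symm, hl⟩,
        Or.inr (Or.inr (Or.inr (Or.inr (Or.inr h))))⟩
  have hmain : ∀ y, ((T.filter (P y)).card : ℝ) ≤ CC * (B : ℝ) ^ (2 - η / 4) := by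
    intro y
    by_cases hy : r ≠ y.1 ∧ s ≠ y.1 ∧ y.2 ≠ y.1
    · obtain ⟨hy1, hy2, hy3⟩ := hy
      have h1 : ((T.filter (P y)).card : ℝ) ≤ c2 * d1 * (B : ℝ) ^ (2 - η / 4) +
          (c2 * d1 * (B : ℝ) ^ (2 - η / 4) + (c1 * d2 * (B : ℝ) ^ (2 - η / 4) +
          (c3 * d1 * (B : ℝ) ^ (2 - η / 4) + (c1 * d3 * (B : ℝ) ^ (2 - η / 4) +
            c1 * d4 * (B : ℝ) ^ (2 - η / 4))))) := by
        have e0 : T.filter (P y) = T.filter fun z =>
            (((dot z (ℓ r)).natAbs : ℝ) ≤ (B : ℝ) ^ (1 - η) ∨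
            (((dot z (ℓ s)).natAbs : ℝ) ≤ (B : ℝ) ^ (1 - η) ∨
            (((dot z (ℓ y.1)).natAbs : ℝ) ≤ (B : ℝ) ^ (1 - η) ∨
            ((B : ℝ) ^ (1 + η) * (rd ((dot z (ℓ r)).natAbs * (dot z (ℓ s)).natAbs) : ℝ) ≤
                (((dot z (ℓ r)).natAbs * (dot z (ℓ s)).natAbs : ℕ) : ℝ) ∨
            ((B : ℝ) ^ η * (rd (dot z (ℓ y.1)).natAbs : ℝ) ≤ ((dot z (ℓ y.1)).natAbs : ℝ) ∨
            (B : ℝ) ^ η ≤ (((dot z (ℓ y.1)).natAbs.gcd (dot z (ℓ y.2)).natAbs : ℕ) : ℝ)))))) := by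
          refine Finset.filter_congr fun z _ => ?_
          rw [hPdef]
          simp only [hy1, hy2, hy3, ne_eq, not_false_eq_true, and_self, true_and]
        rw [e0]
        refine filter_or_bd T _ _ ?_ (filter_or_bd T _ _ ?_ (filter_or_bd T _ _ ?_
          (filter_or_bd T _ _ ?_ (filter_or_bd T _ _ ?_ ?_))))
        · refine hcomb _ y.1 hy1 hy2 _ _ _ _ hc20.le hd10.le (hP2 _ (filter_subset _ _)
            fun z hz => (mem_filter.1 hz).2) (hM1 _ (filter_subset _ _) y.1) ?_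
          linarith
        · refine hcomb _ y.1 hy1 hy2 _ _ _ _ hc20.le hd10.le (hP2' _ (filter_subset _ _)
            fun z hz => (mem_filter.1 hz).2) (hM1 _ (filter_subset _ _) y.1) ?_
          linarith
        · refine hcomb _ y.1 hy1 hy2 _ _ _ _ hc10.le hd20.le (hP1 _ (filter_subset _ _))
            (hM2 _ (filter_subset _ _) y.1 fun z hz => (mem_filter.1 hz).2) ?_
          linarith
        · refine hcomb _ y.1 hy1 hy2 _ _ _ _ hc30.le hd10.le (hP3 _ (filter_subset _ _)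
            fun z hz => (mem_filter.1 hz).2) (hM1 _ (filter_subset _ _) y.1) ?_
          linarith
        · refine hcomb _ y.1 hy1 hy2 _ _ _ _ hc10.le hd30.le (hP1 _ (filter_subset _ _))
            (hM3 _ (filter_subset _ _) y.1 fun z hz => (mem_filter.1 hz).2) ?_
          linarith
        · set F := T.filter fun z =>
            (B : ℝ) ^ η ≤ (((dot z (ℓ y.1)).natAbs.gcd (dot z (ℓ y.2)).natAbs : ℕ) : ℝ) with hF
          have h4 := count3 (x := ℓ y.1) (g.d r s y.1 hrs hy1 hy2).1 F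
            (M := d4 * (B : ℝ) ^ (1 - η + ε)) (by
            intro z₀ hz₀
            set N : ℤ := dt z₀ (cr (ℓ r) (ℓ s)) (cr (ℓ y.1) (ℓ y.2)) with hN
            have hz₀' := hz₀
            rw [hF, mem_filter] at hz₀'
            obtain ⟨b1, b2, b3, b4, b5⟩ := hT z₀ hz₀'.1
            have hN0 : N ≠ 0 := by
              by_cases hyr : y.2 = r
              · rw [hN, dt_cr_cr, hyr]
                have e1 : dt (ℓ r) (ℓ y.1) (ℓ r) = 0 := by rw [dt_eq]; ring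
                rw [e1, mul_zero, zero_sub]
                exact neg_ne_zero.2 (mul_ne_zero (b2 r) (g.d s y.1 r hy2 hrs.symm hy1.symm).1)
              by_cases hys : y.2 = s
              · rw [hN, dt_cr_cr, hys]
                have e1 : dt (ℓ s) (ℓ y.1) (ℓ s) = 0 := by rw [dt_eq]; ring
                rw [e1, mul_zero, sub_zero]
                exact mul_ne_zero (b2 s) (g.d r y.1 s hy1 hrs hy2.symm).1
              · exact b3 r s y.1 y.2 hrs hy1 (fun e => hyr e.symm) hy2 (fun e => hys e.symm) hy3.symm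
            have h5 := hCd X N hN0 ((B : ℝ) ^ η) (by positivity)
              ((F.filter fun z => uv (ℓ r) (ℓ s) z = uv (ℓ r) (ℓ s) z₀).image
                fun z => dot z (ℓ y.1)) (by
              intro w hw
              obtain ⟨z, hz, rfl⟩ := mem_image.1 hw
              rw [mem_filter] at hz
              obtain ⟨hz1, hz2⟩ := hz
              rw [hF, mem_filter] at hz1
              simp only [uv, Prod.mk.injEq] at hz2
              refine ⟨(hT z hz1.1).2.1 y.1, hdX z hz1.1 y.1, _, hz1.2, ?_, ?_⟩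
              · exact Int.natCast_dvd.2 (Nat.gcd_dvd_left _ _)
              · have e1 : N = dt z (cr (ℓ r) (ℓ s)) (cr (ℓ y.1) (ℓ y.2)) := by
                  rw [hN, dt_cr_cr, dt_cr_cr, hz2.1, hz2.2]
                rw [e1]
                exact dvd_dt_right (cr_cr_dvd (Int.natCast_dvd.2 (Nat.gcd_dvd_left _ _))
                  (Int.natCast_dvd.2 (Nat.gcd_dvd_right _ _))))
            refine h5.trans ?_
            have h6 : (N.natAbs : ℝ) ≤ 24 * (H : ℝ) ^ 4 * B := by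
              have h7 := dtA_le g b1 r s y.1 y.2
              rw [Int.abs_eq_natAbs] at h7
              exact_mod_cast h7
            have e1 : (B : ℝ) / (B : ℝ) ^ η = (B : ℝ) ^ (1 - η) := by
              rw [div_eq_iff (by positivity), ← Real.rpow_add hB0]
              norm_num
            calc Cd * (N.natAbs : ℝ) ^ ε * (X / (B : ℝ) ^ η) ≤
                  Cd * (24 * (H : ℝ) ^ 4 * B) ^ ε * (X / (B : ℝ) ^ η) := by gcongr
              _ = Cd * ((24 * (H : ℝ) ^ 4) ^ ε * (B : ℝ) ^ ε) * ((3 * H) * ((B : ℝ) / (B : ℝ) ^ η)) := by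
                  rw [Real.mul_rpow (by positivity) hB0.le, hXr]
                  ring
              _ = d4 * ((B : ℝ) ^ (1 - η) * (B : ℝ) ^ ε) := by rw [e1, hd4]; ring
              _ = _ := by rw [← Real.rpow_add hB0])
          refine h4.trans ?_
          refine mul_bd hB1 hc10.le hd40.le (by positivity) (hP1 _ (filter_subset _ _)) le_rfl ?_
          linarith
      refine h1.trans (le_of_eq ?_)
      rw [hCC]
      ring
    · have e0 : T.filter (P y) = ∅ := by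
        refine Finset.filter_eq_empty_iff.2 fun z _ hz => ?_
        exact hy hz.1
      rw [e0, Finset.card_empty, Nat.cast_zero]
      positivity
  have hfinal := union_bd T P hcover hmain
  rw [Fintype.card_prod, Fintype.card_fin] at hfinal
  push_cast at hfinal
  calc (T.card : ℝ) ≤ q * q * (CC * (B : ℝ) ^ (2 - η / 4)) := hfinal
    _ = q * q * CC * (B : ℝ) ^ (2 - η / 4) := by ring
    _ ≤ _ := by
        refine mul_le_mul_of_nonneg_right ?_ (by positivity)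
        have : (0 : ℝ) ≤ (((2 * B₀ + 1) ^ 3 : ℕ) : ℝ) := Nat.cast_nonneg _
        linarith

end Pool.Agent.K4H9.PS
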