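import Pool.Agent.K4H9.PS.PA

set_option autoImplicit false

/-!
The points on lines with small coefficients, and the almost square pairs which come from a line
through a double point.
-/

namespace Pool.Agent.K4H9.PS

open Finset Pool.Agent.K4H9.PP

lemma gcd_perp {c : ℕ} {z Y a b : Fin 3 → ℤ} (hz : Cont c z) (hY : dot z Y = 0) {d : ℤ}
    (ha : d ∣ dot z a) (hb : d ∣ dot z b) : d ∣ (c : ℤ) * dt Y a b := by
  have h1 : ∀ k, d ∣ z k * dt Y a b := by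
    intro k
    have hc := cr_cr_dvd ha hb
    set A := cr a b with hA
    have e0 : dt Y a b = Y 0 * A 0 + Y 1 * A 1 + Y 2 * A 2 := rfl
    have eY : z 0 * Y 0 + z 1 * Y 1 + z 2 * Y 2 = 0 := hY
    have c0 := hc 0
    have c1 := hc 1
    have c2 := hc 2
    rw [cr_zero] at c0
    rw [cr_one] at c1
    rw [cr_two] at c2
    obtain ⟨x0, hx0⟩ := c0
    obtain ⟨x1, hx1⟩ := c1
    obtain ⟨x2, hx2⟩ := c2
    rw [e0]
    fin_cases k
    · refine ⟨Y 1 * x2 - Y 2 * x1, ?_⟩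
      simp only [Fin.zero_eta]
      linear_combination A 0 * eY + Y 1 * hx2 - Y 2 * hx1
    · refine ⟨Y 2 * x0 - Y 0 * x2, ?_⟩
      simp only [Fin.mk_one]
      linear_combination A 1 * eY + Y 2 * hx0 - Y 0 * hx2
    · refine ⟨Y 0 * x1 - Y 1 * x0, ?_⟩
      simp only [Fin.reduceFinMk]
      linear_combination A 2 * eY + Y 0 * hx1 - Y 1 * hx0
  obtain ⟨e, D, hD0, heD, hDz⟩ := bezout z hz.1
  have hDc : D ∣ (c : ℤ) := hz.2 D hDz
  have h2 : d ∣ D * dt Y a b := by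
    rw [← heD]
    have : dot e z * dt Y a b = e 0 * (z 0 * dt Y a b) + e 1 * (z 1 * dt Y a b) +
        e 2 * (z 2 * dt Y a b) := by
      unfold dot
      ring
    rw [this]
    exact dvd_add (dvd_add (Dvd.dvd.mul_left (h1 0) _) (Dvd.dvd.mul_left (h1 1) _))
      (Dvd.dvd.mul_left (h1 2) _)
  exact h2.trans (mul_dvd_mul_right hDc _)

lemma par_of {Y : Fin 3 → ℤ} (hY : Cont 1 Y) {w : Fin 3 → ℤ} (hw : ∀ k, cr Y w k = 0) :
    ∃ g : ℤ, ∀ k, w k = g * Y k := by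
  obtain ⟨a, D, hD, haD, hDz⟩ := bezout Y hY.1
  have hD1 : D ∣ ((1 : ℕ) : ℤ) := hY.2 D hDz
  have hD2 : D * D = 1 := by
    have h1 : D ∣ 1 := by exact_mod_cast hD1
    exact Int.isUnit_mul_self (isUnit_of_dvd_one h1)
  have e0 := hw 0
  have e1 := hw 1
  have e2 := hw 2
  rw [cr_zero] at e0
  rw [cr_one] at e1
  rw [cr_two] at e2
  have hd : D = a 0 * Y 0 + a 1 * Y 1 + a 2 * Y 2 := haD.symm
  have h2 : ∀ k, D * w k = Y k * dot a w := by
    intro k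
    unfold dot
    rw [hd]
    fin_cases k
    · simp only [Fin.zero_eta]; linear_combination -(a 1) * e2 + a 2 * e1
    · simp only [Fin.mk_one]; linear_combination (a 0) * e2 - a 2 * e0
    · simp only [Fin.reduceFinMk]; linear_combination -(a 0) * e1 + a 1 * e0
  refine ⟨D * dot a w, fun k => ?_⟩
  have h3 := h2 k
  linear_combination -(w k) * hD2 + D * h3

variable {q : ℕ} {ℓ : Fin q → Fin 3 → ℤ} {Θ H : ℕ}

lemma as_of (g : GP ℓ Θ H) {r s : Fin q} (hrs : r ≠ s) {k₀ : Fin 3}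
    {m : Fin q → ℕ} (hm0 : ∏ l, m l ≠ 0)
    (hsq : ∀ p : ℕ, p.Prime → p ∣ ∏ l, m l → p ^ 2 ∣ ∏ l, m l) {t : ℕ} (ht : 1 ≤ t)
    {Y : Fin 3 → ℤ} (hY : Cont 1 Y) (hd : ∀ l k, (m l : ℤ) ∣ t * cr Y (ℓ l) k)
    (h0 : dt Y (ℓ r) (ℓ s) = 0) {z : Fin 3 → ℤ} (hz : dot z Y = 0) {Q : ℝ}
    (hQ : ((t * nm Y : ℕ) : ℝ) < Q * (rd (∏ l, m l) : ℝ)) :
    AS (cr (ℓ r) (ℓ s) k₀).natAbs ((2 * H * (Q * Θ)) ^ 2) (dot z (ℓ r)).natAbs
      (dot z (ℓ s)).natAbs := by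
  classical
  obtain ⟨S, hS1, hS2, hS3, hS4⟩ := s_of g hm0 hsq ht hY hd
  obtain ⟨τ, hτ1, hτ2⟩ := exists_tup (by have := g.q3; omega) hS1 hS4
  have hl1 : ∀ l, l ≠ r → l ≠ s → τ l = 1 := by
    intro l hli hlj
    by_contra hne
    obtain ⟨p, hp, hpt⟩ := Nat.exists_prime_and_dvd hne
    have hps : p ∣ S := by
      rw [← hτ1]
      exact hpt.trans (Finset.dvd_prod_of_mem τ (mem_univ l))
    have hpΘ : ¬ p ∣ Θ := fun h' => hp.one_lt.ne' (Nat.dvd_one.1 (hS2 ▸ Nat.dvd_gcd hps h'))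
    have h1 : ∀ k, (p : ℤ) ∣ cr Y (ℓ l) k := fun k =>
      (Dvd.intro _ (sq (p : ℤ)).symm).trans (hτ2 l p hp hpt k)
    apply hY.prime hp
    intro k
    have h2 := dvd_of_dt h1 h0 k
    have hp' : Prime (p : ℤ) := Nat.prime_iff_prime_int.1 hp
    exact (hp'.dvd_or_dvd h2).resolve_right (g.not_dvd_d hpΘ hli hlj hrs)
  have hprod : τ r * τ s = S := by
    rw [← hτ1]
    have h2 : ∏ l, τ l = ∏ l ∈ ({r, s} : Finset (Fin q)), τ l := by
      symm
      refine Finset.prod_subset (subset_univ _) fun l _ hl => ?_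
      rw [mem_insert, mem_singleton, not_or] at hl
      exact hl1 l hl.1 hl.2
    rw [h2, Finset.prod_pair hrs]
  have hsqr : ∀ l, Squarefree (τ l) := fun l => hS1.squarefree_of_dvd
    (hτ1 ▸ Finset.dvd_prod_of_mem τ (mem_univ l))
  have hdr : ∀ l, ((τ l : ℕ) : ℤ) ^ 2 ∣ cr Y (ℓ l) k₀ := fun l =>
    sqf_dvd (hsqr l) 2 fun p hp hpt => hτ2 l p hp hpt k₀
  -- the vector `z × A`
  set A := cr (ℓ r) (ℓ s) with hA
  set u := dot z (ℓ r) with hu
  set v := dot z (ℓ s) with hv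
  have hw : ∀ k, cr z A k = ℓ r k * v - ℓ s k * u := by
    intro k
    fin_cases k
    · change cr z (cr (ℓ r) (ℓ s)) 0 = ℓ r 0 * _ - ℓ s 0 * _
      simp only [cr_zero, cr_one, cr_two, hu, hv, dot]; ring
    · change cr z (cr (ℓ r) (ℓ s)) 1 = ℓ r 1 * _ - ℓ s 1 * _
      simp only [cr_zero, cr_one, cr_two, hu, hv, dot]; ring
    · change cr z (cr (ℓ r) (ℓ s)) 2 = ℓ r 2 * _ - ℓ s 2 * _
      simp only [cr_zero, cr_one, cr_two, hu, hv, dot]; ring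
  have hAY : Y 0 * A 0 + Y 1 * A 1 + Y 2 * A 2 = 0 := h0
  have hzY : z 0 * Y 0 + z 1 * Y 1 + z 2 * Y 2 = 0 := hz
  have hpar : ∀ k, cr Y (cr z A) k = 0 := by
    intro k
    fin_cases k
    · change cr Y (cr z A) 0 = 0
      simp only [cr_zero, cr_one, cr_two]
      linear_combination z 0 * hAY - A 0 * hzY
    · change cr Y (cr z A) 1 = 0
      simp only [cr_zero, cr_one, cr_two]
      linear_combination z 1 * hAY - A 1 * hzY
    · change cr Y (cr z A) 2 = 0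
      simp only [cr_zero, cr_one, cr_two]
      linear_combination z 2 * hAY - A 2 * hzY
  obtain ⟨γ, hγ⟩ := par_of hY hpar
  have hgY : ∀ k, γ * Y k = ℓ r k * v - ℓ s k * u := fun k => by rw [← hγ k, hw k]
  have e1 : γ * cr Y (ℓ r) k₀ = u * A k₀ := by
    have g0 := hgY 0
    have g1 := hgY 1
    have g2 := hgY 2
    fin_cases k₀
    · change γ * cr Y (ℓ r) 0 = u * cr (ℓ r) (ℓ s) 0
      rw [cr_zero, cr_zero]
      linear_combination ℓ r 2 * g1 - ℓ r 1 * g2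
    · change γ * cr Y (ℓ r) 1 = u * cr (ℓ r) (ℓ s) 1
      rw [cr_one, cr_one]
      linear_combination ℓ r 0 * g2 - ℓ r 2 * g0
    · change γ * cr Y (ℓ r) 2 = u * cr (ℓ r) (ℓ s) 2
      rw [cr_two, cr_two]
      linear_combination ℓ r 1 * g0 - ℓ r 0 * g1
  have e2 : γ * cr Y (ℓ s) k₀ = v * A k₀ := by
    have g0 := hgY 0
    have g1 := hgY 1
    have g2 := hgY 2
    fin_cases k₀
    · change γ * cr Y (ℓ s) 0 = v * cr (ℓ r) (ℓ s) 0
      rw [cr_zero, cr_zero]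
      linear_combination ℓ s 2 * g1 - ℓ s 1 * g2
    · change γ * cr Y (ℓ s) 1 = v * cr (ℓ r) (ℓ s) 1
      rw [cr_one, cr_one]
      linear_combination ℓ s 0 * g2 - ℓ s 2 * g0
    · change γ * cr Y (ℓ s) 2 = v * cr (ℓ r) (ℓ s) 2
      rw [cr_two, cr_two]
      linear_combination ℓ s 1 * g0 - ℓ s 0 * g1
  obtain ⟨u', hu'⟩ := hdr r
  obtain ⟨v', hv'⟩ := hdr s
  refine ⟨γ.natAbs, τ r, τ s, u'.natAbs, v'.natAbs, ?_, ?_, ?_⟩
  · rw [hu'] at e1
    have h1 := congrArg Int.natAbs e1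
    simp only [Int.natAbs_mul, Int.natAbs_pow, Int.natAbs_natCast] at h1
    rw [mul_comm (A k₀).natAbs, ← h1]
    ring
  · rw [hv'] at e2
    have h1 := congrArg Int.natAbs e2
    simp only [Int.natAbs_mul, Int.natAbs_pow, Int.natAbs_natCast] at h1
    rw [mul_comm (A k₀).natAbs, ← h1]
    ring
  · have hS0 : (0 : ℝ) < S := by exact_mod_cast Nat.pos_of_ne_zero hS1.ne_zero
    have ht0 : (0 : ℝ) < t := by exact_mod_cast ht
    have hR0 : (0 : ℝ) < (rd (∏ l, m l) : ℝ) := by exact_mod_cast rd_pos _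
    have hQ0 : 0 ≤ Q := by
      have h1 : (0 : ℝ) < Q * (rd (∏ l, m l) : ℝ) := lt_of_le_of_lt (Nat.cast_nonneg _) hQ
      exact ((mul_pos_iff_of_pos_right hR0).1 h1).le
    have hS3' : (rd (∏ l, m l) : ℝ) ≤ S * t * Θ := by exact_mod_cast hS3
    have hnm : (nm Y : ℝ) ≤ Q * Θ * S := by
      have h3 : (t : ℝ) * nm Y ≤ t * (Q * Θ * S) := by
        calc (t : ℝ) * nm Y = ((t * nm Y : ℕ) : ℝ) := by push_cast; ring
          _ ≤ Q * (rd (∏ l, m l) : ℝ) := hQ.le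
          _ ≤ Q * (S * t * Θ) := by gcongr
          _ = _ := by ring
      exact le_of_mul_le_mul_left h3 ht0
    have hbd : ∀ l, ∀ w' : ℤ, cr Y (ℓ l) k₀ = ((τ l : ℕ) : ℤ) ^ 2 * w' →
        ((τ l : ℝ) ^ 2 * (w'.natAbs : ℝ)) ≤ 2 * H * nm Y := by
      intro l w' hw'
      have h1 := cr_le g (Y := Y) (Z := nm Y) (abs_le_nm Y) l k₀
      rw [hw', Int.abs_eq_natAbs, Int.natAbs_mul, Int.natAbs_pow, Int.natAbs_natCast] at h1
      exact_mod_cast h1
    have h1 := hbd r u' hu'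
    have h2 := hbd s v' hv'
    have h3 : ((u'.natAbs * v'.natAbs : ℕ) : ℝ) * (S : ℝ) ^ 2 ≤
        (2 * H * (Q * Θ)) ^ 2 * (S : ℝ) ^ 2 := by
      calc ((u'.natAbs * v'.natAbs : ℕ) : ℝ) * (S : ℝ) ^ 2 =
            ((τ r : ℝ) ^ 2 * (u'.natAbs : ℝ)) * ((τ s : ℝ) ^ 2 * (v'.natAbs : ℝ)) := by
            rw [← hprod]
            push_cast
            ring
        _ ≤ (2 * H * (nm Y : ℝ)) * (2 * H * (nm Y : ℝ)) :=
            mul_le_mul h1 h2 (by positivity) (by positivity)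
        _ ≤ (2 * H * (Q * Θ * S)) * (2 * H * (Q * Θ * S)) := by gcongr
        _ = _ := by ring
    exact le_of_mul_le_mul_right h3 (by positivity)

theorem partB (g : GP ℓ Θ H) {c : ℕ} (hc : 1 ≤ c) {κ₀ η θ : ℝ} (hη : 0 < η) (hθ : 0 < θ)
    (h12 : 12 * θ ≤ η) (hκ : 4 * ((q : ℝ) + 1) ^ 2 * η ≤ κ₀) (hκ1 : κ₀ ≤ 1) {C₁ : ℝ}
    (hC₁ : 1 ≤ C₁) :
    ∃ C : ℝ, 0 < C ∧ ∀ B : ℕ, 1 ≤ B → ∀ T : Finset (Fin 3 → ℤ), (∀ z ∈ T, Cont c z ∧
      (∀ k, |z k| ≤ B) ∧ (∀ l, dot z (ℓ l) ≠ 0) ∧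
      (B : ℝ) ^ (κ₀ / 2) * (rd (∏ l, (dot z (ℓ l)).natAbs) : ℝ) ≤
        C₁ * ((∏ l, (dot z (ℓ l)).natAbs : ℕ) : ℝ) ∧
      ∃ Y : Fin 3 → ℤ, (nm Y : ℝ) ≤ (B : ℝ) ^ θ ∧ dot z Y = 0 ∧ (∀ l, cr Y (ℓ l) ≠ 0) ∧
        ∀ i j, i ≠ j → dt Y (ℓ i) (ℓ j) ≠ 0) →
      (T.card : ℝ) ≤ C * (B : ℝ) ^ (2 - η / 2) := by
  classical
  have hq3 := g.q3
  have hq3' : (3 : ℝ) ≤ q := by exact_mod_cast hq3
  have hH := g.H1
  have hHr : (1 : ℝ) ≤ H := by exact_mod_cast hH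
  have hcr : (1 : ℝ) ≤ c := by exact_mod_cast hc
  set ε : ℝ := η / 32 with hε
  have hε0 : 0 < ε := by positivity
  have hη1' : η ≤ 1 := by nlinarith
  have hκ0 : 0 < κ₀ := lt_of_lt_of_le (by positivity) hκ
  obtain ⟨Co, hCo0, hCo⟩ := card_one hε0
  obtain ⟨B₀, hB₀1, hB₀⟩ := big (a := κ₀ / 4) (by linarith) (2 * C₁)
  obtain ⟨B₁, hB₁1, hB₁⟩ := big (a := θ) hθ (6 * c * H ^ 2 + 1)
  set h3 : ℝ := (3 * (H : ℝ)) ^ ε with hh3
  have hh30 : 0 < h3 := by positivity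
  set BB := max B₀ B₁ with hBB
  refine ⟨27 * (3 * q) * (Co * h3 * (3 * H)) * 3 + ((2 * BB + 1) ^ 3 : ℕ), by positivity,
    fun B hB T hT => ?_⟩
  have hB1 : (1 : ℝ) ≤ B := by exact_mod_cast hB
  have hB0 : (0 : ℝ) < B := by linarith
  have hBe : (1 : ℝ) ≤ (B : ℝ) ^ (2 - η / 2) := Real.one_le_rpow hB1 (by linarith)
  rcases lt_or_ge B BB with hlt | hge
  · have h1 : T.card ≤ (2 * BB + 1) ^ 3 := by
      refine box_card T fun z hz k => ((hT z hz).2.1 k).trans ?_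
      exact_mod_cast hlt.le
    have h2 : (T.card : ℝ) ≤ (((2 * BB + 1) ^ 3 : ℕ) : ℝ) := by exact_mod_cast h1
    have h4 : (0 : ℝ) ≤ 27 * (3 * q) * (Co * h3 * (3 * H)) * 3 := by positivity
    calc (T.card : ℝ) ≤ (((2 * BB + 1) ^ 3 : ℕ) : ℝ) * 1 := by linarith
      _ ≤ _ := mul_le_mul (by linarith) hBe zero_le_one (by positivity)
  have hbig0 := hB₀ B ((le_max_left _ _).trans hge)
  have hbig1 := hB₁ B ((le_max_right _ _).trans hge)
  set X : ℕ := 3 * H * B with hX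
  have hX1 : 1 ≤ X := by
    have : 0 < 3 * H * B := by positivity
    exact this
  have hXr : (X : ℝ) = 3 * H * B := by rw [hX]; push_cast; ring
  have hXε : (X : ℝ) ^ ε = h3 * (B : ℝ) ^ ε := by
    rw [hXr, Real.mul_rpow (by positivity) hB0.le]
  have hdX : ∀ z ∈ T, ∀ l, (dot z (ℓ l)).natAbs ≤ X := fun z hz l => dot_le g (hT z hz).2.1 l
  -- the index
  have hex : ∀ z ∈ T, ∃ Y : Fin 3 → ℤ, ∃ x : Fin q, ∃ k : Fin 3, (nm Y : ℝ) ≤ (B : ℝ) ^ θ ∧
      dot z Y = 0 ∧ cr Y (ℓ x) k ≠ 0 ∧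
      (B : ℝ) ^ η * (rd (dot z (ℓ x)).natAbs : ℝ) ≤ ((dot z (ℓ x)).natAbs : ℝ) := by
    intro z hz
    obtain ⟨a1, a2, a3, a4, Y, a5, a6, a7, a8⟩ := hT z hz
    set a : Fin q → ℕ := fun l => (dot z (ℓ l)).natAbs with ha
    have ha0 : ∀ l, a l ≠ 0 := fun l => by simpa [ha] using a3 l
    have hC₁0 : 0 < C₁ := by linarith
    have halt := alt a ha0 ∅ (α := 2) (β := (B : ℝ) ^ η)
      (γ := (B : ℝ) ^ (2 * θ)) (by norm_num) (Real.one_le_rpow hB1 hη.le)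
      (Real.one_le_rpow hB1 (by linarith)) (Y0 := (B : ℝ) ^ (κ₀ / 2) / C₁) (by
        rw [le_div_iff₀ hC₁0, ← Real.rpow_natCast _ q, ← Real.rpow_natCast _ (q * q),
          ← Real.rpow_mul hB0.le, ← Real.rpow_mul hB0.le]
        calc 2 * (B : ℝ) ^ (η * (q : ℝ)) * (B : ℝ) ^ (2 * θ * ((q * q : ℕ) : ℝ)) * C₁ =
              (2 * C₁) * ((B : ℝ) ^ (η * (q : ℝ)) * (B : ℝ) ^ (2 * θ * ((q * q : ℕ) : ℝ))) := by ring
          _ ≤ (B : ℝ) ^ (κ₀ / 4) * ((B : ℝ) ^ (η * (q : ℝ)) * (B : ℝ) ^ (2 * θ * ((q * q : ℕ) : ℝ))) := by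
              gcongr
          _ = (B : ℝ) ^ (κ₀ / 4 + (η * (q : ℝ) + 2 * θ * ((q * q : ℕ) : ℝ))) := by
              rw [← Real.rpow_add hB0, ← Real.rpow_add hB0]
          _ ≤ _ := by
              refine Real.rpow_le_rpow_of_exponent_le hB1 ?_
              push_cast
              have e1 : 2 * θ * ((q : ℝ) * q) ≤ η * (q * q) := by
                have : (0 : ℝ) ≤ (q : ℝ) * q := by positivity
                nlinarith
              nlinarith) (by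
        rw [div_mul_eq_mul_div, div_le_iff₀ hC₁0]
        linarith)
    rcases halt with h | ⟨x, hx, h⟩ | ⟨x, hx, l, hl, h⟩
    · exfalso
      rw [Finset.prod_empty] at h
      have : rd 1 = 1 := by simp [rd]
      rw [this] at h
      norm_num at h
    · obtain ⟨k, hk⟩ : ∃ k, cr Y (ℓ x) k ≠ 0 := by
        by_contra hcon
        push Not at hcon
        exact a7 x (funext hcon)
      exact ⟨Y, x, k, a5, a6, hk, h⟩
    · exfalso
      set d := (a x).gcd (a l) with hd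
      have h1 : (d : ℤ) ∣ (c : ℤ) * dt Y (ℓ x) (ℓ l) :=
        gcd_perp a1 a6 (Int.natCast_dvd.2 (Nat.gcd_dvd_left _ _))
          (Int.natCast_dvd.2 (Nat.gcd_dvd_right _ _))
      have h2 : (c : ℤ) * dt Y (ℓ x) (ℓ l) ≠ 0 :=
        mul_ne_zero (by exact_mod_cast (by omega : c ≠ 0)) (a8 x l hl.symm)
      have h4 : (d : ℤ) ≤ c * (6 * H ^ 2 * nm Y) := by
        have h5 := Int.le_of_dvd (abs_pos.2 h2) ((dvd_abs _ _).2 h1)
        rw [abs_mul, abs_of_nonneg (Int.natCast_nonneg c)] at h5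
        exact h5.trans (mul_le_mul_of_nonneg_left (dt_le g (abs_le_nm Y) x l)
          (Int.natCast_nonneg c))
      have h5 : (d : ℝ) ≤ c * (6 * H ^ 2 * nm Y) := by exact_mod_cast h4
      have h6 : (B : ℝ) ^ (2 * θ) = (B : ℝ) ^ θ * (B : ℝ) ^ θ := by
        rw [← Real.rpow_add hB0]
        congr 1
        ring
      have hBθ : 0 < (B : ℝ) ^ θ := by positivity
      have h7 : (d : ℝ) ≤ (6 * c * H ^ 2) * (B : ℝ) ^ θ := by
        calc (d : ℝ) ≤ c * (6 * H ^ 2 * nm Y) := h5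
          _ ≤ c * (6 * H ^ 2 * (B : ℝ) ^ θ) := by gcongr
          _ = _ := by ring
      rw [h6] at h
      nlinarith
  have hFin : Nonempty (Fin q) := ⟨⟨0, by omega⟩⟩
  choose! Y x k h1 h2 h3' h4 using hex
  set N : ℕ := ⌊(B : ℝ) ^ θ⌋₊ with hN
  have hNr : (N : ℝ) ≤ (B : ℝ) ^ θ := Nat.floor_le (by positivity)
  set Ω : Finset ℤ := (Finset.Icc (-(X : ℤ)) (X : ℤ)).filter fun w => w ≠ 0 ∧
    (B : ℝ) ^ η * (rd w.natAbs : ℝ) ≤ (w.natAbs : ℝ) with hΩ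
  have hΩc := hCo X hX1 ((B : ℝ) ^ η) (by positivity) Ω (by
    intro w hw
    rw [hΩ, mem_filter, Finset.mem_Icc] at hw
    refine ⟨hw.2.1, ?_, hw.2.2⟩
    omega)
  have hinj : T.card ≤ ((Fintype.piFinset fun _ : Fin 3 => Finset.Icc (-(N : ℤ)) (N : ℤ)) ×ˢ
      ((univ : Finset (Fin q)) ×ˢ (univ : Finset (Fin 3))) ×ˢ Ω ×ˢ
        Finset.Icc (-(B : ℤ)) (B : ℤ)).card := by
    refine Finset.card_le_card_of_injOn
      (fun z => (Y z, (x z, k z), dot z (ℓ (x z)), z (k z))) ?_ ?_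
    · intro z hz
      rw [Finset.mem_coe] at hz
      obtain ⟨a1, a2, a3, -⟩ := hT z hz
      rw [Finset.mem_coe, mem_product, mem_product, mem_product, mem_product]
      dsimp only
      refine ⟨?_, ⟨mem_univ _, mem_univ _⟩, ?_, ?_⟩
      · rw [Fintype.mem_piFinset]
        intro j
        rw [Finset.mem_Icc]
        have e1 : nm (Y z) ≤ N := Nat.le_floor (h1 z hz)
        have e2 := natAbs_le_nm (Y z) j
        omega
      · rw [hΩ, mem_filter, Finset.mem_Icc]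
        have := hdX z hz (x z)
        refine ⟨by omega, a3 _, h4 z hz⟩
      · rw [Finset.mem_Icc]
        exact abs_le.1 (a2 (k z))
    · intro z hz z' hz' h
      rw [Finset.mem_coe] at hz hz'
      simp only [Prod.mk.injEq] at h
      obtain ⟨b1, ⟨b2, b3⟩, b4, b5⟩ := h
      have c1 := h2 z hz
      have c2 := h2 z' hz'
      have c3 := h3' z hz
      rw [← b1] at c2
      rw [← b2] at b4
      rw [← b3] at b5
      have hdt : dt (Y z) (ℓ (x z)) (Pi.single (k z) 1) ≠ 0 := by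
        have : dt (Y z) (ℓ (x z)) (Pi.single (k z) 1) = cr (Y z) (ℓ (x z)) (k z) := by
          generalize k z = j
          fin_cases j
          · change _ = cr _ _ 0
            rw [dt_eq, cr_zero]
            simp [Pi.single_apply]
            ring
          · change _ = cr _ _ 1
            rw [dt_eq, cr_one]
            simp [Pi.single_apply]
            ring
          · change _ = cr _ _ 2
            rw [dt_eq, cr_two]
            simp [Pi.single_apply]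
            ring
        rw [this]
        exact c3
      refine zz_inj hdt ?_
      have hsing : ∀ (y : Fin 3 → ℤ) (j : Fin 3), dot y (Pi.single j 1) = y j := by
        intro y j
        fin_cases j <;> simp [dot, Pi.single_apply]
      funext j
      fin_cases j
      · exact c1.trans c2.symm
      · exact b4
      · change dot z (Pi.single (k z) 1) = dot z' (Pi.single (k z) 1)
        rw [hsing, hsing]
        exact b5
  rw [Finset.card_product, Finset.card_product, Finset.card_product, Finset.card_product,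
    Fintype.card_piFinset_const, Int.card_Icc, Finset.card_univ, Finset.card_univ,
    Fintype.card_fin, Fintype.card_fin, Int.card_Icc] at hinj
  have eN : ((N : ℤ) + 1 - -(N : ℤ)).toNat = 2 * N + 1 := by omega
  have eB : ((B : ℤ) + 1 - -(B : ℤ)).toNat = 2 * B + 1 := by omega
  rw [eN, eB] at hinj
  have hinj' : (T.card : ℝ) ≤ ((2 * N + 1) ^ 3 : ℝ) * (((q : ℝ) * 3) * ((Ω.card : ℝ) * (2 * B + 1))) := by
    exact_mod_cast hinj
  have hBθ1 : 1 ≤ (B : ℝ) ^ θ := Real.one_le_rpow hB1 hθ.le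
  have e1 : (B : ℝ) / (B : ℝ) ^ η = (B : ℝ) ^ (1 - η) := by
    rw [div_eq_iff (by positivity), ← Real.rpow_add hB0]
    norm_num
  have hΩc' : (Ω.card : ℝ) ≤ Co * h3 * (3 * H) * (B : ℝ) ^ (1 - η + ε) := by
    refine hΩc.trans (le_of_eq ?_)
    calc Co * (X : ℝ) ^ ε * (X / (B : ℝ) ^ η) =
          Co * (h3 * (B : ℝ) ^ ε) * ((3 * H) * ((B : ℝ) / (B : ℝ) ^ η)) := by
          rw [hXε, hXr]
          ring
      _ = Co * h3 * (3 * H) * ((B : ℝ) ^ (1 - η) * (B : ℝ) ^ ε) := by rw [e1]; ring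
      _ = _ := by rw [← Real.rpow_add hB0]
  have hN3 : ((2 * N + 1) ^ 3 : ℝ) ≤ 27 * (B : ℝ) ^ (3 * θ) := by
    have e2 : (2 * N + 1 : ℝ) ≤ 3 * (B : ℝ) ^ θ := by linarith
    calc ((2 * N + 1) ^ 3 : ℝ) ≤ (3 * (B : ℝ) ^ θ) ^ 3 := pow_le_pow_left₀ (by positivity) e2 3
      _ = 27 * ((B : ℝ) ^ θ) ^ 3 := by ring
      _ = _ := by
          rw [← Real.rpow_natCast ((B : ℝ) ^ θ) 3, ← Real.rpow_mul hB0.le]
          congr 2
          push_cast
          ring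
  calc (T.card : ℝ) ≤ ((2 * N + 1) ^ 3 : ℝ) * (((q : ℝ) * 3) * ((Ω.card : ℝ) * (2 * B + 1))) := hinj'
    _ ≤ (27 * (B : ℝ) ^ (3 * θ)) * (((q : ℝ) * 3) *
          ((Co * h3 * (3 * H) * (B : ℝ) ^ (1 - η + ε)) * (3 * B))) := by
        have : (2 * B + 1 : ℝ) ≤ 3 * B := by linarith
        gcongr
    _ = 27 * (3 * q) * (Co * h3 * (3 * H)) * 3 *
          ((B : ℝ) ^ (3 * θ) * (B : ℝ) ^ (1 - η + ε) * (B : ℝ) ^ (1 : ℝ)) := by
        rw [Real.rpow_one]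
        ring
    _ = 27 * (3 * q) * (Co * h3 * (3 * H)) * 3 * (B : ℝ) ^ (3 * θ + (1 - η + ε) + 1) := by
        rw [← Real.rpow_add hB0, ← Real.rpow_add hB0]
    _ ≤ 27 * (3 * q) * (Co * h3 * (3 * H)) * 3 * (B : ℝ) ^ (2 - η / 2) := by
        refine mul_le_mul_of_nonneg_left ?_ (by positivity)
        refine Real.rpow_le_rpow_of_exponent_le hB1 ?_
        linarith
    _ ≤ _ := by
        refine mul_le_mul_of_nonneg_right ?_ (by positivity)
        have : (0 : ℝ) ≤ (((2 * BB + 1) ^ 3 : ℕ) : ℝ) := Nat.cast_nonneg _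
        linarith

end Pool.Agent.K4H9.PS
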