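import Pool.Agent.K4H9.PP.Red
import Pool.Agent.K4H9.PS.G4

set_option autoImplicit false

/-!
The radical of a product, and the radical of a minimal tuple off the special lines.
-/

namespace Pool.Agent.K4H9.PS

open Finset Pool.Agent.K4H9.PP

lemma rd_mul_eq {a b : ℕ} (ha : a ≠ 0) (hb : b ≠ 0) :
    rd a * rd b = rd (a * b) * ∏ p ∈ a.primeFactors ∩ b.primeFactors, p := by
  classical
  unfold rd
  rw [Nat.primeFactors_mul ha hb, Finset.prod_union_inter]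

lemma inter_le {q : ℕ} (a : Fin q → ℕ) (ha : ∀ l, a l ≠ 0) (x : Fin q) (u : Finset (Fin q))
    (hx : x ∉ u) : ∏ p ∈ (a x).primeFactors ∩ (∏ l ∈ u, a l).primeFactors, p ≤
      ∏ l ∈ univ.erase x, (a x).gcd (a l) := by
  classical
  set N := ∏ p ∈ (a x).primeFactors ∩ (∏ l ∈ u, a l).primeFactors, p with hN
  have hNrd : N ∣ rd (a x) := by
    rw [hN]
    exact Finset.prod_dvd_prod_of_subset _ _ _ inter_subset_left
  have hNsq : Squarefree N := (rd_squarefree _).squarefree_of_dvd hNrd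
  have hpos : 0 < ∏ l ∈ univ.erase x, (a x).gcd (a l) :=
    Finset.prod_pos fun l _ => Nat.gcd_pos_of_pos_left _ (Nat.pos_of_ne_zero (ha x))
  refine Nat.le_of_dvd hpos ?_
  have h1 : ((N : ℕ) : ℤ) ^ 1 ∣ ((∏ l ∈ univ.erase x, (a x).gcd (a l) : ℕ) : ℤ) := by
    refine sqf_dvd hNsq 1 fun p hp hpN => ?_
    rw [pow_one]
    obtain ⟨r, hr, hpr⟩ := (hp.prime.dvd_finsetProd_iff _).1 hpN
    rw [mem_inter] at hr
    have he := (Nat.prime_dvd_prime_iff_eq hp (Nat.prime_of_mem_primeFactors hr.1)).1 hpr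
    subst he
    have h2 := Nat.dvd_of_mem_primeFactors hr.1
    obtain ⟨l, hl, hpl⟩ := (hp.prime.dvd_finsetProd_iff _).1 (Nat.dvd_of_mem_primeFactors hr.2)
    have h3 : l ∈ univ.erase x := mem_erase.2 ⟨fun h => hx (h ▸ hl), mem_univ l⟩
    have h4 : p ∣ (a x).gcd (a l) := Nat.dvd_gcd h2 hpl
    exact Int.natCast_dvd_natCast.2 (h4.trans (Finset.dvd_prod_of_mem (fun l => (a x).gcd (a l)) h3))
  rw [pow_one] at h1
  exact_mod_cast h1

lemma rad_split {q : ℕ} (a : Fin q → ℕ) (ha : ∀ l, a l ≠ 0) (t s : Finset (Fin q))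
    (hd : Disjoint t s) : rd (∏ l ∈ t, a l) * ∏ x ∈ s, rd (a x) ≤
      rd (∏ l ∈ t ∪ s, a l) * ∏ x ∈ s, ∏ l ∈ univ.erase x, (a x).gcd (a l) := by
  classical
  induction s using Finset.induction_on with
  | empty => simp
  | insert x s hx ih =>
    rw [Finset.disjoint_insert_right] at hd
    have h1 := ih hd.2
    have hxu : x ∉ t ∪ s := by
      rw [mem_union, not_or]
      exact ⟨hd.1, hx⟩
    have hprod : ∏ l ∈ t ∪ s, a l ≠ 0 := Finset.prod_ne_zero_iff.2 fun l _ => ha l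
    rw [Finset.prod_insert hx, Finset.prod_insert hx, Finset.union_insert, Finset.prod_insert hxu]
    have h2 := rd_mul_eq (ha x) hprod
    have h3 := inter_le a ha x (t ∪ s) hxu
    calc rd (∏ l ∈ t, a l) * (rd (a x) * ∏ x ∈ s, rd (a x)) =
          rd (a x) * (rd (∏ l ∈ t, a l) * ∏ x ∈ s, rd (a x)) := by ring
      _ ≤ rd (a x) * (rd (∏ l ∈ t ∪ s, a l) * ∏ x ∈ s, ∏ l ∈ univ.erase x, (a x).gcd (a l)) := by
          gcongr
      _ = (rd (a x) * rd (∏ l ∈ t ∪ s, a l)) * ∏ x ∈ s, ∏ l ∈ univ.erase x, (a x).gcd (a l) := by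
          ring
      _ = rd (a x * ∏ l ∈ t ∪ s, a l) *
            (∏ p ∈ (a x).primeFactors ∩ (∏ l ∈ t ∪ s, a l).primeFactors, p) *
            ∏ x ∈ s, ∏ l ∈ univ.erase x, (a x).gcd (a l) := by rw [h2]
      _ ≤ rd (a x * ∏ l ∈ t ∪ s, a l) * (∏ l ∈ univ.erase x, (a x).gcd (a l)) *
            ∏ x ∈ s, ∏ l ∈ univ.erase x, (a x).gcd (a l) := by gcongr
      _ = _ := by ring

/-- what makes the radical small -/
lemma alt {q : ℕ} (a : Fin q → ℕ) (ha : ∀ l, a l ≠ 0) (t : Finset (Fin q)) {Y0 α β γ : ℝ}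
    (hα : 1 ≤ α) (hβ : 1 ≤ β) (hγ : 1 ≤ γ) (hY : α * β ^ q * γ ^ (q * q) ≤ Y0)
    (h : Y0 * (rd (∏ l, a l) : ℝ) ≤ ((∏ l, a l : ℕ) : ℝ)) :
    α * (rd (∏ l ∈ t, a l) : ℝ) ≤ ((∏ l ∈ t, a l : ℕ) : ℝ) ∨
    (∃ x ∉ t, β * (rd (a x) : ℝ) ≤ (a x : ℝ)) ∨
    ∃ x ∉ t, ∃ l, l ≠ x ∧ γ ≤ ((a x).gcd (a l) : ℝ) := by
  classical
  by_contra hcon
  push Not at hcon
  obtain ⟨h1, h2, h3⟩ := hcon
  have hsplit : (∏ l ∈ t, a l) * ∏ l ∈ univ \ t, a l = ∏ l, a l := by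
    rw [mul_comm]
    exact Finset.prod_sdiff (subset_univ t)
  have hrs := rad_split a ha t (univ \ t) Finset.disjoint_sdiff
  rw [Finset.union_sdiff_of_subset (subset_univ t)] at hrs
  have hcard : (univ \ t).card ≤ q := by
    have := Finset.card_le_univ (univ \ t)
    rwa [Fintype.card_fin] at this
  have hg : ((∏ x ∈ univ \ t, ∏ l ∈ univ.erase x, (a x).gcd (a l) : ℕ) : ℝ) ≤ γ ^ (q * q) := by
    push_cast
    calc ∏ x ∈ univ \ t, ∏ l ∈ univ.erase x, ((a x).gcd (a l) : ℝ) ≤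
          ∏ x ∈ univ \ t, γ ^ q := by
          refine Finset.prod_le_prod (fun x _ => Finset.prod_nonneg fun l _ => Nat.cast_nonneg _)
            fun x hx => ?_
          calc ∏ l ∈ univ.erase x, ((a x).gcd (a l) : ℝ) ≤ ∏ l ∈ univ.erase x, γ := by
                refine Finset.prod_le_prod (fun l _ => Nat.cast_nonneg _) fun l hl => ?_
                exact (h3 x (mem_sdiff.1 hx).2 l (mem_erase.1 hl).1).le
            _ = γ ^ (univ.erase x).card := Finset.prod_const _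
            _ ≤ γ ^ q := by
                refine pow_le_pow_right₀ hγ ?_
                have := Finset.card_le_univ (univ.erase x)
                rwa [Fintype.card_fin] at this
      _ = (γ ^ q) ^ (univ \ t).card := Finset.prod_const _
      _ ≤ (γ ^ q) ^ q := pow_le_pow_right₀ (one_le_pow₀ hγ) hcard
      _ = γ ^ (q * q) := (pow_mul γ q q).symm
  have hb : ((∏ l ∈ univ \ t, a l : ℕ) : ℝ) ≤
      β ^ q * ((∏ x ∈ univ \ t, rd (a x) : ℕ) : ℝ) := by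
    push_cast
    calc ∏ l ∈ univ \ t, (a l : ℝ) ≤ ∏ l ∈ univ \ t, β * (rd (a l) : ℝ) := by
          refine Finset.prod_le_prod (fun l _ => Nat.cast_nonneg _) fun l hl => ?_
          exact (h2 l (mem_sdiff.1 hl).2).le
      _ = β ^ (univ \ t).card * ∏ l ∈ univ \ t, (rd (a l) : ℝ) := by
          rw [Finset.prod_mul_distrib, Finset.prod_const]
      _ ≤ _ := by
          refine mul_le_mul_of_nonneg_right (pow_le_pow_right₀ hβ hcard) ?_
          exact Finset.prod_nonneg fun l _ => Nat.cast_nonneg _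
  have hpos : 0 < ∏ l ∈ univ \ t, a l := Finset.prod_pos fun l _ => Nat.pos_of_ne_zero (ha l)
  have hrs' : ((rd (∏ l ∈ t, a l) * ∏ x ∈ univ \ t, rd (a x) : ℕ) : ℝ) ≤
      ((rd (∏ l, a l) * ∏ x ∈ univ \ t, ∏ l ∈ univ.erase x, (a x).gcd (a l) : ℕ) : ℝ) := by
    exact_mod_cast hrs
  have hlt : ((∏ l, a l : ℕ) : ℝ) < Y0 * (rd (∏ l, a l) : ℝ) := by
    rw [← hsplit, Nat.cast_mul]
    rw [hsplit]
    calc ((∏ l ∈ t, a l : ℕ) : ℝ) * ((∏ l ∈ univ \ t, a l : ℕ) : ℝ) <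
          (α * (rd (∏ l ∈ t, a l) : ℝ)) * ((∏ l ∈ univ \ t, a l : ℕ) : ℝ) := by
          refine mul_lt_mul_of_pos_right h1 ?_
          exact_mod_cast hpos
      _ ≤ (α * (rd (∏ l ∈ t, a l) : ℝ)) * (β ^ q * ((∏ x ∈ univ \ t, rd (a x) : ℕ) : ℝ)) := by
          gcongr
      _ = α * β ^ q * ((rd (∏ l ∈ t, a l) * ∏ x ∈ univ \ t, rd (a x) : ℕ) : ℝ) := by
          push_cast
          ring
      _ ≤ α * β ^ q * ((rd (∏ l, a l) *
            ∏ x ∈ univ \ t, ∏ l ∈ univ.erase x, (a x).gcd (a l) : ℕ) : ℝ) := by gcongr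
      _ = α * β ^ q * ((∏ x ∈ univ \ t, ∏ l ∈ univ.erase x, (a x).gcd (a l) : ℕ) : ℝ) *
            (rd (∏ l, a l) : ℝ) := by
          rw [Nat.cast_mul]
          ring
      _ ≤ α * β ^ q * γ ^ (q * q) * (rd (∏ l, a l) : ℝ) := by gcongr
      _ ≤ Y0 * (rd (∏ l, a l) : ℝ) := by gcongr
  linarith

variable {q : ℕ} {ℓ : Fin q → Fin 3 → ℤ} {Θ H : ℕ}

/-- `d` divides `z × (a × b)` when it divides both forms -/
lemma cr_cr_dvd {z a b : Fin 3 → ℤ} {d : ℤ} (ha : d ∣ dot z a) (hb : d ∣ dot z b) (k : Fin 3) :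
    d ∣ cr z (cr a b) k := by
  have e : cr z (cr a b) k = a k * dot z b - b k * dot z a := by
    fin_cases k
    · change cr z (cr a b) 0 = a 0 * _ - b 0 * _
      simp only [cr_zero, cr_one, cr_two, dot]; ring
    · change cr z (cr a b) 1 = a 1 * _ - b 1 * _
      simp only [cr_zero, cr_one, cr_two, dot]; ring
    · change cr z (cr a b) 2 = a 2 * _ - b 2 * _
      simp only [cr_zero, cr_one, cr_two, dot]; ring
  rw [e]
  exact dvd_sub (Dvd.dvd.mul_left hb _) (Dvd.dvd.mul_left ha _)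

lemma dtA_le (g : GP ℓ Θ H) {z : Fin 3 → ℤ} {B : ℕ} (hz : ∀ k, |z k| ≤ B) (i j k l : Fin q) :
    |dt z (cr (ℓ i) (ℓ j)) (cr (ℓ k) (ℓ l))| ≤ 24 * H ^ 4 * B := by
  have hcr : ∀ r s : Fin q, ∀ m, |cr (ℓ r) (ℓ s) m| ≤ 2 * H ^ 2 := by
    intro r s m
    have := cr_le g (Y := ℓ r) (Z := H) (g.bd r) s m
    calc |cr (ℓ r) (ℓ s) m| ≤ 2 * H * H := this
      _ = _ := by ring
  set A := cr (ℓ i) (ℓ j) with hA
  set A' := cr (ℓ k) (ℓ l) with hA'
  have h1 : ∀ a b : Fin 3, |A a * A' b - A b * A' a| ≤ 8 * H ^ 4 := by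
    intro a b
    have h2 : ∀ a b : Fin 3, |A a * A' b| ≤ (2 * H ^ 2) * (2 * H ^ 2) := by
      intro a b
      rw [abs_mul]
      exact mul_le_mul (hcr i j a) (hcr k l b) (abs_nonneg _) (by positivity)
    calc |A a * A' b - A b * A' a| ≤ |A a * A' b| + |A b * A' a| := abs_sub _ _
      _ ≤ (2 * H ^ 2) * (2 * H ^ 2) + (2 * H ^ 2) * (2 * H ^ 2) := add_le_add (h2 a b) (h2 b a)
      _ = _ := by ring
  have hterm : ∀ k a b : Fin 3, |z k * (A a * A' b - A b * A' a)| ≤ B * (8 * H ^ 4) := by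
    intro k a b
    rw [abs_mul]
    exact mul_le_mul (hz k) (h1 a b) (abs_nonneg _) (Int.natCast_nonneg B)
  rw [dt_eq]
  calc _ ≤ _ := abs_add_three _ _ _
    _ ≤ (B : ℤ) * (8 * H ^ 4) + B * (8 * H ^ 4) + B * (8 * H ^ 4) :=
        add_le_add (add_le_add (hterm 0 1 2) (hterm 1 2 0)) (hterm 2 0 1)
    _ = _ := by ring

/-- off the special lines -/
def Off {q : ℕ} (ℓ : Fin q → Fin 3 → ℤ) (z : Fin 3 → ℤ) : Prop :=
  ∀ i j k l, i ≠ j → i ≠ k → i ≠ l → j ≠ k → j ≠ l → k ≠ l →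
    dt z (cr (ℓ i) (ℓ j)) (cr (ℓ k) (ℓ l)) ≠ 0

/-- the radical of a minimal tuple -/
lemma rd_le_off (g : GP ℓ Θ H) {m : Fin q → ℕ} (hm0 : ∏ l, m l ≠ 0) {K M : ℝ} (hK : 1 ≤ K)
    (h : ∀ p : ℕ, p.Prime → p ∣ ∏ l, m l → p ^ 2 ∣ ∏ l, m l ∧
        ((∏ l, m l : ℕ) : ℝ) ≤ K * (rd (∏ l, m l) : ℝ) * p) {X : ℕ} (hX1 : 1 ≤ X)
    (hX : ∀ l, m l ≤ X) {B : ℕ} {z : Fin 3 → ℤ} (hz : ∀ k, |z k| ≤ B)
    (hzm : ∀ l, (m l : ℤ) ∣ dot z (ℓ l)) (hoff : Off ℓ z) (hM0 : 0 < M) (hM1 : (X : ℝ) < M ^ 2)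
    (hM2 : 24 * (H : ℝ) ^ 4 * B < M ^ 2) : (rd (∏ l, m l) : ℝ) ≤ max (X : ℝ) (K * M) := by
  classical
  by_contra hcon
  rw [not_le, max_lt_iff] at hcon
  obtain ⟨hc1, hc2⟩ := hcon
  set P := ∏ l, m l with hP
  set R := rd P with hR
  have hRsq : Squarefree R := rd_squarefree _
  have hR0 : (0 : ℝ) < R := by exact_mod_cast rd_pos P
  have hK0 : 0 < K := by linarith
  have hml0 : ∀ l, m l ≠ 0 := fun l h0 => hm0 (Finset.prod_eq_zero (mem_univ l) h0)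
  have hR1 : R ≠ 1 := by
    intro h1
    rw [h1] at hc1
    have : (1 : ℝ) ≤ X := by exact_mod_cast hX1
    push_cast at hc1
    linarith
  have hR2 : R ^ 2 ∣ P := by
    have h1 : ((R : ℕ) : ℤ) ^ 2 ∣ (P : ℤ) := by
      refine sqf_dvd hRsq 2 fun p hp hpR => ?_
      have := (h p hp (hpR.trans (rd_dvd hm0))).1
      exact_mod_cast this
    exact_mod_cast h1
  -- all the primes are large
  have hlarge : ∀ p : ℕ, p.Prime → p ∣ R → M < p := by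
    intro p hp hpR
    obtain ⟨-, hle⟩ := h p hp (hpR.trans (rd_dvd hm0))
    have h3 : R ^ 2 ≤ P := Nat.le_of_dvd (Nat.pos_of_ne_zero hm0) hR2
    have h4 : (R : ℝ) ^ 2 ≤ (P : ℝ) := by exact_mod_cast h3
    have h5 : (R : ℝ) * R ≤ (K * p) * R := by nlinarith
    have h6 : (R : ℝ) ≤ K * p := le_of_mul_le_mul_right h5 hR0
    have h7 : K * M < K * p := hc2.trans_le h6
    exact lt_of_mul_lt_mul_left h7 hK0.le
  have hsqX : ∀ p p' : ℕ, M < p → M < p' → ∀ l, ¬ p * p' ∣ m l := by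
    intro p p' hp hp' l hd
    have h1 : p * p' ≤ X := (Nat.le_of_dvd (Nat.pos_of_ne_zero (hml0 l)) hd).trans (hX l)
    have h2 : ((p : ℝ) * p') ≤ X := by exact_mod_cast h1
    nlinarith
  -- two indices
  have htwo : ∀ p : ℕ, p.Prime → p ∣ R → ∃ l l', l ≠ l' ∧ p ∣ m l ∧ p ∣ m l' := by
    intro p hp hpR
    have hpP : p ∣ P := hpR.trans (rd_dvd hm0)
    obtain ⟨l, -, hl⟩ := (hp.prime.dvd_finsetProd_iff _).1 hpP
    by_contra hno
    push Not at hno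
    have hother : ∀ l', l' ≠ l → ¬ p ∣ m l' := fun l' hne => hno l l' hne.symm hl
    have h1 := (h p hp hpP).1
    rw [hP, ← Finset.mul_prod_erase univ m (mem_univ l)] at h1
    have h2 : Nat.Coprime (p ^ 2) (∏ x ∈ univ.erase l, m x) := by
      refine Nat.Coprime.pow_left 2 ?_
      rw [Nat.Prime.coprime_iff_not_dvd hp]
      intro h3
      obtain ⟨l', hl', hpl'⟩ := (hp.prime.dvd_finsetProd_iff _).1 h3
      exact hother l' (mem_erase.1 hl').1 hpl'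
    have h3 := h2.dvd_of_dvd_mul_right h1
    rw [sq] at h3
    exact hsqX p p (hlarge p hp hpR) (hlarge p hp hpR) l h3
  -- a second prime
  set p := R.minFac with hp0
  have hp : p.Prime := Nat.minFac_prime hR1
  obtain ⟨r, hr⟩ : p ∣ R := Nat.minFac_dvd R
  have hpR : p ∣ R := Dvd.intro _ hr.symm
  have hr1 : r ≠ 1 := by
    intro h1
    rw [h1, mul_one] at hr
    obtain ⟨l, -, -, hl, -⟩ := htwo p hp hpR
    have h2 : R ≤ X := by
      rw [hr]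
      exact (Nat.le_of_dvd (Nat.pos_of_ne_zero (hml0 l)) hl).trans (hX l)
    have h3 : (R : ℝ) ≤ X := by exact_mod_cast h2
    linarith
  obtain ⟨p', hp', hp'r⟩ := Nat.exists_prime_and_dvd hr1
  have hp'R : p' ∣ R := hp'r.trans (Dvd.intro_left _ hr.symm)
  have hne : p ≠ p' := by
    rintro he
    have h1 : p * p ∣ R := by
      conv_rhs => rw [hr]
      exact Nat.mul_dvd_mul_left p (he ▸ hp'r)
    exact hp.one_lt.ne' (Nat.isUnit_iff.1 (hRsq p h1))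
  have hcop : p.Coprime p' := (Nat.coprime_primes hp hp').2 hne
  obtain ⟨i, j, hij, hi, hj⟩ := htwo p hp hpR
  obtain ⟨k, l, hkl, hk, hl⟩ := htwo p' hp' hp'R
  have hM := hlarge p hp hpR
  have hM' := hlarge p' hp' hp'R
  have hdisj : ∀ x, p ∣ m x → ¬ p' ∣ m x := by
    intro x hx hx'
    exact hsqX p p' hM hM' x (hcop.mul_dvd_of_dvd_of_dvd hx hx')
  have hik : i ≠ k := fun h1 => hdisj i hi (h1 ▸ hk)
  have hil : i ≠ l := fun h1 => hdisj i hi (h1 ▸ hl)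
  have hjk : j ≠ k := fun h1 => hdisj j hj (h1 ▸ hk)
  have hjl : j ≠ l := fun h1 => hdisj j hj (h1 ▸ hl)
  have hdot : ∀ (p : ℕ) x, p ∣ m x → (p : ℤ) ∣ dot z (ℓ x) := fun p x hx =>
    (Int.natCast_dvd_natCast.2 hx).trans (hzm x)
  have h1 : (p : ℤ) ∣ dt z (cr (ℓ i) (ℓ j)) (cr (ℓ k) (ℓ l)) :=
    dvd_dt_left (cr_cr_dvd (hdot p i hi) (hdot p j hj))
  have h2 : (p' : ℤ) ∣ dt z (cr (ℓ i) (ℓ j)) (cr (ℓ k) (ℓ l)) :=
    dvd_dt_right (cr_cr_dvd (hdot p' k hk) (hdot p' l hl))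
  have h3 : (p : ℤ) * p' ∣ dt z (cr (ℓ i) (ℓ j)) (cr (ℓ k) (ℓ l)) := by
    have hc : IsCoprime (p : ℤ) (p' : ℤ) := Nat.isCoprime_iff_coprime.2 hcop
    exact hc.mul_dvd h1 h2
  have h4 := hoff i j k l hij hik hil hjk hjl hkl
  have h5 : (p : ℤ) * p' ≤ 24 * H ^ 4 * B := by
    refine le_trans ?_ (dtA_le g hz i j k l)
    have h6 := Int.le_of_dvd (abs_pos.2 h4) ((dvd_abs _ _).2 h3)
    exact h6
  have h6 : (p : ℝ) * p' ≤ 24 * (H : ℝ) ^ 4 * B := by exact_mod_cast h5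
  nlinarith

end Pool.Agent.K4H9.PS
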