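import Pool.Agent.K4H9.PS.PB

set_option autoImplicit false

/-!
The number of integer points in a box off the special lines at which the product of the linear
forms is large compared with its radical.
-/

namespace Pool.Agent.K4H9.PS

open Finset Pool.Agent.K4H9.PP

variable {q : ℕ} {ℓ : Fin q → Fin 3 → ℤ} {Θ H : ℕ}

/-- one tuple -/
lemma fibre2 (g : GP ℓ Θ H) {c : ℕ} (hc : 1 ≤ c) {B : ℕ} {b : Fin 3 → ℕ}
    (hb : ∀ j, 1 ≤ b j ∧ b j ≤ B) {K Q Nn : ℝ} (hK : 1 ≤ K) (hQ : 0 < Q)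
    (hN1 : ((∏ j, b j : ℕ) : ℝ) / K ≤ Nn) (hN2 : (B : ℝ) ^ 2 / Q ≤ Nn)
    {m : Fin q → ℕ} (hm0 : ∏ l, m l ≠ 0)
    (hm1 : K * (rd (∏ l, m l) : ℝ) ≤ ((∏ l, m l : ℕ) : ℝ))
    (hm2 : (rd (∏ l, m l) : ℝ) ≤ Nn)
    (T : Finset (Fin 3 → ℤ)) (hTne : T.Nonempty)
    (hT : ∀ z ∈ T, Cont c z ∧ (∀ k, |z k| ≤ b k) ∧ (∀ l, dot z (ℓ l) ≠ 0) ∧
      ∀ l, (m l : ℤ) ∣ dot z (ℓ l)) :
    (T.card : ℝ) ≤ ((2 * c + 729 + 729 * (Θ * c) ^ q : ℕ) : ℝ) *
        (Nn * (1 / (rd (∏ l, m l) : ℝ))) ∨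
    ∃ V : Fin 3 → ℤ, V ≠ 0 ∧ (∀ l, cr V (ℓ l) ≠ 0) ∧ (∀ l k, (m l : ℤ) ∣ cr V (ℓ l) k) ∧
      (nm V : ℝ) < Q * (rd (∏ l, m l) : ℝ) ∧ T.card * nm V ≤ 729 * B ^ 2 ∧
      ∀ z ∈ T, dot z V = 0 := by
  classical
  set P := ∏ l, m l with hP
  set R := rd P with hR
  set β : ℝ := ((∏ j, b j : ℕ) : ℝ) with hβ
  have hR0 : (0 : ℝ) < R := by exact_mod_cast rd_pos P
  have hR1 : (1 : ℝ) ≤ R := by exact_mod_cast rd_pos P
  have hK0 : 0 < K := by linarith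
  have hNn0 : 0 < Nn := by linarith
  have hgoal : ∀ x y : ℝ, x ≤ y * (Nn * (1 / (R : ℝ))) →
      y ≤ ((2 * c + 729 + 729 * (Θ * c) ^ q : ℕ) : ℝ) →
      x ≤ ((2 * c + 729 + 729 * (Θ * c) ^ q : ℕ) : ℝ) * (Nn * (1 / (R : ℝ))) := by
    intro x y h1 h2
    exact h1.trans (mul_le_mul_of_nonneg_right h2 (by positivity))
  rcases tri T b (fun j => (hb j).1) (fun z hz k => (hT z hz).2.1 k) with h | h | h
  · left
    have h1 := par_card hc T (fun z hz => (hT z hz).1) h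
    have h2 : (T.card : ℝ) ≤ 2 * c := by exact_mod_cast h1
    refine hgoal _ (2 * c : ℕ) (h2.trans ?_) (by exact_mod_cast (by omega))
    have h3 : 1 ≤ Nn * (1 / (R : ℝ)) := by
      rw [mul_one_div, le_div_iff₀ hR0, one_mul]
      exact hm2
    have hc0 : (0 : ℝ) ≤ 2 * c := by positivity
    push_cast
    nlinarith
  · obtain ⟨v, w, hv, hw, hV, hperp, hcard⟩ := h
    set V := cr v w with hVdef
    have hnm : T.card * nm V ≤ 729 * B ^ 2 := by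
      obtain ⟨k, hk⟩ := exists_nm V
      have h1 := hcard k
      rw [hk] at h1
      have h2 : ∏ j, b j ≤ b k * B ^ 2 := by
        rw [Fin.prod_univ_three]
        have h0 := (hb 0).2
        have h1' := (hb 1).2
        have h2' := (hb 2).2
        fin_cases k
        · change b 0 * b 1 * b 2 ≤ b 0 * B ^ 2
          calc b 0 * b 1 * b 2 = b 0 * (b 1 * b 2) := by ring
            _ ≤ b 0 * (B * B) := by gcongr
            _ = _ := by ring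
        · change b 0 * b 1 * b 2 ≤ b 1 * B ^ 2
          calc b 0 * b 1 * b 2 = b 1 * (b 0 * b 2) := by ring
            _ ≤ b 1 * (B * B) := by gcongr
            _ = _ := by ring
        · change b 0 * b 1 * b 2 ≤ b 2 * B ^ 2
          calc b 0 * b 1 * b 2 = b 2 * (b 0 * b 1) := by ring
            _ ≤ b 2 * (B * B) := by gcongr
            _ = _ := by ring
      have h3 : T.card * nm V * b k ≤ (729 * B ^ 2) * b k := by
        calc T.card * nm V * b k ≤ 729 * ∏ j, b j := h1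
          _ ≤ 729 * (b k * B ^ 2) := by gcongr
          _ = _ := by ring
      exact Nat.le_of_mul_le_mul_right h3 (hb k).1
    rcases lt_or_ge (nm V : ℝ) (Q * R) with hlt | hge
    · right
      refine ⟨V, hV, ?_, ?_, hlt, hnm, hperp⟩
      · intro l hcr
        obtain ⟨z, hz⟩ := hTne
        obtain ⟨k, hk⟩ : ∃ k, V k ≠ 0 := by
          by_contra hcon
          push Not at hcon
          exact hV (funext hcon)
        apply (hT z hz).2.2.1 l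
        obtain ⟨V', hV'⟩ := cr_mod (u := ℓ l) (ℓ := V) (m := 0) (fun j => by
          have e : cr (ℓ l) V j = -cr V (ℓ l) j := by
            fin_cases j
            · change cr _ _ 0 = - cr _ _ 0
              simp only [cr_zero]; ring
            · change cr _ _ 1 = - cr _ _ 1
              simp only [cr_one]; ring
            · change cr _ _ 2 = - cr _ _ 2
              simp only [cr_two]; ring
          rw [e, hcr]
          simp) k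
        have h1 : V k * dot z (ℓ l) = ℓ l k * dot z V := by
          unfold dot
          linear_combination z 0 * hV' 0 + z 1 * hV' 1 + z 2 * hV' 2
        rw [hperp z hz, mul_zero] at h1
        exact (mul_eq_zero.1 h1).resolve_left hk
      · intro l k
        have hspan := span_dot (T := (T : Set (Fin 3 → ℤ))) (W := ℓ l) (m := (m l : ℤ))
          fun z hz => (hT z hz).2.2.2 l
        have e : cr V (ℓ l) k = w k * dot v (ℓ l) - v k * dot w (ℓ l) := by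
          rw [hVdef]
          fin_cases k
          · change cr (cr v w) (ℓ l) 0 = w 0 * _ - v 0 * _
            simp only [cr_zero, cr_one, cr_two, dot]; ring
          · change cr (cr v w) (ℓ l) 1 = w 1 * _ - v 1 * _
            simp only [cr_zero, cr_one, cr_two, dot]; ring
          · change cr (cr v w) (ℓ l) 2 = w 2 * _ - v 2 * _
            simp only [cr_zero, cr_one, cr_two, dot]; ring
        rw [e]
        exact dvd_sub (Dvd.dvd.mul_left (hspan v hv) _) (Dvd.dvd.mul_left (hspan w hw) _)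
    · left
      refine hgoal _ (729 : ℕ) ?_ (by exact_mod_cast (by omega))
      have h1 : (T.card : ℝ) * nm V ≤ 729 * (B : ℝ) ^ 2 := by exact_mod_cast hnm
      have h2 : (T.card : ℝ) * R ≤ 729 * Nn := by
        have h3 : (B : ℝ) ^ 2 ≤ Nn * Q := by rwa [div_le_iff₀ hQ] at hN2
        have h4 : ((T.card : ℝ) * R) * Q ≤ (729 * Nn) * Q := by
          calc ((T.card : ℝ) * R) * Q = (T.card : ℝ) * (Q * R) := by ring
            _ ≤ (T.card : ℝ) * nm V := mul_le_mul_of_nonneg_left hge (Nat.cast_nonneg _)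
            _ ≤ 729 * (B : ℝ) ^ 2 := h1
            _ ≤ 729 * (Nn * Q) := by linarith
            _ = _ := by ring
        exact le_of_mul_le_mul_right h4 hQ
      rw [← mul_assoc, mul_one_div, le_div_iff₀ hR0]
      exact_mod_cast h2
  · obtain ⟨u, v, w, hu, hv, hw, hD, hcard⟩ := h
    left
    obtain ⟨z₀, hz₀⟩ := hTne
    have h1 := prod_dvd g hc hm0 (T := (T : Set (Fin 3 → ℤ))) (fun z hz => (hT z hz).2.2.2) hz₀
      (hT z₀ hz₀).1 hu hv hw hD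
    have hD' : 0 < (dt u v w).natAbs := by
      have : (dt u v w).natAbs ≠ 0 := by simpa using hD
      omega
    have hΘ := g.Θ1
    have h2 : P ≤ (Θ * c) ^ q * (dt u v w).natAbs := Nat.le_of_dvd (by positivity) h1
    have h3 : T.card * P ≤ (729 * (Θ * c) ^ q) * ∏ j, b j := by
      calc T.card * P ≤ T.card * ((Θ * c) ^ q * (dt u v w).natAbs) := by gcongr
        _ = (Θ * c) ^ q * (T.card * (dt u v w).natAbs) := by ring
        _ ≤ (Θ * c) ^ q * (729 * ∏ j, b j) := by gcongr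
        _ = _ := by ring
    refine hgoal _ (729 * (Θ * c) ^ q : ℕ) ?_ (by exact_mod_cast (by omega))
    have h4 : (T.card : ℝ) * P ≤ ((729 * (Θ * c) ^ q : ℕ) : ℝ) * β := by
      rw [hβ]
      exact_mod_cast h3
    have h5 : (T.card : ℝ) ≤ ((729 * (Θ * c) ^ q : ℕ) : ℝ) * β / (K * R) := by
      rw [le_div_iff₀ (by positivity)]
      calc (T.card : ℝ) * (K * R) ≤ (T.card : ℝ) * P := by gcongr
        _ ≤ _ := h4
    calc (T.card : ℝ) ≤ ((729 * (Θ * c) ^ q : ℕ) : ℝ) * β / (K * R) := h5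
      _ = ((729 * (Θ * c) ^ q : ℕ) : ℝ) * ((β / K) * (1 / (R : ℝ))) := by field_simp
      _ ≤ _ := by gcongr

lemma AS_mono {Θ₁ : ℕ} {W W' : ℝ} {u v : ℕ} (h : AS Θ₁ W u v) (hW : W ≤ W') : AS Θ₁ W' u v := by
  obtain ⟨g, a, b, u', v', h1, h2, h3⟩ := h
  exact ⟨g, a, b, u', v', h1, h2, h3.trans hW⟩

theorem zthm2 (g : GP ℓ Θ H) {c : ℕ} (hc : 1 ≤ c) {κ₀ : ℝ} (hκ0 : 0 < κ₀) (hκ1 : κ₀ ≤ 1) :
    ∃ η₁ : ℝ, 0 < η₁ ∧ η₁ ≤ κ₀ / 8 ∧ ∀ C₁ : ℝ, 1 ≤ C₁ → ∃ C : ℝ, 0 < C ∧ ∀ B : ℕ, 1 ≤ B →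
      ∀ b : Fin 3 → ℕ, (∀ j, 1 ≤ b j ∧ b j ≤ B) → ∀ K : ℝ, 1 ≤ K →
      ((∏ j, b j : ℕ) : ℝ) / K ≤ C₁ * (B : ℝ) ^ (2 - η₁) → K ≤ C₁ * (B : ℝ) ^ (1 + η₁) →
      ∀ T : Finset (Fin 3 → ℤ), (∀ z ∈ T, Cont c z ∧ (∀ k, |z k| ≤ b k) ∧
        (∀ l, dot z (ℓ l) ≠ 0) ∧ Off ℓ z ∧
        K * (rd (∏ l, (dot z (ℓ l)).natAbs) : ℝ) ≤ ((∏ l, (dot z (ℓ l)).natAbs : ℕ) : ℝ) ∧
        (B : ℝ) ^ (κ₀ / 2) * (rd (∏ l, (dot z (ℓ l)).natAbs) : ℝ) ≤
          C₁ * ((∏ l, (dot z (ℓ l)).natAbs : ℕ) : ℝ) ∧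
        (rd (∏ l, (dot z (ℓ l)).natAbs) : ℝ) ≤ C₁ * (B : ℝ) ^ ((q : ℝ) - 1 - κ₀)) →
      (T.card : ℝ) ≤ C * (B : ℝ) ^ (2 - η₁ / 2) := by
  classical
  have hq3 := g.q3
  have hq3' : (3 : ℝ) ≤ q := by exact_mod_cast hq3
  have hH := g.H1
  have hHr : (1 : ℝ) ≤ H := by exact_mod_cast hH
  have hΘ := g.Θ1
  have hΘr : (1 : ℝ) ≤ Θ := by exact_mod_cast hΘ
  set η : ℝ := κ₀ / (4 * ((q : ℝ) + 1) ^ 2) with hη
  have hη0 : 0 < η := by positivity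
  have hκη : 4 * ((q : ℝ) + 1) ^ 2 * η = κ₀ := by rw [hη]; field_simp
  set θ : ℝ := η / 12 with hθ
  have hθ0 : 0 < θ := by positivity
  set δ : ℝ := 1 / (8 * ((q : ℝ) + 2)) with hδ
  have hδ0 : 0 < δ := by positivity
  have hδq : 8 * ((q : ℝ) + 2) * δ = 1 := by rw [hδ]; field_simp
  have hδ40 : 40 * δ ≤ 1 := by nlinarith
  have hδ2 : (4 * ((q : ℝ) + 1) + 2) * δ ≤ 1 := by
    have e1 : 4 * ((q : ℝ) + 1) + 2 ≤ 8 * ((q : ℝ) + 2) := by linarith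
    calc (4 * ((q : ℝ) + 1) + 2) * δ ≤ 8 * ((q : ℝ) + 2) * δ := by gcongr
      _ = 1 := hδq
  set η₁ : ℝ := θ * δ / 2 with hη₁
  have hη10 : 0 < η₁ := by positivity
  have hη1η : 960 * η₁ ≤ η := by
    rw [hη₁, hθ]
    nlinarith
  have hηκ : 64 * η ≤ κ₀ := by
    have e1 : 64 ≤ 4 * ((q : ℝ) + 1) ^ 2 := by nlinarith
    calc 64 * η ≤ 4 * ((q : ℝ) + 1) ^ 2 * η := by gcongr
      _ = κ₀ := hκη
  refine ⟨η₁, hη10, by linarith, fun C₁ hC₁ => ?_⟩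
  have hC₁0 : 0 < C₁ := by linarith
  set ε : ℝ := η₁ / 2 with hε
  have hε0 : 0 < ε := by positivity
  set C₃ : ℝ := C₁ + (2 * H * Θ) ^ 2 with hC₃
  have hC₃1 : 1 ≤ C₃ := by
    have : 0 ≤ (2 * (H : ℝ) * Θ) ^ 2 := by positivity
    linarith
  obtain ⟨Cr, hCr0, hCr⟩ := sum_inv_rd q hε0
  obtain ⟨Cm, hCm0, hCm⟩ := sumM2 g hδ0 (by linarith) hδ2 hε0
  obtain ⟨Cb, hCb0, hCb⟩ := partB g hc hη0 hθ0 (by linarith) hκη.le hκ1 hC₁
  -- the double points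
  have hkex : ∀ x : Fin q × Fin q, ∃ k : Fin 3, x.1 ≠ x.2 → cr (ℓ x.1) (ℓ x.2) k ≠ 0 := by
    intro x
    by_cases hx : x.1 = x.2
    · exact ⟨0, fun h => absurd hx h⟩
    · obtain ⟨k, hk, -⟩ := g.c x.1 x.2 hx
      exact ⟨k, fun _ => hk⟩
  choose k₀ hk₀ using hkex
  have hAex : ∀ x : Fin q × Fin q, ∃ C : ℝ, 0 < C ∧ (x.1 ≠ x.2 → ∀ B : ℕ, 1 ≤ B →
      ∀ T : Finset (Fin 3 → ℤ), (∀ z ∈ T, (∀ k, |z k| ≤ B) ∧
      (∀ l, dot z (ℓ l) ≠ 0) ∧ Off ℓ z ∧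
      (rd (∏ l, (dot z (ℓ l)).natAbs) : ℝ) ≤ C₃ * (B : ℝ) ^ ((q : ℝ) - 1 - κ₀) ∧
      AS (cr (ℓ x.1) (ℓ x.2) (k₀ x)).natAbs (C₃ * (B : ℝ) ^ (2 * η₁)) (dot z (ℓ x.1)).natAbs
        (dot z (ℓ x.2)).natAbs) → (T.card : ℝ) ≤ C * (B : ℝ) ^ (2 - η / 4)) := by
    intro x
    by_cases hx : x.1 = x.2
    · exact ⟨1, one_pos, fun h => absurd hx h⟩
    · obtain ⟨C, hC0, hC⟩ := partA g hx hη0 hη10 (by linarith) hκη.le hκ1 hC₃1
        (Θ₁ := (cr (ℓ x.1) (ℓ x.2) (k₀ x)).natAbs) (Int.natAbs_pos.2 (hk₀ x hx))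
      exact ⟨C, hC0, fun _ => hC⟩
  choose CA hCA0 hCA using hAex
  set Ca : ℝ := ∑ x, CA x with hCa
  have hCAle : ∀ x, CA x ≤ Ca := fun x =>
    Finset.single_le_sum (f := CA) (fun x _ => (hCA0 x).le) (mem_univ x)
  have hCa0 : 0 < Ca := by
    have : 0 < q := by omega
    exact lt_of_lt_of_le (hCA0 (⟨0, this⟩, ⟨0, this⟩)) (hCAle _)
  obtain ⟨B₀, hB₀1, hB₀⟩ := big (a := η₁) hη10 (2 * Θ)
  set A₀ : ℕ := 2 * c + 729 + 729 * (Θ * c) ^ q with hA₀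
  set D1 : ℝ := A₀ * (5 * H ^ 2 * C₁) * Cr * (3 * (H : ℝ)) ^ ε with hD1
  set D2 : ℝ := 729 * Cm * (729 : ℝ) ^ ε with hD2
  have hD10 : 0 < D1 := by positivity
  have hD20 : 0 < D2 := by positivity
  refine ⟨D1 + (D2 + (Cb + q * q * Ca)) + ((2 * B₀ + 1) ^ 3 : ℕ), by positivity,
    fun B hB b hb K hK hbK hKB T hT => ?_⟩
  have hB1 : (1 : ℝ) ≤ B := by exact_mod_cast hB
  have hB0 : (0 : ℝ) < B := by linarith
  have hBe : (1 : ℝ) ≤ (B : ℝ) ^ (2 - η₁ / 2) := Real.one_le_rpow hB1 (by linarith)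
  have hTB : ∀ z ∈ T, ∀ k, |z k| ≤ B := by
    intro z hz k
    refine ((hT z hz).2.1 k).trans ?_
    exact_mod_cast (hb k).2
  rcases lt_or_ge B B₀ with hlt | hge
  · have h1 : T.card ≤ (2 * B₀ + 1) ^ 3 := by
      refine box_card T fun z hz k => (hTB z hz k).trans ?_
      exact_mod_cast hlt.le
    have h2 : (T.card : ℝ) ≤ (((2 * B₀ + 1) ^ 3 : ℕ) : ℝ) := by exact_mod_cast h1
    have h4 : (0 : ℝ) ≤ D1 + (D2 + (Cb + q * q * Ca)) := by positivity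
    calc (T.card : ℝ) ≤ (((2 * B₀ + 1) ^ 3 : ℕ) : ℝ) * 1 := by linarith
      _ ≤ _ := mul_le_mul (by linarith) hBe zero_le_one (by positivity)
  have hBbig := hB₀ B hge
  set Q : ℝ := (B : ℝ) ^ η₁ with hQ
  have hQ0 : 0 < Q := by positivity
  set Nn : ℝ := 5 * H ^ 2 * C₁ * (B : ℝ) ^ (2 - η₁) with hNn
  have hNn0 : 0 < Nn := by positivity
  have h5 : (1 : ℝ) ≤ 5 * (H : ℝ) ^ 2 := by nlinarith
  have hB2η : 0 < (B : ℝ) ^ (2 - η₁) := by positivity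
  have hN1 : ((∏ j, b j : ℕ) : ℝ) / K ≤ Nn := by
    refine hbK.trans ?_
    rw [hNn]
    calc C₁ * (B : ℝ) ^ (2 - η₁) = 1 * (C₁ * (B : ℝ) ^ (2 - η₁)) := by ring
      _ ≤ 5 * H ^ 2 * (C₁ * (B : ℝ) ^ (2 - η₁)) := by gcongr
      _ = _ := by ring
  have hN2 : (B : ℝ) ^ 2 / Q ≤ Nn := by
    have e1 : (B : ℝ) ^ 2 / Q = (B : ℝ) ^ (2 - η₁) := by
      rw [hQ, div_eq_iff (by positivity), ← Real.rpow_add hB0, ← Real.rpow_natCast (B : ℝ) 2]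
      congr 1
      push_cast
      ring
    rw [e1, hNn]
    calc (B : ℝ) ^ (2 - η₁) = 1 * 1 * (B : ℝ) ^ (2 - η₁) := by ring
      _ ≤ 5 * H ^ 2 * C₁ * (B : ℝ) ^ (2 - η₁) := by gcongr
  set X : ℕ := 3 * H * B with hX
  have hX1 : 1 ≤ X := by
    have : 0 < 3 * H * B := by positivity
    exact this
  have hXr : (X : ℝ) = 3 * H * B := by rw [hX]; push_cast; ring
  have hdX : ∀ z ∈ T, ∀ l, (dot z (ℓ l)).natAbs ≤ X := fun z hz l => dot_le g (hTB z hz) l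
  -- the minimal tuples
  have hex : ∀ z ∈ T, ∃ m : Fin q → ℕ, (∀ l, m l ∣ (dot z (ℓ l)).natAbs) ∧ (∏ l, m l) ≠ 0 ∧
      K * (rd (∏ l, m l) : ℝ) ≤ ((∏ l, m l : ℕ) : ℝ) ∧
      ∀ p : ℕ, p.Prime → p ∣ ∏ l, m l → p ^ 2 ∣ ∏ l, m l ∧
        ((∏ l, m l : ℕ) : ℝ) ≤ K * (rd (∏ l, m l) : ℝ) * p := by
    intro z hz
    obtain ⟨-, -, h1, -, h2, -⟩ := hT z hz
    exact exists_min (fun l => by simpa using h1 l) hK h2
  choose! m hm1 hm2 hm3 hm4 using hex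
  have hmX : ∀ z ∈ T, ∀ l, 1 ≤ m z l ∧ m z l ≤ X := by
    intro z hz l
    have h1 : (dot z (ℓ l)).natAbs ≠ 0 := by simpa using (hT z hz).2.2.1 l
    refine ⟨Nat.pos_of_ne_zero ?_, ?_⟩
    · intro h0
      exact hm2 z hz (Finset.prod_eq_zero (mem_univ l) h0)
    · exact (Nat.le_of_dvd (Nat.pos_of_ne_zero h1) (hm1 z hz l)).trans (hdX z hz l)
  set MM := T.image m with hMM
  set Tf : (Fin q → ℕ) → Finset (Fin 3 → ℤ) := fun μ => T.filter fun z => m z = μ with hTf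
  have hMM1 : ∀ μ ∈ MM, ∏ l, μ l ≠ 0 ∧ K * (rd (∏ l, μ l) : ℝ) ≤ ((∏ l, μ l : ℕ) : ℝ) ∧
      (rd (∏ l, μ l) : ℝ) ≤ Nn ∧
      (∀ p : ℕ, p.Prime → p ∣ ∏ l, μ l → p ^ 2 ∣ ∏ l, μ l) ∧
      μ ∈ Fintype.piFinset (fun _ : Fin q => Icc 1 X) := by
    intro μ hμ
    obtain ⟨z, hz, rfl⟩ := mem_image.1 hμ
    refine ⟨hm2 z hz, hm3 z hz, ?_, fun p hp hpd => (hm4 z hz p hp hpd).1, ?_⟩
    · set M : ℝ := 5 * H ^ 2 * √(B : ℝ) with hM
      have hM0 : 0 < M := by positivity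
      have hM2 : M ^ 2 = 25 * (H : ℝ) ^ 4 * B := by
        rw [hM, mul_pow, Real.sq_sqrt hB0.le]
        ring
      have hH4 : (H : ℝ) ≤ (H : ℝ) ^ 4 := le_self_pow₀ hHr (by norm_num)
      have hH40 : (1 : ℝ) ≤ (H : ℝ) ^ 4 := one_le_pow₀ hHr
      refine (rd_le_off g (hm2 z hz) hK (hm4 z hz) hX1 (fun l => (hmX z hz l).2) (hTB z hz)
        (fun l => Int.natCast_dvd.2 (hm1 z hz l)) (hT z hz).2.2.2.1 hM0 ?_ ?_).trans ?_
      · rw [hM2, hXr]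
        nlinarith
      · rw [hM2]
        nlinarith
      · refine max_le ?_ ?_
        · rw [hXr, hNn]
          have e1 : (B : ℝ) ≤ (B : ℝ) ^ (2 - η₁) := by
            calc (B : ℝ) = (B : ℝ) ^ (1 : ℝ) := (Real.rpow_one _).symm
              _ ≤ _ := Real.rpow_le_rpow_of_exponent_le hB1 (by linarith)
          have e2 : 3 * (H : ℝ) ≤ 5 * H ^ 2 * C₁ := by nlinarith
          calc 3 * (H : ℝ) * B ≤ (5 * H ^ 2 * C₁) * (B : ℝ) ^ (2 - η₁) :=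
                mul_le_mul e2 e1 hB0.le (by positivity)
            _ = _ := by ring
        · have e1 : √(B : ℝ) = (B : ℝ) ^ (1 / 2 : ℝ) := Real.sqrt_eq_rpow _
          rw [hM, e1, hNn]
          calc K * (5 * H ^ 2 * (B : ℝ) ^ (1 / 2 : ℝ)) ≤
                (C₁ * (B : ℝ) ^ (1 + η₁)) * (5 * H ^ 2 * (B : ℝ) ^ (1 / 2 : ℝ)) := by gcongr
            _ = 5 * H ^ 2 * C₁ * ((B : ℝ) ^ (1 + η₁) * (B : ℝ) ^ (1 / 2 : ℝ)) := by ring
            _ = 5 * H ^ 2 * C₁ * (B : ℝ) ^ (1 + η₁ + 1 / 2) := by rw [← Real.rpow_add hB0]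
            _ ≤ _ := by
                refine mul_le_mul_of_nonneg_left ?_ (by positivity)
                exact Real.rpow_le_rpow_of_exponent_le hB1 (by linarith)
    · rw [Fintype.mem_piFinset]
      intro l
      rw [mem_Icc]
      exact hmX z hz l
  have hTfne : ∀ μ ∈ MM, (Tf μ).Nonempty := by
    intro μ hμ
    obtain ⟨z, hz, rfl⟩ := mem_image.1 hμ
    exact ⟨z, mem_filter.2 ⟨hz, rfl⟩⟩
  have halt : ∀ μ ∈ MM, ((Tf μ).card : ℝ) ≤ (A₀ : ℝ) * (Nn * (1 / (rd (∏ l, μ l) : ℝ))) ∨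
      ∃ V : Fin 3 → ℤ, V ≠ 0 ∧ (∀ l, cr V (ℓ l) ≠ 0) ∧ (∀ l k, (μ l : ℤ) ∣ cr V (ℓ l) k) ∧
        (nm V : ℝ) < Q * (rd (∏ l, μ l) : ℝ) ∧ (Tf μ).card * nm V ≤ 729 * B ^ 2 ∧
        ∀ z ∈ Tf μ, dot z V = 0 := by
    intro μ hμ
    obtain ⟨h1, h2, h3, -, -⟩ := hMM1 μ hμ
    refine fibre2 g hc hb hK hQ0 hN1 hN2 h1 h2 h3 (Tf μ) (hTfne μ hμ) fun z hz => ?_
    rw [hTf, mem_filter] at hz
    obtain ⟨hz1, rfl⟩ := hz
    obtain ⟨h4, h5, h6, -⟩ := hT z hz1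
    exact ⟨h4, h5, h6, fun l => Int.natCast_dvd.2 (hm1 z hz1 l)⟩
  set M1 := MM.filter fun μ => ((Tf μ).card : ℝ) ≤
    (A₀ : ℝ) * (Nn * (1 / (rd (∏ l, μ l) : ℝ))) with hM1
  set M2 := MM.filter fun μ => ¬ ((Tf μ).card : ℝ) ≤
    (A₀ : ℝ) * (Nn * (1 / (rd (∏ l, μ l) : ℝ))) with hM2
  have hbad : ∀ μ ∈ M2, ∃ (t : ℕ) (Y : Fin 3 → ℤ), 1 ≤ t ∧ Cont 1 Y ∧ (∀ l, cr Y (ℓ l) ≠ 0) ∧
      (∀ l k, (μ l : ℤ) ∣ t * cr Y (ℓ l) k) ∧ ((t * nm Y : ℕ) : ℝ) < Q * (rd (∏ l, μ l) : ℝ) ∧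
      (Tf μ).card * (t * nm Y) ≤ 729 * B ^ 2 ∧ ∀ z ∈ Tf μ, dot z Y = 0 := by
    intro μ hμ
    rw [hM2, mem_filter] at hμ
    obtain ⟨V, h1, h2, h3, h4, h5, h6⟩ := (halt μ hμ.1).resolve_left hμ.2
    obtain ⟨t, Y, ht, hVY, hY⟩ := exists_prim h1
    have hcr : ∀ l k, cr V (ℓ l) k = t * cr Y (ℓ l) k := by
      intro l k
      rw [hVY]
      exact cr_smul _ _ _ _
    have hnm : nm V = t * nm Y := by
      conv_lhs => rw [hVY]
      exact nm_smul _ _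
    refine ⟨t, Y, ht, hY, ?_, ?_, ?_, ?_, ?_⟩
    · intro l h
      apply h2 l
      funext k
      rw [hcr l k, h]
      simp
    · intro l k
      rw [← hcr l k]
      exact h3 l k
    · rw [← hnm]
      exact h4
    · rw [← hnm]
      exact h5
    · intro z hz
      have h7 := h6 z hz
      rw [hVY] at h7
      have h8 : dot z ((t : ℤ) • Y) = t * dot z Y := by
        rw [dot_comm, dot_smul, dot_comm]
      rw [h8] at h7
      exact (mul_eq_zero.1 h7).resolve_left (by exact_mod_cast (by omega : t ≠ 0))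
  choose! t Y hb1 hb2 hb3 hb4 hb5 hb6 hb7 using hbad
  have hfibsum : ∀ M' : Finset (Fin q → ℕ), ((T.filter fun z => m z ∈ M').card : ℝ) ≤
      ∑ μ ∈ M', ((Tf μ).card : ℝ) := by
    intro M'
    have h1 : (T.filter fun z => m z ∈ M').card =
        ∑ μ ∈ M', ((T.filter fun z => m z ∈ M').filter fun z => m z = μ).card :=
      Finset.card_eq_sum_card_fiberwise fun z hz => (mem_filter.1 hz).2
    rw [h1, Nat.cast_sum]
    refine Finset.sum_le_sum fun μ _ => ?_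
    exact_mod_cast Finset.card_le_card (Finset.filter_subset_filter _ (Finset.filter_subset _ _))
  -- the four kinds of points
  have hcover : T = T.filter fun z => (m z ∈ M1 ∨ ((m z ∈ M2.filter fun μ =>
      (∀ i j, i ≠ j → dt (Y μ) (ℓ i) (ℓ j) ≠ 0) ∧ (B : ℝ) ^ θ ≤ nm (Y μ)) ∨
      ((m z ∈ M2 ∧ (∀ i j, i ≠ j → dt (Y (m z)) (ℓ i) (ℓ j) ≠ 0) ∧ (nm (Y (m z)) : ℝ) ≤ (B : ℝ) ^ θ) ∨
      (m z ∈ M2 ∧ ∃ i j, i ≠ j ∧ dt (Y (m z)) (ℓ i) (ℓ j) = 0)))) := by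
    refine (Finset.filter_true_of_mem fun z hz => ?_).symm
    have hzM : m z ∈ MM := mem_image_of_mem m hz
    by_cases h1 : m z ∈ M1
    · exact Or.inl h1
    right
    have h2 : m z ∈ M2 := by
      rw [hM2, mem_filter]
      refine ⟨hzM, fun h3 => h1 ?_⟩
      rw [hM1, mem_filter]
      exact ⟨hzM, h3⟩
    by_cases h3 : ∀ i j, i ≠ j → dt (Y (m z)) (ℓ i) (ℓ j) ≠ 0
    · rcases le_total ((B : ℝ) ^ θ) (nm (Y (m z))) with h4 | h4
      · exact Or.inl (mem_filter.2 ⟨h2, h3, h4⟩)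
      · exact Or.inr (Or.inl ⟨h2, h3, h4⟩)
    · push Not at h3
      exact Or.inr (Or.inr ⟨h2, h3⟩)
  have hs1 : ((T.filter fun z => m z ∈ M1).card : ℝ) ≤ D1 * (B : ℝ) ^ (2 - η₁ / 2) := by
    refine (hfibsum M1).trans ?_
    calc ∑ μ ∈ M1, ((Tf μ).card : ℝ) ≤
          ∑ μ ∈ M1, (A₀ : ℝ) * (Nn * (1 / (rd (∏ l, μ l) : ℝ))) :=
          Finset.sum_le_sum fun μ hμ => (mem_filter.1 hμ).2
      _ = (A₀ : ℝ) * Nn * ∑ μ ∈ M1, 1 / (rd (∏ l, μ l) : ℝ) := by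
          rw [Finset.mul_sum]
          exact Finset.sum_congr rfl fun _ _ => by ring
      _ ≤ (A₀ : ℝ) * Nn * (Cr * (X : ℝ) ^ ε) := by
          refine mul_le_mul_of_nonneg_left ?_ (by positivity)
          refine le_trans ?_ (hCr X hX1)
          refine Finset.sum_le_sum_of_subset_of_nonneg ?_ fun _ _ _ => by positivity
          intro μ hμ
          exact (hMM1 μ (mem_filter.1 hμ).1).2.2.2.2
      _ = D1 * ((B : ℝ) ^ (2 - η₁) * (B : ℝ) ^ ε) := by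
          rw [hXr, Real.mul_rpow (by positivity) hB0.le, hNn, hD1]
          ring
      _ = _ := by
          rw [← Real.rpow_add hB0]
          congr 2
          rw [hε]
          ring
  have hs2 : ((T.filter fun z => m z ∈ M2.filter fun μ =>
      (∀ i j, i ≠ j → dt (Y μ) (ℓ i) (ℓ j) ≠ 0) ∧ (B : ℝ) ^ θ ≤ nm (Y μ)).card : ℝ) ≤
      D2 * (B : ℝ) ^ (2 - η₁ / 2) := by
    set M3 := M2.filter fun μ =>
      (∀ i j, i ≠ j → dt (Y μ) (ℓ i) (ℓ j) ≠ 0) ∧ (B : ℝ) ^ θ ≤ nm (Y μ) with hM3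
    refine (hfibsum M3).trans ?_
    have hW1 : 1 ≤ 729 * B ^ 2 := by
      have : 0 < 729 * B ^ 2 := by positivity
      exact this
    have hBθ1 : 1 ≤ (B : ℝ) ^ θ := Real.one_le_rpow hB1 hθ0.le
    have hQc : 2 * Q * Θ ≤ ((B : ℝ) ^ θ) ^ δ := by
      have e1 : ((B : ℝ) ^ θ) ^ δ = (B : ℝ) ^ η₁ * (B : ℝ) ^ η₁ := by
        rw [← Real.rpow_mul hB0.le, ← Real.rpow_add hB0]
        congr 1
        rw [hη₁]
        ring
      rw [e1]
      calc 2 * Q * Θ = Q * (2 * Θ) := by ring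
        _ ≤ Q * (B : ℝ) ^ η₁ := by gcongr
        _ = _ := by rw [hQ]
    have h1 := hCm (729 * B ^ 2) hW1 ((B : ℝ) ^ θ) Q hBθ1 hQc M3 t Y (by
      intro μ hμ
      rw [hM3, mem_filter] at hμ
      obtain ⟨hμ2, h2, h3⟩ := hμ
      have hμM : μ ∈ MM := (mem_filter.1 hμ2).1
      obtain ⟨h4, -, -, h6, -⟩ := hMM1 μ hμM
      refine ⟨h4, h6, hb1 μ hμ2, hb2 μ hμ2, ?_, h3, h2, hb3 μ hμ2, hb4 μ hμ2, hb5 μ hμ2⟩
      refine le_trans ?_ (hb6 μ hμ2)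
      exact Nat.le_mul_of_pos_left _ (Finset.card_pos.2 (hTfne μ hμM)))
    calc ∑ μ ∈ M3, ((Tf μ).card : ℝ) ≤
          ∑ μ ∈ M3, 729 * (B : ℝ) ^ 2 * (1 / ((t μ * nm (Y μ) : ℕ) : ℝ)) := by
          refine Finset.sum_le_sum fun μ hμ => ?_
          have hμ2 : μ ∈ M2 := (mem_filter.1 hμ).1
          have h2 : 0 < t μ * nm (Y μ) := Nat.mul_pos (hb1 μ hμ2) (nm_pos (hb2 μ hμ2).1)
          have h3 : (0 : ℝ) < ((t μ * nm (Y μ) : ℕ) : ℝ) := by exact_mod_cast h2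
          rw [mul_one_div, le_div_iff₀ h3]
          exact_mod_cast hb6 μ hμ2
      _ = 729 * (B : ℝ) ^ 2 * ∑ μ ∈ M3, 1 / ((t μ * nm (Y μ) : ℕ) : ℝ) := by rw [Finset.mul_sum]
      _ ≤ 729 * (B : ℝ) ^ 2 * (Cm * ((729 * B ^ 2 : ℕ) : ℝ) ^ ε * ((B : ℝ) ^ θ) ^ (-δ)) := by gcongr
      _ = D2 * ((B : ℝ) ^ (2 : ℝ) * (B : ℝ) ^ (2 * ε) * (B : ℝ) ^ (-(2 * η₁))) := by
          push_cast
          have e1 : (B : ℝ) ^ (2 : ℝ) = (B : ℝ) ^ 2 := by norm_cast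
          have e2 : (729 * (B : ℝ) ^ 2) ^ ε = (729 : ℝ) ^ ε * (B : ℝ) ^ (2 * ε) := by
            rw [Real.mul_rpow (by norm_num) (by positivity), ← Real.rpow_natCast (B : ℝ) 2,
              ← Real.rpow_mul hB0.le]
            push_cast
            rfl
          have e3 : ((B : ℝ) ^ θ) ^ (-δ) = (B : ℝ) ^ (-(2 * η₁)) := by
            rw [← Real.rpow_mul hB0.le]
            congr 1
            rw [hη₁]
            ring
          rw [e1, e2, e3, hD2]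
          ring
      _ = D2 * (B : ℝ) ^ (2 + 2 * ε + -(2 * η₁)) := by
          rw [← Real.rpow_add hB0, ← Real.rpow_add hB0]
      _ ≤ _ := by
          refine mul_le_mul_of_nonneg_left ?_ hD20.le
          refine Real.rpow_le_rpow_of_exponent_le hB1 ?_
          rw [hε]
          linarith
  have hs3 : ((T.filter fun z => (m z ∈ M2 ∧ (∀ i j, i ≠ j → dt (Y (m z)) (ℓ i) (ℓ j) ≠ 0) ∧
      (nm (Y (m z)) : ℝ) ≤ (B : ℝ) ^ θ)).card : ℝ) ≤ Cb * (B : ℝ) ^ (2 - η₁ / 2) := by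
    have h1 := hCb B hB (T.filter fun z => (m z ∈ M2 ∧
      (∀ i j, i ≠ j → dt (Y (m z)) (ℓ i) (ℓ j) ≠ 0) ∧ (nm (Y (m z)) : ℝ) ≤ (B : ℝ) ^ θ)) (by
      intro z hz
      rw [mem_filter] at hz
      obtain ⟨hz, h2, h3, h4⟩ := hz
      obtain ⟨a1, a2, a3, a4, a5, a6, a7⟩ := hT z hz
      refine ⟨a1, hTB z hz, a3, a6, Y (m z), h4, ?_, hb3 _ h2, h3⟩
      exact hb7 _ h2 z (mem_filter.2 ⟨hz, rfl⟩))
    refine h1.trans ?_
    refine mul_le_mul_of_nonneg_left ?_ hCb0.le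
    exact Real.rpow_le_rpow_of_exponent_le hB1 (by linarith)
  have hs4 : ((T.filter fun z => (m z ∈ M2 ∧ ∃ i j, i ≠ j ∧
      dt (Y (m z)) (ℓ i) (ℓ j) = 0)).card : ℝ) ≤ (q * q * Ca) * (B : ℝ) ^ (2 - η₁ / 2) := by
    set Ta := T.filter fun z => (m z ∈ M2 ∧ ∃ i j, i ≠ j ∧ dt (Y (m z)) (ℓ i) (ℓ j) = 0) with hTa
    have h1 := union_bd (ι := Fin q × Fin q) Ta (fun x z => x.1 ≠ x.2 ∧
      dt (Y (m z)) (ℓ x.1) (ℓ x.2) = 0) (M := Ca * (B : ℝ) ^ (2 - η / 4)) (by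
      intro z hz
      rw [hTa, mem_filter] at hz
      obtain ⟨-, -, i, j, h2, h3⟩ := hz
      exact ⟨(i, j), h2, h3⟩) (by
      intro x
      by_cases hx : x.1 = x.2
      · have e0 : (Ta.filter fun z => x.1 ≠ x.2 ∧ dt (Y (m z)) (ℓ x.1) (ℓ x.2) = 0) = ∅ :=
          Finset.filter_eq_empty_iff.2 fun z _ hz => hz.1 hx
        rw [e0, Finset.card_empty, Nat.cast_zero]
        positivity
      · have h2 := hCA x hx B hB (Ta.filter fun z => x.1 ≠ x.2 ∧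
          dt (Y (m z)) (ℓ x.1) (ℓ x.2) = 0) (by
          intro z hz
          rw [mem_filter, hTa, mem_filter] at hz
          obtain ⟨⟨hz, h2, -⟩, -, h3⟩ := hz
          obtain ⟨a1, a2, a3, a4, a5, a6, a7⟩ := hT z hz
          have hμM : m z ∈ MM := mem_image_of_mem m hz
          obtain ⟨c1, -, -, c4, -⟩ := hMM1 (m z) hμM
          refine ⟨hTB z hz, a3, a4, a7.trans ?_, ?_⟩
          · refine mul_le_mul_of_nonneg_right ?_ (by positivity)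
            have : 0 ≤ (2 * (H : ℝ) * Θ) ^ 2 := by positivity
            linarith
          · have h4 := as_of g hx (k₀ := k₀ x) c1 c4 (hb1 _ h2) (hb2 _ h2) (hb4 _ h2) h3
              (hb7 _ h2 z (mem_filter.2 ⟨hz, rfl⟩)) (hb5 _ h2)
            refine AS_mono h4 ?_
            have e1 : Q ^ 2 = (B : ℝ) ^ (2 * η₁) := by
              rw [hQ, ← Real.rpow_natCast ((B : ℝ) ^ η₁) 2, ← Real.rpow_mul hB0.le]
              congr 1
              push_cast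
              ring
            calc (2 * (H : ℝ) * (Q * Θ)) ^ 2 = (2 * H * Θ) ^ 2 * Q ^ 2 := by ring
              _ = (2 * H * Θ) ^ 2 * (B : ℝ) ^ (2 * η₁) := by rw [e1]
              _ ≤ C₃ * (B : ℝ) ^ (2 * η₁) := by
                  refine mul_le_mul_of_nonneg_right ?_ (by positivity)
                  linarith)
        refine h2.trans ?_
        exact mul_le_mul_of_nonneg_right (hCAle x) (by positivity))
    rw [Fintype.card_prod, Fintype.card_fin] at h1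
    push_cast at h1
    calc (Ta.card : ℝ) ≤ q * q * (Ca * (B : ℝ) ^ (2 - η / 4)) := h1
      _ ≤ q * q * (Ca * (B : ℝ) ^ (2 - η₁ / 2)) := by
          refine mul_le_mul_of_nonneg_left ?_ (by positivity)
          refine mul_le_mul_of_nonneg_left ?_ hCa0.le
          exact Real.rpow_le_rpow_of_exponent_le hB1 (by linarith)
      _ = _ := by ring
  have hall : (T.card : ℝ) ≤ D1 * (B : ℝ) ^ (2 - η₁ / 2) + (D2 * (B : ℝ) ^ (2 - η₁ / 2) +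
      (Cb * (B : ℝ) ^ (2 - η₁ / 2) + (q * q * Ca) * (B : ℝ) ^ (2 - η₁ / 2))) := by
    conv_lhs => rw [hcover]
    exact filter_or_bd T _ _ hs1 (filter_or_bd T _ _ hs2 (filter_or_bd T _ _ hs3 hs4))
  calc (T.card : ℝ) ≤ _ := hall
    _ = (D1 + (D2 + (Cb + q * q * Ca))) * (B : ℝ) ^ (2 - η₁ / 2) := by ring
    _ ≤ _ := by
        refine mul_le_mul_of_nonneg_right ?_ (by positivity)
        have : (0 : ℝ) ≤ (((2 * B₀ + 1) ^ 3 : ℕ) : ℝ) := Nat.cast_nonneg _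
        linarith

end Pool.Agent.K4H9.PS
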