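import Pool.Agent.K4H9.PP.Up
import Pool.Agent.K4H9.PS.Z2

set_option autoImplicit false

/-!
The upper bound off the special lines.
-/

namespace Pool.Agent.K4H9.PS

open Finset Pool.Agent.K4H9.PP

lemma cr_ll (a b c u v : Fin 3 → ℤ) (k : Fin 3) :
    cr (ll a b c u) (ll a b c v) k = dt a b c * zz a b c (cr u v) k := by
  fin_cases k
  · change cr _ _ 0 = _ * zz a b c (cr u v) 0
    rw [cr_zero]
    simp only [ll, zz, Matrix.cons_val_zero, Matrix.cons_val_one, Matrix.cons_val, dt_eq, dot,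
      cr_zero, cr_one, cr_two]
    ring
  · change cr _ _ 1 = _ * zz a b c (cr u v) 1
    rw [cr_one]
    simp only [ll, zz, Matrix.cons_val_zero, Matrix.cons_val_one, Matrix.cons_val, dt_eq, dot,
      cr_zero, cr_one, cr_two]
    ring
  · change cr _ _ 2 = _ * zz a b c (cr u v) 2
    rw [cr_two]
    simp only [ll, zz, Matrix.cons_val_zero, Matrix.cons_val_one, Matrix.cons_val, dt_eq, dot,
      cr_zero, cr_one, cr_two]
    ring

lemma dt_zz (a b c x p p' : Fin 3 → ℤ) :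
    dt (zz a b c x) (zz a b c p) (zz a b c p') = dt a b c * dt x p p' := by
  rw [det_mul x p p' a b c, dt_eq]
  simp only [zz, Matrix.cons_val_zero, Matrix.cons_val_one, Matrix.cons_val]
  ring

lemma dt_off (a b c x u v u' v' : Fin 3 → ℤ) :
    dt (zz a b c x) (cr (ll a b c u) (ll a b c v)) (cr (ll a b c u') (ll a b c v')) =
      (dt a b c) ^ 3 * dt x (cr u v) (cr u' v') := by
  have h1 : (dt a b c) ^ 3 * dt x (cr u v) (cr u' v') =
      (dt a b c) ^ 2 * (dt a b c * dt x (cr u v) (cr u' v')) := by ring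
  rw [h1, ← dt_zz, dt_eq (zz a b c x) (cr _ _) (cr _ _),
    dt_eq (zz a b c x) (zz a b c _) (zz a b c _)]
  simp only [cr_ll]
  ring

variable {q : ℕ} {L : Fin q → Fin 3 → ℤ} {Θ H : ℕ}

/-- one box -/
lemma boxcount2 (g : GP L Θ H) {κ : ℝ} (hκ1 : 1 < κ) (hκ2 : κ ≤ 2) {Cc : ℝ} (hCc : 1 ≤ Cc)
    {i j : Fin q} (hij : i ≠ j) :
    ∃ η : ℝ, 0 < η ∧ ∃ C : ℝ, 0 < C ∧ ∀ n a a' : ℕ, ∀ T : Finset (Fin 3 → ℤ),
      (∀ x ∈ T, Cont 1 x ∧
      2 ^ n ≤ nm x ∧ nm x < 2 ^ (n + 1) ∧ 2 ^ a ≤ (dot x (L i)).natAbs ∧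
      (dot x (L i)).natAbs < 2 ^ (a + 1) ∧ 2 ^ a' ≤ (dot x (L j)).natAbs ∧
      (dot x (L j)).natAbs < 2 ^ (a' + 1) ∧
      (∀ l, l ≠ i → l ≠ j → nm x ≤ 6 * H ^ 2 * (dot x (L l)).natAbs) ∧
      (∀ l, dot x (L l) ≠ 0) ∧ Off L x ∧
      (rd (∏ l, (dot x (L l)).natAbs) : ℝ) ≤ Cc * (nm x : ℝ) ^ ((q : ℝ) - κ)) →
      (T.card : ℝ) ≤ C * ((2 : ℝ) ^ n) ^ (2 - η) := by
  classical
  have hq3 := g.q3
  obtain ⟨k, hik, hjk⟩ : ∃ k : Fin q, i ≠ k ∧ j ≠ k := by
    by_contra hcon
    push Not at hcon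
    have h1 : (univ : Finset (Fin q)) ⊆ {i, j} := by
      intro k _
      rw [mem_insert, mem_singleton]
      by_cases h : i = k
      · exact Or.inl h.symm
      · exact Or.inr (hcon k h).symm
    have h2 := (Finset.card_le_card h1).trans Finset.card_le_two
    rw [Finset.card_univ, Fintype.card_fin] at h2
    omega
  set D := dt (L i) (L j) (L k) with hD
  have hD0 : D ≠ 0 := (g.d i j k hij hik hjk).1
  set ℓ : Fin q → Fin 3 → ℤ := fun l => ll (L i) (L j) (L k) (L l) with hℓ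
  obtain ⟨Θ', H', g'⟩ := exists_GP hq3 ℓ (by
    intro r s t hrs hrt hst
    rw [hℓ]
    simp only
    rw [dt_ll]
    exact mul_ne_zero (g.d r s t hrs hrt hst).1 (pow_ne_zero _ hD0))
  set κ₀ : ℝ := κ - 1 with hκ₀
  have hκ₀0 : 0 < κ₀ := by linarith
  obtain ⟨η₁, hη0, hηκ, hZ⟩ := zthm2 g' (c := D.natAbs) (by omega) hκ₀0 (by linarith)
  have hH := g.H1
  have hHr : (1 : ℝ) ≤ H := by exact_mod_cast hH
  set c' : ℝ := 1 / (Cc * 2 ^ q * (6 * H ^ 2) ^ q * (3 * H)) with hc'
  have hc'0 : 0 < c' := by positivity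
  have hc'1 : c' ≤ 1 := by
    rw [hc', div_le_one (by positivity)]
    have e1 : (1 : ℝ) ≤ 2 ^ q := one_le_pow₀ (by norm_num)
    have e2 : (1 : ℝ) ≤ (6 * (H : ℝ) ^ 2) ^ q := one_le_pow₀ (by nlinarith)
    have e3 : (1 : ℝ) ≤ 3 * H := by linarith
    calc (1 : ℝ) = 1 * 1 * 1 * 1 := by ring
      _ ≤ _ := by gcongr
  have hq0 : (0 : ℝ) ≤ q := Nat.cast_nonneg q
  have hDr : (1 : ℝ) ≤ (D.natAbs : ℝ) := by exact_mod_cast (by omega : 1 ≤ D.natAbs)
  set C₁ : ℝ := 12 * H + 48 * H / c' + D.natAbs * (Cc * 2 ^ q) with hC₁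
  have hpos1 : 0 ≤ 48 * (H : ℝ) / c' := by positivity
  have hpos2 : 0 ≤ (D.natAbs : ℝ) * (Cc * 2 ^ q) := by positivity
  have hC₁1 : 1 ≤ C₁ := by linarith
  have hC₁a : 12 * (H : ℝ) ≤ C₁ := by linarith
  have hC₁b : 48 * (H : ℝ) / c' ≤ C₁ := by linarith
  have hC₁c : (D.natAbs : ℝ) * (Cc * 2 ^ q) ≤ C₁ := by linarith
  obtain ⟨C, hC0, hC⟩ := hZ C₁ hC₁1
  refine ⟨η₁ / 2, by positivity, C * (12 * H : ℝ) ^ (2 - η₁ / 2) + 27 * (48 * H / c'),
    by positivity, fun n a a' T hT => ?_⟩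
  set y : ℝ := (2 : ℝ) ^ n with hy
  have hy1 : 1 ≤ y := one_le_pow₀ (by norm_num)
  have hy0 : 0 < y := by linarith
  rcases T.eq_empty_or_nonempty with h0 | ⟨x0, hx0⟩
  · rw [h0, Finset.card_empty, Nat.cast_zero]
    positivity
  set BZ : ℕ := 12 * H * 2 ^ n with hBZ
  have hBZ1 : 1 ≤ BZ := by
    have : 0 < 12 * H * 2 ^ n := by positivity
    exact this
  have hBZr : (BZ : ℝ) = 12 * H * y := by rw [hBZ, hy]; push_cast; ring
  have hyBZ : y ≤ (BZ : ℝ) := by
    rw [hBZr]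
    nlinarith
  have hBZ1r : (1 : ℝ) ≤ BZ := hy1.trans hyBZ
  have hBZ0 : (0 : ℝ) < BZ := by linarith
  set b : Fin 3 → ℕ := ![2 ^ (a + 1), 2 ^ (a' + 1), BZ] with hb
  have hdotle : ∀ x ∈ T, ∀ l, (dot x (L l)).natAbs < 6 * H * 2 ^ n := by
    intro x hx l
    obtain ⟨-, -, h2, -⟩ := hT x hx
    have h3 := dot_le g (B := nm x) (abs_le_nm x) l
    calc (dot x (L l)).natAbs ≤ 3 * H * nm x := h3
      _ < 3 * H * 2 ^ (n + 1) := by
          refine Nat.mul_lt_mul_of_pos_left h2 (by positivity)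
      _ = _ := by ring
  have hbB : ∀ s, 1 ≤ b s ∧ b s ≤ BZ := by
    obtain ⟨-, -, -, h3, -, h4, -⟩ := hT x0 hx0
    intro s
    fin_cases s
    · change 1 ≤ 2 ^ (a + 1) ∧ 2 ^ (a + 1) ≤ BZ
      refine ⟨Nat.one_le_two_pow, ?_⟩
      have := hdotle x0 hx0 i
      calc 2 ^ (a + 1) = 2 * 2 ^ a := by ring
        _ ≤ 2 * (6 * H * 2 ^ n) := by omega
        _ = BZ := by rw [hBZ]; ring
    · change 1 ≤ 2 ^ (a' + 1) ∧ 2 ^ (a' + 1) ≤ BZ
      refine ⟨Nat.one_le_two_pow, ?_⟩
      have := hdotle x0 hx0 j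
      calc 2 ^ (a' + 1) = 2 * 2 ^ a' := by ring
        _ ≤ 2 * (6 * H * 2 ^ n) := by omega
        _ = BZ := by rw [hBZ]; ring
    · exact ⟨hBZ1, le_refl _⟩
  set A : ℝ := (2 : ℝ) ^ a * (2 : ℝ) ^ a' with hA
  have hA0 : 0 < A := by positivity
  have hABZ : A ≤ (BZ : ℝ) ^ 2 := by
    have e0 : (2 : ℝ) ^ a ≤ BZ := by
      have h1 : 2 ^ (a + 1) ≤ BZ := (hbB 0).2
      have h2 : 2 ^ a ≤ BZ := (Nat.pow_le_pow_right (by norm_num) (by omega)).trans h1
      exact_mod_cast h2
    have e1 : (2 : ℝ) ^ a' ≤ BZ := by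
      have h1 : 2 ^ (a' + 1) ≤ BZ := (hbB 1).2
      have h2 : 2 ^ a' ≤ BZ := (Nat.pow_le_pow_right (by norm_num) (by omega)).trans h1
      exact_mod_cast h2
    calc A ≤ BZ * BZ := mul_le_mul e0 e1 (by positivity) (Nat.cast_nonneg _)
      _ = _ := by ring
  have hprodb : ((∏ s, b s : ℕ) : ℝ) = 48 * H * (A * y) := by
    rw [Fin.prod_univ_three]
    have e0 : b 0 = 2 ^ (a + 1) := rfl
    have e1 : b 1 = 2 ^ (a' + 1) := rfl
    have e2 : b 2 = BZ := rfl
    rw [e0, e1, e2]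
    push_cast
    rw [hBZr, hA]
    ring
  set K : ℝ := c' * A * y ^ (η₁ - 1) with hK
  have hK0 : 0 < K := by positivity
  have hbK : ((∏ s, b s : ℕ) : ℝ) / K = (48 * H / c') * y ^ (2 - η₁) := by
    rw [hprodb, hK]
    have h1 : y ^ (2 - η₁) = y / y ^ (η₁ - 1) := by
      rw [eq_div_iff (by positivity), ← Real.rpow_add hy0]
      norm_num
    rw [h1]
    field_simp
  -- the image
  set T' := T.image (zz (L i) (L j) (L k)) with hT'
  have hcard : T'.card = T.card := Finset.card_image_of_injective _ fun x y h => zz_inj hD0 h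
  have hbox : ∀ z ∈ T', ∀ s, |z s| ≤ b s := by
    intro z hz s
    obtain ⟨x, hx, rfl⟩ := mem_image.1 hz
    obtain ⟨-, -, -, -, h3, -, h4, -⟩ := hT x hx
    fin_cases s
    · change |dot x (L i)| ≤ ((2 ^ (a + 1) : ℕ) : ℤ)
      rw [Int.abs_eq_natAbs]
      exact_mod_cast h3.le
    · change |dot x (L j)| ≤ ((2 ^ (a' + 1) : ℕ) : ℤ)
      rw [Int.abs_eq_natAbs]
      exact_mod_cast h4.le
    · change |dot x (L k)| ≤ (BZ : ℤ)
      rw [Int.abs_eq_natAbs]
      have := hdotle x hx k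
      have h5 : (dot x (L k)).natAbs ≤ BZ := by
        calc (dot x (L k)).natAbs ≤ 6 * H * 2 ^ n := this.le
          _ ≤ 12 * H * 2 ^ n := by gcongr; norm_num
      exact_mod_cast h5
  have hexp : y ^ (2 - η₁) ≤ y ^ (2 - η₁ / 2) :=
    Real.rpow_le_rpow_of_exponent_le hy1 (by linarith)
  rcases lt_or_ge K 1 with hK1 | hK1
  · -- trivial bound
    have h2 : T' ⊆ Fintype.piFinset fun s => Finset.Icc (-(b s : ℤ)) (b s : ℤ) := by
      intro z hz
      rw [Fintype.mem_piFinset]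
      intro s
      rw [Finset.mem_Icc]
      exact abs_le.1 (hbox z hz s)
    have h3 := Finset.card_le_card h2
    rw [Fintype.card_piFinset] at h3
    have h4 : ∏ s, (Finset.Icc (-(b s : ℤ)) (b s : ℤ)).card ≤ ∏ s, 3 * b s := by
      refine Finset.prod_le_prod' fun s _ => ?_
      rw [Int.card_Icc]
      have := (hbB s).1
      omega
    have h5 : ∏ s, 3 * b s = 27 * ∏ s, b s := by
      rw [Finset.prod_mul_distrib, Finset.prod_const, Finset.card_univ, Fintype.card_fin]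
      norm_num
    have h6 : (T.card : ℝ) ≤ 27 * ((∏ s, b s : ℕ) : ℝ) := by
      rw [← hcard]
      have := (h3.trans h4).trans (le_of_eq h5)
      exact_mod_cast this
    have h7 : ((∏ s, b s : ℕ) : ℝ) ≤ ((∏ s, b s : ℕ) : ℝ) / K := by
      rw [le_div_iff₀ hK0]
      have : (0 : ℝ) ≤ ((∏ s, b s : ℕ) : ℝ) := Nat.cast_nonneg _
      nlinarith
    calc (T.card : ℝ) ≤ 27 * (((∏ s, b s : ℕ) : ℝ) / K) := h6.trans (by linarith)
      _ = 27 * (48 * H / c') * y ^ (2 - η₁) := by rw [hbK]; ring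
      _ ≤ 27 * (48 * H / c') * y ^ (2 - η₁ / 2) := by gcongr
      _ ≤ _ := by
          refine mul_le_mul_of_nonneg_right ?_ (by positivity)
          have : 0 ≤ C * (12 * H : ℝ) ^ (2 - η₁ / 2) := by positivity
          linarith
  · have hmain := hC BZ hBZ1 b hbB K hK1 (by
      rw [hbK]
      calc 48 * H / c' * y ^ (2 - η₁) ≤ C₁ * y ^ (2 - η₁) := by gcongr
        _ ≤ C₁ * (BZ : ℝ) ^ (2 - η₁) := by
            refine mul_le_mul_of_nonneg_left ?_ (by linarith)
            exact Real.rpow_le_rpow hy0.le hyBZ (by linarith)) (by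
      -- the bound for `K`
      have e1 : y ^ (η₁ - 1) = (12 * (H : ℝ)) ^ (1 - η₁) * (BZ : ℝ) ^ (η₁ - 1) := by
        rw [hBZr, Real.mul_rpow (by positivity) hy0.le, ← mul_assoc, ← Real.rpow_add (by positivity)]
        have : 1 - η₁ + (η₁ - 1) = 0 := by ring
        rw [this, Real.rpow_zero, one_mul]
      have e2 : (12 * (H : ℝ)) ^ (1 - η₁) ≤ 12 * H := by
        calc (12 * (H : ℝ)) ^ (1 - η₁) ≤ (12 * (H : ℝ)) ^ (1 : ℝ) :=
              Real.rpow_le_rpow_of_exponent_le (by linarith) (by linarith)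
          _ = _ := Real.rpow_one _
      calc K ≤ 1 * (BZ : ℝ) ^ 2 * y ^ (η₁ - 1) := by
            rw [hK]
            gcongr
        _ = (12 * (H : ℝ)) ^ (1 - η₁) * ((BZ : ℝ) ^ 2 * (BZ : ℝ) ^ (η₁ - 1)) := by rw [e1]; ring
        _ = (12 * (H : ℝ)) ^ (1 - η₁) * (BZ : ℝ) ^ (1 + η₁) := by
            rw [← Real.rpow_natCast (BZ : ℝ) 2, ← Real.rpow_add hBZ0]
            congr 2
            push_cast
            ring
        _ ≤ C₁ * (BZ : ℝ) ^ (1 + η₁) := by
            refine mul_le_mul_of_nonneg_right (e2.trans hC₁a) (by positivity)) T' (by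
      intro z hz
      refine ⟨?_, hbox z hz, ?_, ?_, ?_⟩
      · obtain ⟨x, hx, rfl⟩ := mem_image.1 hz
        exact cont_zz hD0 (hT x hx).1
      · obtain ⟨x, hx, rfl⟩ := mem_image.1 hz
        intro l
        rw [hℓ]
        simp only
        rw [dot_zz_ll]
        exact mul_ne_zero hD0 ((hT x hx).2.2.2.2.2.2.2.2.1 l)
      · obtain ⟨x, hx, rfl⟩ := mem_image.1 hz
        intro r s t u h1 h2 h3 h4 h5 h6
        rw [hℓ]
        simp only
        rw [dt_off]
        exact mul_ne_zero (pow_ne_zero _ hD0)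
          ((hT x hx).2.2.2.2.2.2.2.2.2.1 r s t u h1 h2 h3 h4 h5 h6)
      · obtain ⟨x, hx, rfl⟩ := mem_image.1 hz
        obtain ⟨h1, h2, h3, h4, h5, h6, h7, h8, h9, h9', h10⟩ := hT x hx
        have e1 : ∏ l, (dot (zz (L i) (L j) (L k) x) (ℓ l)).natAbs =
            D.natAbs ^ q * ∏ l, (dot x (L l)).natAbs := by
          rw [hℓ]
          simp only [dot_zz_ll, Int.natAbs_mul]
          rw [Finset.prod_mul_distrib, Finset.prod_const, Finset.card_univ, Fintype.card_fin]
        rw [e1]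
        set P := ∏ l, (dot x (L l)).natAbs with hP
        have hDn : D.natAbs ≠ 0 := by simpa using hD0
        have h11 : rd (D.natAbs ^ q * P) ≤ D.natAbs * rd P := by
          refine (rd_mul_le _ _).trans ?_
          rw [rd_pow (by omega)]
          exact Nat.mul_le_mul_right _ (rd_le_self hDn)
        have h12 : D.natAbs * P ≤ D.natAbs ^ q * P := by
          refine Nat.mul_le_mul_right _ ?_
          exact Nat.le_self_pow (by omega) _
        set Kt : ℝ := c' * A * y ^ (κ - 2) with hKt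
        have hKt0 : 0 < Kt := by positivity
        have hqκ : 0 ≤ (q : ℝ) - κ := by
          have : (3 : ℝ) ≤ q := by exact_mod_cast hq3
          linarith
        have hnmy : (nm x : ℝ) ^ ((q : ℝ) - κ) ≤ 2 ^ q * y ^ ((q : ℝ) - κ) := by
          have e5 : (nm x : ℝ) ≤ 2 * y := by
            have : (nm x : ℝ) ≤ (2 : ℝ) ^ (n + 1) := by exact_mod_cast h3.le
            rw [hy]
            calc (nm x : ℝ) ≤ (2 : ℝ) ^ (n + 1) := this
              _ = _ := by ring
          calc (nm x : ℝ) ^ ((q : ℝ) - κ) ≤ (2 * y) ^ ((q : ℝ) - κ) :=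
                Real.rpow_le_rpow (Nat.cast_nonneg _) e5 hqκ
            _ = 2 ^ ((q : ℝ) - κ) * y ^ ((q : ℝ) - κ) := Real.mul_rpow (by norm_num) hy0.le
            _ ≤ 2 ^ (q : ℝ) * y ^ ((q : ℝ) - κ) := by
                refine mul_le_mul_of_nonneg_right ?_ (by positivity)
                exact Real.rpow_le_rpow_of_exponent_le (by norm_num) (by linarith)
            _ = _ := by rw [Real.rpow_natCast]
        -- the main inequality
        have h13 : Kt * (rd P : ℝ) ≤ (P : ℝ) := by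
          have hPlow : A * (y / (6 * H ^ 2)) ^ (q - 2) ≤ (P : ℝ) := by
            rw [hP, ← Finset.mul_prod_erase univ _ (mem_univ i),
              ← Finset.mul_prod_erase (univ.erase i) _ (mem_erase.2 ⟨hij.symm, mem_univ j⟩)]
            push_cast
            have e2 : (2 : ℝ) ^ a ≤ (((dot x (L i)).natAbs : ℕ) : ℝ) := by exact_mod_cast h4
            have e3 : (2 : ℝ) ^ a' ≤ (((dot x (L j)).natAbs : ℕ) : ℝ) := by exact_mod_cast h6
            have hcardE : ((univ.erase i).erase j).card = q - 2 := by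
              rw [Finset.card_erase_of_mem (mem_erase.2 ⟨hij.symm, mem_univ j⟩),
                Finset.card_erase_of_mem (mem_univ i), Finset.card_univ, Fintype.card_fin]
              omega
            have e4 : (y / (6 * H ^ 2)) ^ (q - 2) ≤
                ∏ l ∈ (univ.erase i).erase j, (((dot x (L l)).natAbs : ℕ) : ℝ) := by
              rw [← hcardE, ← Finset.prod_const]
              refine Finset.prod_le_prod (fun l _ => by positivity) fun l hl => ?_
              rw [mem_erase, mem_erase] at hl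
              have e5 := h8 l hl.2.1 hl.1
              rw [div_le_iff₀ (by positivity)]
              have e6 : y ≤ (nm x : ℝ) := by rw [hy]; exact_mod_cast h2
              have e7 : (nm x : ℝ) ≤ 6 * H ^ 2 * (((dot x (L l)).natAbs : ℕ) : ℝ) := by
                exact_mod_cast e5
              calc y ≤ 6 * H ^ 2 * (((dot x (L l)).natAbs : ℕ) : ℝ) := e6.trans e7
                _ = _ := by ring
            rw [hA]
            simp only [Nat.cast_natAbs, Int.cast_abs] at e2 e3 e4 ⊢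
            calc (2 : ℝ) ^ a * 2 ^ a' * (y / (6 * H ^ 2)) ^ (q - 2) =
                  2 ^ a * (2 ^ a' * (y / (6 * H ^ 2)) ^ (q - 2)) := by ring
              _ ≤ _ := by
                  refine mul_le_mul e2 (mul_le_mul e3 e4 (by positivity) (by positivity))
                    (by positivity) (by positivity)
          have hsq : y ^ (κ - 2) * y ^ ((q : ℝ) - κ) = y ^ (q - 2) := by
            rw [← Real.rpow_add hy0, ← Real.rpow_natCast y (q - 2)]
            congr 1
            rw [Nat.cast_sub (by omega)]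
            push_cast
            ring
          have hden : (6 * (H : ℝ) ^ 2) ^ (q - 2) ≤ (6 * (H : ℝ) ^ 2) ^ q :=
            pow_le_pow_right₀ (by nlinarith) (by omega)
          have hcc : c' * (Cc * 2 ^ q) ≤ 1 / (6 * (H : ℝ) ^ 2) ^ (q - 2) := by
            rw [hc', div_mul_eq_mul_div, one_mul, div_le_div_iff₀ (by positivity) (by positivity),
              one_mul]
            calc Cc * 2 ^ q * (6 * (H : ℝ) ^ 2) ^ (q - 2) ≤
                  Cc * 2 ^ q * (6 * (H : ℝ) ^ 2) ^ q := by gcongr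
              _ = Cc * 2 ^ q * (6 * (H : ℝ) ^ 2) ^ q * 1 := by ring
              _ ≤ Cc * 2 ^ q * (6 * (H : ℝ) ^ 2) ^ q * (3 * H) := by
                  refine mul_le_mul_of_nonneg_left (by linarith) (by positivity)
          calc Kt * (rd P : ℝ) ≤ (c' * A * y ^ (κ - 2)) * (Cc * (2 ^ q * y ^ ((q : ℝ) - κ))) := by
                rw [hKt]
                refine mul_le_mul_of_nonneg_left (h10.trans ?_) (by positivity)
                gcongr
            _ = A * (c' * (Cc * 2 ^ q)) * (y ^ (κ - 2) * y ^ ((q : ℝ) - κ)) := by ring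
            _ ≤ A * (1 / (6 * (H : ℝ) ^ 2) ^ (q - 2)) * (y ^ (κ - 2) * y ^ ((q : ℝ) - κ)) := by
                gcongr
            _ = A * (y / (6 * H ^ 2)) ^ (q - 2) := by
                rw [hsq, div_pow]
                ring
            _ ≤ (P : ℝ) := hPlow
        have h14 : Kt * (rd (D.natAbs ^ q * P) : ℝ) ≤ ((D.natAbs ^ q * P : ℕ) : ℝ) := by
          calc Kt * (rd (D.natAbs ^ q * P) : ℝ) ≤ Kt * ((D.natAbs * rd P : ℕ) : ℝ) := by
                refine mul_le_mul_of_nonneg_left ?_ hKt0.le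
                exact_mod_cast h11
            _ = (D.natAbs : ℝ) * (Kt * (rd P : ℝ)) := by push_cast; ring
            _ ≤ (D.natAbs : ℝ) * (P : ℝ) := by gcongr
            _ ≤ ((D.natAbs ^ q * P : ℕ) : ℝ) := by exact_mod_cast h12
        have hrd0 : (0 : ℝ) ≤ (rd (D.natAbs ^ q * P) : ℝ) := Nat.cast_nonneg _
        have hKKt : Kt = K * y ^ (κ₀ - η₁) := by
          rw [hKt, hK, mul_assoc (c' * A), ← Real.rpow_add hy0]
          congr 2
          rw [hκ₀]
          ring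
        refine ⟨?_, ?_, ?_⟩
        · refine le_trans ?_ h14
          refine mul_le_mul_of_nonneg_right ?_ hrd0
          rw [hKKt]
          exact le_mul_of_one_le_right hK0.le (Real.one_le_rpow hy1 (by linarith))
        · have e2 : (BZ : ℝ) ^ (κ₀ / 2) ≤ C₁ * Kt := by
            calc (BZ : ℝ) ^ (κ₀ / 2) = (12 * (H : ℝ)) ^ (κ₀ / 2) * y ^ (κ₀ / 2) := by
                  rw [hBZr, Real.mul_rpow (by positivity) hy0.le]
              _ ≤ (12 * (H : ℝ)) ^ (1 : ℝ) * y ^ (κ₀ - η₁) := by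
                  refine mul_le_mul ?_ ?_ (by positivity) (by positivity)
                  · exact Real.rpow_le_rpow_of_exponent_le (by linarith) (by linarith)
                  · exact Real.rpow_le_rpow_of_exponent_le hy1 (by linarith)
              _ = (12 * (H : ℝ)) * (1 * y ^ (κ₀ - η₁)) := by rw [Real.rpow_one, one_mul]
              _ ≤ C₁ * (K * y ^ (κ₀ - η₁)) := by gcongr
              _ = C₁ * Kt := by rw [hKKt]
          calc (BZ : ℝ) ^ (κ₀ / 2) * (rd (D.natAbs ^ q * P) : ℝ) ≤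
                (C₁ * Kt) * (rd (D.natAbs ^ q * P) : ℝ) := mul_le_mul_of_nonneg_right e2 hrd0
            _ = C₁ * (Kt * (rd (D.natAbs ^ q * P) : ℝ)) := by ring
            _ ≤ _ := mul_le_mul_of_nonneg_left h14 (by linarith)
        · have e3 : (q : ℝ) - 1 - κ₀ = (q : ℝ) - κ := by rw [hκ₀]; ring
          rw [e3]
          calc (rd (D.natAbs ^ q * P) : ℝ) ≤ ((D.natAbs * rd P : ℕ) : ℝ) := by exact_mod_cast h11
            _ = (D.natAbs : ℝ) * (rd P : ℝ) := by push_cast; ring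
            _ ≤ (D.natAbs : ℝ) * (Cc * (2 ^ q * y ^ ((q : ℝ) - κ))) := by
                gcongr
                exact h10.trans (by gcongr)
            _ = (D.natAbs : ℝ) * (Cc * 2 ^ q) * y ^ ((q : ℝ) - κ) := by ring
            _ ≤ C₁ * (BZ : ℝ) ^ ((q : ℝ) - κ) := by
                refine mul_le_mul hC₁c ?_ (by positivity) (by linarith)
                exact Real.rpow_le_rpow hy0.le hyBZ hqκ)
    rw [hcard, hBZr, Real.mul_rpow (by positivity) hy0.le] at hmain
    calc (T.card : ℝ) ≤ C * ((12 * H : ℝ) ^ (2 - η₁ / 2) * y ^ (2 - η₁ / 2)) := hmain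
      _ = C * (12 * H : ℝ) ^ (2 - η₁ / 2) * y ^ (2 - η₁ / 2) := by ring
      _ ≤ _ := by
          refine mul_le_mul_of_nonneg_right ?_ (by positivity)
          have : 0 ≤ 27 * (48 * (H : ℝ) / c') := by positivity
          linarith

end Pool.Agent.K4H9.PS
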